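import Pool.Agent.Helper53_C4W.Siz3

/-!
# SIZ: the union bound
-/

set_option autoImplicit false

open scoped BigOperators Classical

noncomputable section

namespace Pool.Agent.C4W

open Pool.Agent.C4M (mean IsNbd mkv)

variable {V : Type} [Fintype V] {M : ℕ} [NeZero M] {k s q : ℕ}

/-- the set of labellings with a property -/
def ev (P : (V → ZMod M) → Prop) : Finset (V → ZMod M) := Finset.univ.filter P

lemma mem_ev {P : (V → ZMod M) → Prop} {ω : V → ZMod M} : ω ∈ ev P ↔ P ω := by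
  unfold ev; rw [Finset.mem_filter]; exact and_iff_right (Finset.mem_univ _)

/-- the number of labellings with a property -/
def cnt (P : (V → ZMod M) → Prop) : ℝ := ((ev P).card : ℝ)

lemma cnt_mono {P Q : (V → ZMod M) → Prop} (h : ∀ ω, P ω → Q ω) : cnt P ≤ cnt Q := by
  unfold cnt
  exact_mod_cast Finset.card_le_card fun ω hω => mem_ev.2 (h ω (mem_ev.1 hω))

lemma cnt_or (P Q : (V → ZMod M) → Prop) (a b : ℝ) (hP : cnt P ≤ a) (hQ : cnt Q ≤ b) :
    cnt (fun ω => P ω ∨ Q ω) ≤ a + b := by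
  unfold cnt at hP hQ ⊢
  refine le_trans ?_ (add_le_add hP hQ)
  rw [← Nat.cast_add, Nat.cast_le]
  refine (Finset.card_le_card ?_).trans (Finset.card_union_le _ _)
  intro ω hω
  rcases mem_ev.1 hω with e | e
  · exact Finset.mem_union_left _ (mem_ev.2 e)
  · exact Finset.mem_union_right _ (mem_ev.2 e)

/-- union over a list -/
lemma cnt_list (l : List Wd) (P : Wd → (V → ZMod M) → Prop) (b : ℝ)
    (h : ∀ w ∈ l, cnt (P w) ≤ b) : cnt (fun ω => ∃ w ∈ l, P w ω) ≤ l.length * b := by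
  induction l with
  | nil => unfold cnt ev; simp
  | cons w l ih =>
    have h1 := ih fun v hv => h v (by simp [hv])
    have h2 := h w (by simp)
    have h3 := cnt_mono (P := fun ω : V → ZMod M => ∃ v ∈ w :: l, P v ω)
      (Q := fun ω => P w ω ∨ ∃ v ∈ l, P v ω) fun ω hω => by
        obtain ⟨v, hv, hP⟩ := hω
        rcases List.mem_cons.1 hv with e | e
        · exact Or.inl (e ▸ hP)
        · exact Or.inr ⟨v, e, hP⟩
    have h4 := cnt_or (P w) (fun ω => ∃ v ∈ l, P v ω) _ _ h2 h1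
    rw [List.length_cons]
    push_cast
    linarith

lemma cnt_ex {ι : Type} (T : Finset ι) (P : ι → (V → ZMod M) → Prop) (b : ℝ)
    (h : ∀ i ∈ T, cnt (P i) ≤ b) :
    cnt (fun ω => ∃ i ∈ T, P i ω) ≤ T.card * b := by
  have h5 := Finset.sum_le_sum h
  rw [Finset.sum_const, nsmul_eq_mul] at h5
  refine le_trans ?_ h5
  unfold cnt
  rw [← Nat.cast_sum, Nat.cast_le]
  refine (Finset.card_le_card ?_).trans Finset.card_biUnion_le
  intro ω hω
  obtain ⟨i, hi, hP⟩ := mem_ev.1 hω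
  exact Finset.mem_biUnion.2 ⟨i, hi, mem_ev.2 hP⟩

lemma Sml.cnt {F : (V → ZMod M) → ℝ} {lam : ℝ} (h : Sml k F lam) :
    cnt (fun ω => lam ≤ |F ω|) ≤ (k : ℝ) ^ (-46 : ℝ) * (M : ℝ) ^ Fintype.card V := by
  unfold Sml at h
  unfold Pool.Agent.C4W.cnt ev
  refine le_trans (le_of_eq ?_) h
  congr 2

lemma list_sum_abs (l : List Wd) (F : Wd → ℝ) (b : ℝ) (h : ∀ w ∈ l, |F w| ≤ b) :
    |(l.map F).sum| ≤ l.length * b := by
  induction l with
  | nil => simp
  | cons w l ih =>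
    have h1 := ih fun v hv => h v (by simp [hv])
    have h2 := h w (by simp)
    rw [List.map_cons, List.sum_cons, List.length_cons]
    push_cast
    refine (abs_add_le _ _).trans ?_
    linarith

/-- all fields at `(x, a)` are small -/
structure Fine (k q : ℕ) (D : Dat V M) (h : V → ZMod M) (x : V) : Prop where
  own : ∀ a, ∀ y ∈ outN D.O x, ∀ w ∈ Wown, |fld w D h x a {y}| < lam1 k
  T : ∀ a, ∀ y ∈ outN D.O x, |opT gE D h x a {y}| < lam1 k
  Tw : ∀ a, ∀ y ∈ outN D.O x, |opTw q g2 D h x a {y}| < lam1 k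
  W5 : ∀ a, ∀ w ∈ W5, |fld w D h x a ∅| < lam2 k
  P : ∀ a, ∀ w ∈ W3.map Wd.P ++ W4.map Wd.P, |fld w D h x a ∅| < lam2 k
  W : ∀ a, |opW q g2 D h x a ∅| < lam2 k
  Lam : ∀ a, |opLam 1 (opTw q g2) D h x a ∅| < lam2 k
  Ups : ∀ a, |opUps 1 (opTw q g2) D h x a ∅| < lam2 k

omit [NeZero M] in
lemma flx_abs {D : Dat V M} {T0 : ℝ} (hD : Std D 4 T0) (T : Fld V M) (h : V → ZMod M)
    (x y : V) (a i : ZMod M) {b : ℝ} (hb : 0 ≤ b) (h1 : |T D h x a {y}| ≤ b)
    (h2 : |T D h x (a - D.rho) {y}| ≤ b) : |flx 1 T D h x y a i| ≤ 4 * b := by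
  unfold flx
  have h3 : |(D.I.card : ℝ) * D.kap 1 x| ≤ 4 := by
    rw [abs_mul, abs_of_nonneg (by positivity : (0 : ℝ) ≤ D.I.card)]
    exact hD.hkp x 1 (by norm_num)
  rw [abs_mul]
  have h4 : |(if i = D.i2 then T D h x a {y} else if i = D.i1 then
      - T D h x (a - D.rho) {y} else 0)| ≤ b := by
    split_ifs
    · exact h1
    · rw [abs_neg]; exact h2
    · rw [abs_zero]; exact hb
  exact mul_le_mul h3 h4 (abs_nonneg _) (by norm_num)

/-- fine fields give good weights and errors -/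
lemma not_bad (hb : Big k K0) (hp : Par k M s q) {D : Dat V M} (hs : D.s = s)
    (hD : DOk k D) {h : V → ZMod M} {x : V} (hf : Fine k q D h x) : ¬ BadW k q D h x := by
  have hk0 : (0 : ℝ) < k := zero_lt_one.trans hb.one
  have hstd := hD.std hb hp hs
  have hl1 : 0 ≤ lam1 k := by unfold lam1; positivity
  rintro (⟨y, hy, hbad⟩ | hbad)
  · have hy' : y ∈ outN D.O x := mem_outN.2 hy
    have h1 : |(Wown.map fun w => D.kap w.r x * fld w D h x (h x) {y}).sum| ≤
        Wown.length * (4 * lam1 k) := by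
      refine list_sum_abs _ _ _ fun w hw => ?_
      rw [abs_mul]
      exact mul_le_mul (hstd.kp x (Wown_r w hw)) (hf.own (h x) y hy' w hw).le (abs_nonneg _)
        (by norm_num)
    have h2 := flx_abs hstd (opT gE) h x y (h x) (h y - h x) hl1 (hf.T _ y hy').le
      (hf.T _ y hy').le
    have h3 := flx_abs hstd (opTw q g2) h x y (h x) (h y - h x) hl1 (hf.Tw _ y hy').le
      (hf.Tw _ y hy').le
    have h4 : Wown.length = 43 := by decide
    rw [h4] at h1
    have h5 : |half q D h x y| ≤ 180 * lam1 k := by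
      unfold half
      refine (abs_add_le _ _).trans ?_
      have := (abs_add_le (Wown.map fun w => D.kap w.r x * fld w D h x (h x) {y}).sum
        (flx 1 (opT gE) D h x y (h x) (h y - h x)))
      push_cast at h1
      linarith
    have h6 := hb.k01
    unfold lam1 at h5
    linarith
  · have h1 : |sumF W5 D h x (h x) ∅| ≤ W5.length * lam2 k :=
      list_sum_abs _ _ _ fun w hw => (hf.W5 _ w hw).le
    have h2 : |sumF (W3.map Wd.P) D h x (h x) ∅| ≤ (W3.map Wd.P).length * lam2 k :=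
      list_sum_abs _ _ _ fun w hw => (hf.P _ w (List.mem_append.2 (Or.inl hw))).le
    have h3 : |sumF (W4.map Wd.P) D h x (h x) ∅| ≤ (W4.map Wd.P).length * lam2 k :=
      list_sum_abs _ _ _ fun w hw => (hf.P _ w (List.mem_append.2 (Or.inr hw))).le
    have l1 : W5.length = 48 := by decide
    have l2 : (W3.map Wd.P).length = 12 := by decide
    have l3 : (W4.map Wd.P).length = 24 := by decide
    rw [l1] at h1
    rw [l2] at h2
    rw [l3] at h3
    have h4 := (hf.W (h x)).le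
    have h5 := (hf.Lam (h x)).le
    have h6 := (hf.Ups (h x)).le
    have h7 : |err q D h x - fld (.P .f) D h x (h x) ∅| ≤ 87 * lam2 k := by
      have e : err q D h x - fld (.P .f) D h x (h x) ∅ =
          sumF W5 D h x (h x) ∅ + sumF (W3.map Wd.P) D h x (h x) ∅ +
          sumF (W4.map Wd.P) D h x (h x) ∅ + opW q g2 D h x (h x) ∅ +
          opLam 1 (opTw q g2) D h x (h x) ∅ + opUps 1 (opTw q g2) D h x (h x) ∅ := by
        unfold err; ring
      rw [e]
      push_cast at h1 h2 h3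
      have t1 := abs_add_le (sumF W5 D h x (h x) ∅) (sumF (W3.map Wd.P) D h x (h x) ∅)
      have t2 := abs_add_le (sumF W5 D h x (h x) ∅ + sumF (W3.map Wd.P) D h x (h x) ∅)
        (sumF (W4.map Wd.P) D h x (h x) ∅)
      have t3 := abs_add_le (sumF W5 D h x (h x) ∅ + sumF (W3.map Wd.P) D h x (h x) ∅ +
        sumF (W4.map Wd.P) D h x (h x) ∅) (opW q g2 D h x (h x) ∅)
      have t4 := abs_add_le (sumF W5 D h x (h x) ∅ + sumF (W3.map Wd.P) D h x (h x) ∅ +
        sumF (W4.map Wd.P) D h x (h x) ∅ + opW q g2 D h x (h x) ∅)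
        (opLam 1 (opTw q g2) D h x (h x) ∅)
      have t5 := abs_add_le (sumF W5 D h x (h x) ∅ + sumF (W3.map Wd.P) D h x (h x) ∅ +
        sumF (W4.map Wd.P) D h x (h x) ∅ + opW q g2 D h x (h x) ∅ +
        opLam 1 (opTw q g2) D h x (h x) ∅) (opUps 1 (opTw q g2) D h x (h x) ∅)
      linarith
    have h8 : 87 * lam2 k ≤ (k : ℝ) ^ (-1.019 : ℝ) := by
      have e : (k : ℝ) ^ (-1.019 : ℝ) = (k : ℝ) ^ (0.0005 : ℝ) * (k : ℝ) ^ (-1.0195 : ℝ) := by
        rw [← Real.rpow_add hk0]; norm_num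
      rw [e]
      unfold lam2
      have := hb.k05
      gcongr
    linarith

/-- bad events of one arc -/
def EA (k q : ℕ) (D : Dat V M) (x : V) (a : ZMod M) (y : V) (h : V → ZMod M) : Prop :=
  ((∃ w ∈ Wown, lam1 k ≤ |fld w D h x a {y}|) ∨ lam1 k ≤ |opT gE D h x a {y}|) ∨
    lam1 k ≤ |opTw q g2 D h x a {y}|

/-- bad events of one vertex -/
def EB (k q : ℕ) (D : Dat V M) (x : V) (a : ZMod M) (h : V → ZMod M) : Prop :=
  ((((∃ w ∈ W5, lam2 k ≤ |fld w D h x a ∅|) ∨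
    (∃ w ∈ W3.map Wd.P ++ W4.map Wd.P, lam2 k ≤ |fld w D h x a ∅|)) ∨
    lam2 k ≤ |opW q g2 D h x a ∅|) ∨ lam2 k ≤ |opLam 1 (opTw q g2) D h x a ∅|) ∨
    lam2 k ≤ |opUps 1 (opTw q g2) D h x a ∅|

lemma cnt_EA [Fact M.Prime] (hb : Big k K0) (hp : Par k M s q) {D : Dat V M} (hs : D.s = s)
    (hD : DOk k D) (x : V) (a : ZMod M) (y : V) (hy : y ∈ outN D.O x) :
    cnt (EA k q D x a y) ≤ 45 * ((k : ℝ) ^ (-46 : ℝ) * (M : ℝ) ^ Fintype.card V) := by
  have hA : ({y} : Finset V) ⊆ outN D.O x := Finset.singleton_subset_iff.2 hy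
  have l4 : Wown.length = 43 := by decide
  have h1 := cnt_list Wown (fun w (h : V → ZMod M) => lam1 k ≤ |fld w D h x a {y}|)
    ((k : ℝ) ^ (-46 : ℝ) * (M : ℝ) ^ Fintype.card V)
    (fun w hw => (sml_own hb hp hs hD hw x a _ hA).cnt)
  have h2 := (sml_T hb hp hs hD x a _ hA).cnt
  have h3 := (sml_Tw hb hp hs hD x a _ hA).cnt
  have h4 := cnt_or _ _ _ _ (cnt_or _ _ _ _ h1 h2) h3
  rw [l4] at h4
  refine le_trans h4 (le_of_eq ?_)
  push_cast
  ring

lemma cnt_EB [Fact M.Prime] (hb : Big k K0) (hp : Par k M s q) {D : Dat V M} (hs : D.s = s)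
    (hD : DOk k D) (x : V) (a : ZMod M) :
    cnt (EB k q D x a) ≤ 87 * ((k : ℝ) ^ (-46 : ℝ) * (M : ℝ) ^ Fintype.card V) := by
  have hA : (∅ : Finset V) ⊆ outN D.O x := Finset.empty_subset _
  have l4 : W5.length = 48 := by decide
  have l5 : (W3.map Wd.P ++ W4.map Wd.P).length = 36 := by decide
  have h1 := cnt_list W5 (fun w (h : V → ZMod M) => lam2 k ≤ |fld w D h x a ∅|)
    ((k : ℝ) ^ (-46 : ℝ) * (M : ℝ) ^ Fintype.card V)
    (fun w hw => (sml_W5 hb hp hs hD hw x a _ hA).cnt)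
  have h2 := cnt_list (W3.map Wd.P ++ W4.map Wd.P)
    (fun w (h : V → ZMod M) => lam2 k ≤ |fld w D h x a ∅|)
    ((k : ℝ) ^ (-46 : ℝ) * (M : ℝ) ^ Fintype.card V)
    (fun w hw => (sml_P hb hp hs hD hw x a _ hA).cnt)
  have h3 := (sml_W hb hp hs hD x a _ hA).cnt
  have h4 := (sml_Lam hb hp hs hD x a _ hA).cnt
  have h5 := (sml_Ups hb hp hs hD x a _ hA).cnt
  have h6 := cnt_or _ _ _ _ (cnt_or _ _ _ _ (cnt_or _ _ _ _ (cnt_or _ _ _ _ h1 h2) h3) h4) h5
  rw [l4, l5] at h6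
  refine le_trans h6 (le_of_eq ?_)
  push_cast
  ring

omit [NeZero M] in
/-- without bad events all fields are small -/
lemma fine_of {D : Dat V M} {h : V → ZMod M} {x : V}
    (hc : ∀ a, (∀ y ∈ outN D.O x, ¬ EA k q D x a y h) ∧ ¬ EB k q D x a h) :
    Fine k q D h x := by
  unfold EA EB at hc
  simp only [not_or, not_exists, not_and, not_le] at hc
  exact {
    own := fun a y hy w hw => ((hc a).1 y hy).1.1 w hw
    T := fun a y hy => ((hc a).1 y hy).1.2
    Tw := fun a y hy => ((hc a).1 y hy).2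
    W5 := fun a w hw => (hc a).2.1.1.1.1 w hw
    P := fun a w hw => (hc a).2.1.1.1.2 w hw
    W := fun a => (hc a).2.1.1.2
    Lam := fun a => (hc a).2.1.2
    Ups := fun a => (hc a).2.2 }

/-- SIZ -/
theorem siz : SIZStmt := by
  obtain ⟨k0, hk0⟩ := exists_big K0
  refine ⟨k0, fun k M s q _ _ hk hp V _ D hs hD x => ?_⟩
  have hb := hk0 k hk
  have hkp : (0 : ℝ) < k := zero_lt_one.trans hb.one
  have hk1 := hb.one
  have hMk : ((Finset.univ : Finset (ZMod M)).card : ℝ) ≤ k := by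
    rw [Finset.card_univ, ZMod.card]
    calc (M : ℝ) ≤ (k : ℝ) ^ (0.54 : ℝ) := hp.Mhi
      _ ≤ (k : ℝ) ^ (1 : ℝ) := Real.rpow_le_rpow_of_exponent_le hb.one.le (by norm_num)
      _ = k := Real.rpow_one _
  have hO : ((outN D.O x).card : ℝ) ≤ 2 * k := (dO_hi hb hp.shi (hs ▸ hD.dO) x).1
  have h1 : cnt (fun h : V → ZMod M => ∃ a ∈ (Finset.univ : Finset (ZMod M)),
      (∃ y ∈ outN D.O x, EA k q D x a y h) ∨ EB k q D x a h) ≤
      (Finset.univ : Finset (ZMod M)).card * ((outN D.O x).card *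
        (45 * ((k : ℝ) ^ (-46 : ℝ) * (M : ℝ) ^ Fintype.card V)) +
        87 * ((k : ℝ) ^ (-46 : ℝ) * (M : ℝ) ^ Fintype.card V)) :=
    cnt_ex _ _ _ fun a _ => cnt_or _ _ _ _
      (cnt_ex _ _ _ fun y hy => cnt_EA hb hp hs hD x a y hy) (cnt_EB hb hp hs hD x a)
  have h2 : cnt (fun h : V → ZMod M => BadW k q D h x) ≤
      cnt (fun h : V → ZMod M => ∃ a ∈ (Finset.univ : Finset (ZMod M)),
      (∃ y ∈ outN D.O x, EA k q D x a y h) ∨ EB k q D x a h) := by
    refine cnt_mono fun h hh => ?_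
    by_contra hc
    refine not_bad hb hp hs hD (fine_of fun a => ⟨fun y hy he => ?_, fun he => ?_⟩) hh
    · exact hc ⟨a, Finset.mem_univ _, Or.inl ⟨y, hy, he⟩⟩
    · exact hc ⟨a, Finset.mem_univ _, Or.inr he⟩
  have h3 := h2.trans h1
  have hb0 : 0 ≤ (k : ℝ) ^ (-46 : ℝ) * (M : ℝ) ^ Fintype.card V := by positivity
  have h4 : cnt (fun h : V → ZMod M => BadW k q D h x) ≤
      (k : ℝ) ^ (-40 : ℝ) * (M : ℝ) ^ Fintype.card V := by
    refine h3.trans ?_
    generalize hbd : (k : ℝ) ^ (-46 : ℝ) * (M : ℝ) ^ Fintype.card V = b at hb0 ⊢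
    calc ((Finset.univ : Finset (ZMod M)).card : ℝ) * ((outN D.O x).card * (45 * b) + 87 * b)
        ≤ k * (2 * k * (45 * b) + 87 * b) := by gcongr
      _ = (90 * (k : ℝ) ^ 2 + 87 * k) * b := by ring
      _ ≤ (177 * (k : ℝ) ^ 2) * b := by
          refine mul_le_mul_of_nonneg_right ?_ hb0
          nlinarith
      _ ≤ ((k : ℝ) ^ 4 * (k : ℝ) ^ 2) * b := by
          have := hb.k4
          gcongr
      _ = (k : ℝ) ^ (-40 : ℝ) * (M : ℝ) ^ Fintype.card V := by
          rw [← hbd, ← mul_assoc, ← pow_add]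
          congr 1
          rw [← Real.rpow_natCast, ← Real.rpow_add hkp]
          norm_num
  unfold cnt ev at h4
  refine le_trans (le_of_eq ?_) h4
  congr 2

end Pool.Agent.C4W
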