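import Pool.Agent.Helper53_C4W.Defs

/-!
# Statements of the deterministic modules of the base (PSH FLO KOE HST PRT CWH LOC)

Each `XStmt` is to be proved as `theorem x : XStmt` (HST from PSH, FLO, KOE).
-/

set_option autoImplicit false

open scoped BigOperators Classical

noncomputable section

namespace Pool.Agent.C4W

/-- out-degree -/
def od {V : Type} (F : Finset (V × V)) (x : V) : ℕ := (F.filter fun e => e.1 = x).card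
/-- in-degree -/
def idg {V : Type} (F : Finset (V × V)) (y : V) : ℕ := (F.filter fun e => e.2 = y).card
/-- weighted out-degree -/
def ow {V : Type} (F : Finset (V × V)) (w : V × V → ℝ) (x : V) : ℝ :=
  ∑ e ∈ F.filter (fun e => e.1 = x), w e
/-- weighted in-degree -/
def iw {V : Type} (F : Finset (V × V)) (w : V × V → ℝ) (y : V) : ℝ :=
  ∑ e ∈ F.filter (fun e => e.2 = y), w e
/-- paths `x → y ← u` with `u ∈ Z`, `u ≠ x` -/
def m2p {V : Type} [Fintype V] (F : Finset (V × V)) (Z : Finset V) (x : V) : ℕ :=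
  (Finset.univ.filter fun p : V × V =>
    (x, p.1) ∈ F ∧ (p.2, p.1) ∈ F ∧ p.2 ∈ Z ∧ p.2 ≠ x).card
/-- paths `y ← x → v` with `v ∈ Z`, `v ≠ y` -/
def m2m {V : Type} [Fintype V] (F : Finset (V × V)) (Z : Finset V) (y : V) : ℕ :=
  (Finset.univ.filter fun p : V × V =>
    (p.1, y) ∈ F ∧ (p.1, p.2) ∈ F ∧ p.2 ∈ Z ∧ p.2 ≠ y).card

/-- the data of a host before rounding: forced arcs `HR`, optional arcs `HO`, weights `w`,
number of classes `t`, special rows `Zp`, special columns `Zm` -/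
structure HostOk {V : Type} [Fintype V] (HR HO : Finset (V × V)) (w : V × V → ℝ) (t : ℕ)
    (Zp Zm : Finset V) (z D K : ℝ) : Prop where
  hz : 0 < z
  hD : 1 ≤ D
  hK : K ≤ D
  hw : ∀ e ∈ HO, 1 / 4 ≤ w e ∧ w e ≤ 3 / 4
  row : ∀ x, |(od HR x : ℝ) + ow HO w x - (t - if x ∈ Zp then 1 / 2 else 0)| ≤ z / 1000
  col : ∀ y, |(idg HR y : ℝ) + iw HO w y - (t - if y ∈ Zm then 1 / 2 else 0)| ≤ z / 1000
  hz1 : z ≤ 1
  dp : ∀ x, (od HO x : ℝ) ≤ 2 * D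
  dm : ∀ y, (idg HO y : ℝ) ≤ 2 * D
  mp : ∀ x, 9 / 10 * (D ^ 2 * z) ≤ m2p HO Zp x
  mm : ∀ y, 9 / 10 * (D ^ 2 * z) ≤ m2m HO Zm y
  kp : ∀ y, ((HO.filter fun e => e.2 = y ∧ e.1 ∈ Zp).card : ℝ) ≤ K
  km : ∀ x, ((HO.filter fun e => e.1 = x ∧ e.2 ∈ Zm).card : ℝ) ≤ K

/-- PSH: exact fractional rows and columns. For `x ∉ Zp` with row error `e` and every path
`x → y ← u` (`u ∈ Zp`, `u ≠ x`): `w(x,y) -= e / m2p x`, `w(u,y) += e / m2p x`. Mirror image for the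
columns. An arc changes by at most `2 (K + 2 D) / (900 D^2)`, a row in `Zp` by at most
`4 D^2 / (900 D^2)`. -/
def PSHStmt : Prop :=
  ∀ (V : Type) [Fintype V] (HR HO : Finset (V × V)) (w : V × V → ℝ) (t : ℕ)
    (Zp Zm : Finset V) (z D K : ℝ), HostOk HR HO w t Zp Zm z D K →
    ∃ w' : V × V → ℝ, (∀ e ∈ HO, 0 ≤ w' e ∧ w' e ≤ 1) ∧
      (∀ x, x ∉ Zp → (od HR x : ℝ) + ow HO w' x = t) ∧
      (∀ x, x ∈ Zp → |(od HR x : ℝ) + ow HO w' x - (t - 1 / 2)| ≤ 1 / 4) ∧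
      (∀ y, y ∉ Zm → (idg HR y : ℝ) + iw HO w' y = t) ∧
      (∀ y, y ∈ Zm → |(idg HR y : ℝ) + iw HO w' y - (t - 1 / 2)| ≤ 1 / 4)

/-- FLO: rounding of the weights of a bipartite graph. -/
def FLOStmt : Prop :=
  ∀ (V : Type) [Fintype V] (F : Finset (V × V)) (w : V × V → ℝ),
    (∀ e ∈ F, 0 ≤ w e ∧ w e ≤ 1) →
    ∃ G ⊆ F, (∀ x, ⌊ow F w x⌋ ≤ (od G x : ℤ) ∧ (od G x : ℤ) ≤ ⌈ow F w x⌉) ∧
      ∀ y, ⌊iw F w y⌋ ≤ (idg G y : ℤ) ∧ (idg G y : ℤ) ≤ ⌈iw F w y⌉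

/-- KOE: Koenig's theorem for digraphs. -/
def KOEStmt : Prop :=
  ∀ (V : Type) [Fintype V] (F : Finset (V × V)) (t : ℕ), (∀ x, od F x ≤ t) →
    (∀ y, idg F y ≤ t) → ∃ c : V × V → ℕ, (∀ e ∈ F, c e < t) ∧
      ∀ e ∈ F, ∀ e' ∈ F, c e = c e' → (e.1 = e'.1 → e = e') ∧ (e.2 = e'.2 → e = e')

/-- HST: the classes of one host (from PSH, FLO, KOE). -/
def HSTStmt : Prop :=
  ∀ (V : Type) [Fintype V] (HR HO : Finset (V × V)) (w : V × V → ℝ) (t : ℕ)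
    (Zp Zm : Finset V) (z D K : ℝ), Disjoint HR HO → HostOk HR HO w t Zp Zm z D K →
    ∃ (G : Finset (V × V)) (c : V × V → ℕ), HR ⊆ G ∧ G ⊆ HR ∪ HO ∧
      (∀ x, x ∉ Zp → od G x = t) ∧ (∀ x, od G x = t ∨ od G x + 1 = t) ∧
      (∀ y, y ∉ Zm → idg G y = t) ∧ (∀ y, idg G y = t ∨ idg G y + 1 = t) ∧
      (∀ e ∈ G, c e < t) ∧
      ∀ e ∈ G, ∀ e' ∈ G, c e = c e' → (e.1 = e'.1 → e = e') ∧ (e.2 = e'.2 → e = e')

/-- PRT: the blocks. `A` maximal with `A ∩ 2A = ∅` inside the nonzero residues; blocks `{a, 2a}`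
(`a ∈ A`, `a/2 ∈ A ∪ 2A`) and `{a/2, a, 2a}` (`a/2` in neither). `B` = set of the smallest
elements `d` of the blocks. -/
def PRTStmt : Prop :=
  ∀ (M : ℕ) [Fact M.Prime], 5 ≤ M → ∃ (B : Finset (ZMod M)) (I : ZMod M → Finset (ZMod M)),
    (∀ d ∈ B, d ≠ 0 ∧ (I d = {d, 2 * d} ∨ I d = {d, 2 * d, 4 * d})) ∧
    (∀ d ∈ B, ∀ e ∈ B, d ≠ e → Disjoint (I d) (I e)) ∧
    ∀ a, a ≠ 0 → ∃ d ∈ B, a ∈ I d

/-- CWH: closed walks in a host are long. -/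
def CWHStmt : Prop :=
  ∀ (V : Type) (M : ℕ) [Fact M.Prime] (h : V → ZMod M) (d : ZMod M), d ≠ 0 →
    ∀ (σ : ℕ → V) (n : ℕ), 0 < n → σ n = σ 0 →
      (∀ i < n, h (σ (i + 1)) - h (σ i) = d ∨ h (σ (i + 1)) - h (σ i) = 2 * d ∨
        h (σ (i + 1)) - h (σ i) = 4 * d) → M ≤ 4 * n

/-- two data agree at the vertex `x` -/
structure Agree {V : Type} [Fintype V] {M : ℕ} (D D' : Dat V M) (h h' : V → ZMod M) (x : V) :
    Prop where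
  s : D.s = D'.s
  I : D.I = D'.I
  i1 : D.i1 = D'.i1
  i2 : D.i2 = D'.i2
  R : ∀ y, ((x, y) ∈ D.R ↔ (x, y) ∈ D'.R) ∧ ((y, x) ∈ D.R ↔ (y, x) ∈ D'.R)
  O : ∀ y, ((x, y) ∈ D.O ↔ (x, y) ∈ D'.O) ∧ ((y, x) ∈ D.O ↔ (y, x) ∈ D'.O)
  β : ∀ y, D.β x y = D'.β x y ∧ D.β y x = D'.β y x
  f : D.fp x = D'.fp x ∧ D.fm x = D'.fm x
  h : h x = h' x

/-- two data agree within distance `n` of `x` (distance in `R ∪ O`, both directions) -/
def AgreeN {V : Type} [Fintype V] {M : ℕ} (D D' : Dat V M) (h h' : V → ZMod M) :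
    ℕ → V → Prop
  | 0, x => Agree D D' h h' x
  | n + 1, x => Agree D D' h h' x ∧ ∀ y, ((x, y) ∈ D.R ∨ (y, x) ∈ D.R ∨ (x, y) ∈ D.O ∨
      (y, x) ∈ D.O) → AgreeN D D' h h' n y

/-- LOC: the weights and the errors depend on the data near `x` only. -/
def LOCStmt : Prop :=
  ∀ (V : Type) [Fintype V] (M q : ℕ) (D D' : Dat V M) (h h' : V → ZMod M) (x : V),
    AgreeN D D' h h' 8 x → err q D h x = err q D' h' x ∧
      ∀ y, (x, y) ∈ D.O → half q D h x y = half q D' h' x y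

end Pool.Agent.C4W
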