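import Pool.Agent.Helper53_C4W.Stm
import Pool.Agent.C4M.Stmts

/-!
# Statements of the probabilistic modules of the base

CHF MRG HDG LFT ZRO SIZ ZCH LLA ASM.  All probabilities are counted over uniform labellings.
-/

set_option autoImplicit false

open scoped BigOperators Classical

noncomputable section

namespace Pool.Agent.C4W

open Pool.Agent.C4M (IsNbd)

/-! ## CHF: conditional Chernoff bounds -/

/-- number of `v ∉ W` whose label lies in the target set -/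
def cntW {V α : Type} [Fintype V] (W : Finset V) (B : (V → α) → V → Finset α) (ω : V → α) : ℕ :=
  (Finset.univ.filter fun v => v ∉ W ∧ ω v ∈ B ω v).card

/-- its conditional mean, given the labels on `W` -/
def muW {V α : Type} [Fintype V] [Fintype α] (W : Finset V) (B : (V → α) → V → Finset α)
    (ω : V → α) : ℝ :=
  ∑ v ∈ Finset.univ.filter (fun v => v ∉ W), ((B ω v).card : ℝ) / Fintype.card α

/-- CHF. The target sets depend on the labels in `W` only; `P` is any set of labellings.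
(Condition on the labels in `W`; then mgf_cnt of Helper13_Conc/Basic.lean.) -/
def CHFStmt : Prop :=
  ∀ (V α : Type) [Fintype V] [Fintype α] [Nonempty α] (W : Finset V)
    (B : (V → α) → V → Finset α)
    (_ : ∀ ω ω' : V → α, (∀ v ∈ W, ω v = ω' v) → B ω = B ω') (P : Finset (V → α)),
    (∀ t : ℝ, 0 ≤ t → (∀ ω ∈ P, 2 * muW W B ω + t ≤ cntW W B ω) →
      (P.card : ℝ) ≤ Real.exp (-t) * (Fintype.card α : ℝ) ^ Fintype.card V) ∧
    ∀ m t : ℝ, 0 < m → 0 ≤ t → t ≤ m →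
      (∀ ω ∈ P, muW W B ω ≤ m ∧ t ≤ |(cntW W B ω : ℝ) - muW W B ω|) →
      (P.card : ℝ) ≤ 2 * Real.exp (-(t ^ 2 / (4 * m))) * (Fintype.card α : ℝ) ^ Fintype.card V

/-! ## MRG: one coordinate of the labels -/

/-- replace the `g`-th labelling -/
def repl {V α : Type} {G : ℕ} (g : Fin G) (H : V → Fin G → α) (h : V → α) : V → Fin G → α :=
  fun v i => if i = g then h v else H v i

/-- MRG -/
def MRGStmt : Prop :=
  ∀ (V α : Type) [Fintype V] [Fintype α] [Nonempty α] (G : ℕ) (g : Fin G)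
    (P : Finset (V → Fin G → α)) (δ : ℝ), 0 ≤ δ →
    (∀ H : V → Fin G → α, ((Finset.univ.filter fun h : V → α => repl g H h ∈ P).card : ℝ) ≤
      δ * (Fintype.card α : ℝ) ^ Fintype.card V) →
    (P.card : ℝ) ≤ δ * Fintype.card (V → Fin G → α)

/-! ## parameters -/

/-- the parameters: `k` bounds all degrees, `M` labels, `s` nominal optional degree, `q` window -/
structure Par (k M s q : ℕ) : Prop where
  pr : M.Prime
  Mlo : (k : ℝ) ^ (0.53 : ℝ) ≤ M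
  Mhi : (M : ℝ) ≤ (k : ℝ) ^ (0.54 : ℝ)
  slo : (k : ℝ) ^ (1 - 1 / 400 : ℝ) ≤ s
  shi : s ≤ k
  qlo : (k : ℝ) ^ (0.1525 : ℝ) ≤ q
  qhi : (q : ℝ) ≤ (k : ℝ) ^ (0.1535 : ℝ)

/-- `ε = k ^ (-c) / M` -/
def eps (c : ℝ) (k M : ℕ) : ℝ := (k : ℝ) ^ (-c) / M

/-- density of special vertices in a host with `i0` steps -/
def zet (c : ℝ) (k M i0 : ℕ) : ℝ := 2 * i0 * eps c k M

/-- host degree -/
def Dg (M s i0 : ℕ) : ℝ := i0 * s / M

/-- bound for the number of special host neighbours -/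
def KK (k : ℕ) : ℝ := (k : ℝ) ^ (0.01 : ℝ)

/-- optional arcs of a host -/
def hst {V : Type} [Fintype V] {M : ℕ} (O : Set (V × V)) (I : Finset (ZMod M))
    (h : V → ZMod M) : Finset (V × V) :=
  Finset.univ.filter fun e => e ∈ O ∧ h e.2 - h e.1 ∈ I

/-- in-neighbours -/
def inN {V : Type} [Fintype V] (A : Set (V × V)) (x : V) : Finset V :=
  Finset.univ.filter fun y => (y, x) ∈ A

/-- nearly regular -/
def NReg {V : Type} [Fintype V] (k s : ℕ) (O : Set (V × V)) : Prop :=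
  ∀ x, |((outN O x).card : ℝ) - s| ≤ s * (k : ℝ) ^ (-0.4 : ℝ) ∧
    |((inN O x).card : ℝ) - s| ≤ s * (k : ℝ) ^ (-0.4 : ℝ)

/-- density of the special sets -/
def Zd {V : Type} [Fintype V] (s : ℕ) (O : Set (V × V)) (Zp Zm : Finset V) (z : ℝ) : Prop :=
  ∀ x, |(((outN O x) ∩ Zm).card : ℝ) - z * (outN O x).card| ≤ z * s / 8000 ∧
    |(((inN O x) ∩ Zp).card : ℝ) - z * (inN O x).card| ≤ z * s / 8000

/-! ## HDG: host degrees and 2-paths -/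

structure HGood {V : Type} [Fintype V] (c : ℝ) (k M s : ℕ) (O : Set (V × V)) (I : Finset (ZMod M))
    (Zp Zm : Finset V) (h : V → ZMod M) (x : V) : Prop where
  dp : (od (hst O I h) x : ℝ) ≤ 2 * Dg M s I.card
  dm : (idg (hst O I h) x : ℝ) ≤ 2 * Dg M s I.card
  mp : 9 / 10 * (Dg M s I.card ^ 2 * zet c k M I.card) ≤ m2p (hst O I h) Zp x
  mm : 9 / 10 * (Dg M s I.card ^ 2 * zet c k M I.card) ≤ m2m (hst O I h) Zm x
  kp : (((hst O I h).filter fun e => e.2 = x ∧ e.1 ∈ Zp).card : ℝ) ≤ KK k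
  km : (((hst O I h).filter fun e => e.1 = x ∧ e.2 ∈ Zm).card : ℝ) ≤ KK k

/-- HDG (from CHF). `W = N[x]` for the 2-paths, `W = {x}` for the rest. -/
def HDGStmt : Prop :=
  ∀ c : ℝ, 0 < c → c ≤ 0.005 → ∃ k0 : ℕ, ∀ (k M s q : ℕ) [NeZero M] [Fact M.Prime], k0 ≤ k → Par k M s q →
    ∀ (V : Type) [Fintype V] (N : V → Finset V), IsNbd N →
    ∀ O : Set (V × V), (∀ p ∈ O, p.2 ∈ N p.1) → NReg k s O →
    ∀ I : Finset (ZMod M), 2 ≤ I.card → I.card ≤ 3 → ∀ Zp Zm : Finset V,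
    Zd s O Zp Zm (zet c k M I.card) → ∀ x,
    ((Finset.univ.filter fun h : V → ZMod M => ¬ HGood c k M s O I Zp Zm h x).card : ℝ) ≤
      (k : ℝ) ^ (-40 : ℝ) * (M : ℝ) ^ Fintype.card V

/-! ## LFT: the left over arcs -/

/-- arcs of `R` whose labels agree in all groups before `g` -/
def Rg {V : Type} {M : ℕ} (R : Set (V × V)) (H : V → Fin 40 → ZMod M) (g : ℕ) : Set (V × V) :=
  {p | p ∈ R ∧ ∀ i : Fin 40, i.1 < g → H p.1 i = H p.2 i}

/-- fluctuation of the left over out-degree in group `g` -/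
def flp {V : Type} [Fintype V] {M : ℕ} (R : Set (V × V)) (H : V → Fin 40 → ZMod M) (g : ℕ)
    (x : V) : ℝ :=
  (outN (Rg R H (g + 1)) x).card - ((outN (Rg R H g) x).card : ℝ) / M

/-- fluctuation of the left over in-degree in group `g` -/
def flm {V : Type} [Fintype V] {M : ℕ} (R : Set (V × V)) (H : V → Fin 40 → ZMod M) (g : ℕ)
    (y : V) : ℝ :=
  (inN (Rg R H (g + 1)) y).card - ((inN (Rg R H g) y).card : ℝ) / M

/-- good left over in group `g` (`O` = optional arcs of the group `g + 1`) -/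
structure LGood {V : Type} [Fintype V] {M : ℕ} (k s : ℕ) (R O : Set (V × V))
    (H : V → Fin 40 → ZMod M) (g : ℕ) (x : V) : Prop where
  p1 : |flp R H g x| ≤ (k : ℝ) ^ (0.24 : ℝ)
  m1 : |flm R H g x| ≤ (k : ℝ) ^ (0.24 : ℝ)
  p2 : |∑ y ∈ outN O x, flm R H g y| ≤ s * (k : ℝ) ^ (-0.1 : ℝ)
  m2 : |∑ y ∈ inN O x, flp R H g y| ≤ s * (k : ℝ) ^ (-0.1 : ℝ)

/-- LFT (from CHF, MRG). For `p2`: pairs `(y, u)`, `y ∈ O+(x)`, `u ∈ R_g-(y)`; those with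
`u ∉ N[x]` have different `u`; `u ∈ N[x]` only for `u = x` or the common neighbour of `x`, `y`
(a matching inside `N(x)`). -/
def LFTStmt : Prop :=
  ∃ k0 : ℕ, ∀ (k M s q : ℕ) [NeZero M] [Fact M.Prime], k0 ≤ k → Par k M s q →
    ∀ (V : Type) [Fintype V] (N : V → Finset V), IsNbd N →
    ∀ R O : Set (V × V), (∀ p ∈ R, p.2 ∈ N p.1) → (∀ p ∈ O, p.2 ∈ N p.1) →
    (∀ x, (outN R x).card ≤ k ∧ (inN R x).card ≤ k ∧ (outN O x).card ≤ k ∧
      (inN O x).card ≤ k) → ∀ (g : Fin 40) (x : V),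
    ((Finset.univ.filter fun H : V → Fin 40 → ZMod M => ¬ LGood k s R O H g x).card : ℝ) ≤
      (k : ℝ) ^ (-40 : ℝ) * Fintype.card (V → Fin 40 → ZMod M)

/-- ZRO: no arc of `R` is left over after 40 groups. -/
def ZROStmt : Prop :=
  ∃ k0 : ℕ, ∀ (k M s q : ℕ) [NeZero M] [Fact M.Prime], k0 ≤ k → Par k M s q →
    ∀ (V : Type) [Fintype V] (R : Set (V × V)), (∀ p ∈ R, p.1 ≠ p.2) → ∀ x,
    (outN R x).card ≤ k →
    ((Finset.univ.filter fun H : V → Fin 40 → ZMod M =>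
      (outN (Rg R H 40) x).Nonempty).card : ℝ) ≤
      (k : ℝ) ^ (-20 : ℝ) * Fintype.card (V → Fin 40 → ZMod M)

/-! ## SIZ: weights and errors of one host -/

/-- all neighbours -/
def Nb {V : Type} [Fintype V] {M : ℕ} (D : Dat V M) (x : V) : Finset V :=
  Finset.univ.filter fun y => (x, y) ∈ D.R ∨ (y, x) ∈ D.R ∨ (x, y) ∈ D.O ∨ (y, x) ∈ D.O

structure DOk {V : Type} [Fintype V] {M : ℕ} (k : ℕ) (D : Dat V M) : Prop where
  nbd : IsNbd (Nb D)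
  dR : ∀ x, (outN D.R x).card ≤ k ∧ (inN D.R x).card ≤ k
  dO : NReg k D.s D.O
  disj : Disjoint D.R D.O
  I1 : D.i1 ∈ D.I
  I2 : D.i2 ∈ D.I
  I12 : D.i1 ≠ D.i2
  I3 : D.I.card ≤ 3
  β : ∀ x y, 3 / 10 ≤ D.β x y ∧ D.β x y ≤ 7 / 10
  fp : ∀ x, |D.fp x| ≤ M
  fm : ∀ x, |D.fm x| ≤ M

/-- bad weights or errors at `x` -/
def BadW {V : Type} [Fintype V] {M : ℕ} (k q : ℕ) (D : Dat V M) (h : V → ZMod M) (x : V) :
    Prop :=
  (∃ y, (x, y) ∈ D.O ∧ 1 / 50 < |half q D h x y|) ∨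
    (k : ℝ) ^ (-1.019 : ℝ) < |err q D h x - fld (.P .f) D h x (h x) ∅|

/-- SIZ (helper53) -/
def SIZStmt : Prop :=
  ∃ k0 : ℕ, ∀ (k M s q : ℕ) [NeZero M] [Fact M.Prime], k0 ≤ k → Par k M s q →
    ∀ (V : Type) [Fintype V] (D : Dat V M), D.s = s → DOk k D → ∀ x,
    ((Finset.univ.filter fun h : V → ZMod M => BadW k q D h x).card : ℝ) ≤
      (k : ℝ) ^ (-40 : ℝ) * (M : ℝ) ^ Fintype.card V

/-! ## the base -/

/-- input of the base -/
structure BIn (V : Type) (M : ℕ) where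
  R : Set (V × V)
  O : Fin 40 → Set (V × V)
  β : Fin 40 → V → V → ℝ
  m : Fin 40 → ℕ
  B : Finset (ZMod M)
  I : ZMod M → Finset (ZMod M)
  Zp : Fin 40 → ZMod M → Finset V
  Zm : Fin 40 → ZMod M → Finset V

/-- all arcs -/
def BIn.E {V : Type} {M : ℕ} (X : BIn V M) : Set (V × V) := X.R ∪ ⋃ g, X.O g

structure BIn.Ok {V : Type} [Fintype V] {M : ℕ} (c : ℝ) (k s : ℕ) (k' : ℝ) (N : V → Finset V)
    (X : BIn V M) : Prop where
  nbd : IsNbd N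
  sub : ∀ p ∈ X.E, p.2 ∈ N p.1
  deg : ∀ x, (outN X.E x).card ≤ k ∧ (inN X.E x).card ≤ k
  dRO : ∀ g, Disjoint X.R (X.O g)
  dOO : ∀ g g', g ≠ g' → Disjoint (X.O g) (X.O g')
  reg : ∀ g, NReg k s (X.O g)
  β : ∀ g x y, 3 / 10 ≤ X.β g x y ∧ X.β g x y ≤ 7 / 10
  r0 : ∀ x, |((outN X.R x).card : ℝ) - k'| ≤ (k : ℝ) ^ (0.52 : ℝ) ∧
    |((inN X.R x).card : ℝ) - k'| ≤ (k : ℝ) ^ (0.52 : ℝ)
  row0 : ∀ x, |((outN X.R x).card : ℝ) + ∑ y ∈ outN (X.O 0) x, X.β 0 x y -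
    M * (X.m 0 - eps c k M)| ≤ (k : ℝ) ^ (-(2 * c))
  col0 : ∀ y, |((inN X.R y).card : ℝ) + ∑ x ∈ inN (X.O 0) y, X.β 0 x y -
    M * (X.m 0 - eps c k M)| ≤ (k : ℝ) ^ (-(2 * c))
  row : ∀ g : Fin 40, g ≠ 0 → ∀ x, |k' / (M : ℝ) ^ (g : ℕ) + ∑ y ∈ outN (X.O g) x, X.β g x y -
    M * (X.m g - eps c k M)| ≤ (k : ℝ) ^ (-(2 * c))
  col : ∀ g : Fin 40, g ≠ 0 → ∀ y, |k' / (M : ℝ) ^ (g : ℕ) + ∑ x ∈ inN (X.O g) y, X.β g x y -
    M * (X.m g - eps c k M)| ≤ (k : ℝ) ^ (-(2 * c))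
  B0 : ∀ d ∈ X.B, d ≠ 0 ∧ (X.I d = {d, 2 * d} ∨ X.I d = {d, 2 * d, 4 * d})
  Bd : ∀ d ∈ X.B, ∀ e ∈ X.B, d ≠ e → Disjoint (X.I d) (X.I e)
  Bc : ∀ a, a ≠ 0 → ∃ d ∈ X.B, a ∈ X.I d
  Z : ∀ g, ∀ d ∈ X.B, Zd s (X.O g) (X.Zp g d) (X.Zm g d) (zet c k M (X.I d).card)

/-- truncation -/
def trunc (M : ℕ) (t : ℝ) : ℝ := max (-M) (min M t)

/-- the label free field of the host `(g, d)`, rows -/
def BIn.fp {V : Type} [Fintype V] {M : ℕ} (X : BIn V M) (H : V → Fin 40 → ZMod M) (g : Fin 40)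
    (d : ZMod M) (x : V) : ℝ :=
  (outN (Rg X.R H g) x).card + ∑ y ∈ outN (X.O g) x, X.β g x y - M * X.m g +
    (if x ∈ X.Zp g d then (M : ℝ) / (2 * (X.I d).card) else 0)

/-- the label free field of the host `(g, d)`, columns -/
def BIn.fm {V : Type} [Fintype V] {M : ℕ} (X : BIn V M) (H : V → Fin 40 → ZMod M) (g : Fin 40)
    (d : ZMod M) (y : V) : ℝ :=
  (inN (Rg X.R H g) y).card + ∑ x ∈ inN (X.O g) y, X.β g x y - M * X.m g +
    (if y ∈ X.Zm g d then (M : ℝ) / (2 * (X.I d).card) else 0)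

/-- the data of the host `(g, d)` -/
def BIn.dat {V : Type} [Fintype V] {M : ℕ} (X : BIn V M) (s : ℕ) (H : V → Fin 40 → ZMod M)
    (g : Fin 40) (d : ZMod M) : Dat V M where
  R := Rg X.R H g
  O := X.O g
  s := s
  β := X.β g
  I := X.I d
  i1 := d
  i2 := 2 * d
  fp := fun x => trunc M (X.fp H g d x)
  fm := fun y => trunc M (X.fm H g d y)

/-- the labels of group `g` -/
def lab {V : Type} {M : ℕ} (H : V → Fin 40 → ZMod M) (g : Fin 40) : V → ZMod M := fun v => H v g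

/-- everything is fine at `x` -/
structure BGood {V : Type} [Fintype V] {M : ℕ} (c : ℝ) (k s q : ℕ) (X : BIn V M)
    (H : V → Fin 40 → ZMod M) (x : V) : Prop where
  wp : ∀ g, ∀ d ∈ X.B, ¬ BadW k q (X.dat s H g d) (lab H g) x
  wm : ∀ g, ∀ d ∈ X.B, ¬ BadW k q (X.dat s H g d).rev (-lab H g) x
  hd : ∀ g, ∀ d ∈ X.B, HGood c k M s (X.O g) (X.I d) (X.Zp g d) (X.Zm g d) (lab H g) x
  lf : ∀ g g' : Fin 40, (g' : ℕ) = g + 1 → LGood k s X.R (X.O g') H g x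
  zr : outN (Rg X.R H 40) x = ∅

/-- LLA (from LOC, MRG, HDG, LFT, ZRO, SIZ and lll_sum): plain local lemma, events indexed by
`x`, radius 9. -/
def LLAStmt : Prop :=
  ∀ c : ℝ, 0 < c → c ≤ 0.005 → ∃ k0 : ℕ, ∀ (k M s q : ℕ) [NeZero M] [Fact M.Prime], k0 ≤ k → Par k M s q →
    ∀ (V : Type) [Fintype V] (N : V → Finset V) (k' : ℝ) (X : BIn V M), X.Ok c k s k' N →
    ∃ H : V → Fin 40 → ZMod M, ∀ x, BGood c k s q X H x

/-- classes of one host -/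
structure Cls {V : Type} [Fintype V] (HR HO : Finset (V × V)) (t : ℕ) (Zp Zm : Finset V)
    (G : Finset (V × V)) (c : V × V → ℕ) : Prop where
  sub : HR ⊆ G
  sup : G ⊆ HR ∪ HO
  r1 : ∀ x, x ∉ Zp → od G x = t
  r2 : ∀ x, od G x = t ∨ od G x + 1 = t
  c1 : ∀ y, y ∉ Zm → idg G y = t
  c2 : ∀ y, idg G y = t ∨ idg G y + 1 = t
  lt : ∀ e ∈ G, c e < t
  inj : ∀ e ∈ G, ∀ e' ∈ G, c e = c e' → (e.1 = e'.1 → e = e') ∧ (e.2 = e'.2 → e = e')

/-- ASM (from idn, HST, and numbers): good labels give the classes of all hosts. -/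
def ASMStmt : Prop :=
  ∀ c : ℝ, 0 < c → c ≤ 0.005 → ∃ k0 : ℕ, ∀ (k M s q : ℕ) [NeZero M] [Fact M.Prime], k0 ≤ k → Par k M s q →
    ∀ (V : Type) [Fintype V] (N : V → Finset V) (k' : ℝ) (X : BIn V M), X.Ok c k s k' N →
    ∀ H : V → Fin 40 → ZMod M, (∀ x, BGood c k s q X H x) → ∀ g : Fin 40, ∀ d ∈ X.B,
    ∃ G c, Cls (hst (Rg X.R H g) (X.I d) (lab H g)) (hst (X.O g) (X.I d) (lab H g))
      ((X.I d).card * X.m g) (X.Zp g d) (X.Zm g d) G c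

/-- BAS (from LLA, ASM). -/
def BASStmt : Prop :=
  ∀ c : ℝ, 0 < c → c ≤ 0.005 → ∃ k0 : ℕ, ∀ (k M s q : ℕ) [NeZero M] [Fact M.Prime], k0 ≤ k → Par k M s q →
    ∀ (V : Type) [Fintype V] (N : V → Finset V) (k' : ℝ) (X : BIn V M), X.Ok c k s k' N →
    ∃ H : V → Fin 40 → ZMod M, (∀ p ∈ X.R, ∃ g : Fin 40, ∃ d ∈ X.B, p ∈ Rg X.R H g ∧
        H p.2 g - H p.1 g ∈ X.I d) ∧
      ∀ g : Fin 40, ∀ d ∈ X.B, ∃ G c, Cls (hst (Rg X.R H g) (X.I d) (lab H g))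
        (hst (X.O g) (X.I d) (lab H g)) ((X.I d).card * X.m g) (X.Zp g d) (X.Zm g d) G c

/-! ## ZCH: choice of the special sets -/

/-- ZCH (from CHF, lll_sum): special sets with the density condition, pairwise disjoint, disjoint
from `Q`, and of small density in every set of a prescribed family `F` (used by MAIN). -/
def ZCHStmt : Prop :=
  ∀ c : ℝ, 0 < c → c ≤ 0.005 → ∃ k0 : ℕ, ∀ (k M s q : ℕ) [NeZero M] [Fact M.Prime], k0 ≤ k → Par k M s q →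
    ∀ (V : Type) [Fintype V] (O : Fin 40 → Set (V × V)) (B : Finset (ZMod M))
    (I : ZMod M → Finset (ZMod M)) (Q : Finset V) (ι : Type) [Fintype ι]
    (F : ι → Finset V),
    (∀ d ∈ B, 2 ≤ (I d).card ∧ (I d).card ≤ 3) → (∀ g, NReg k s (O g)) →
    (∀ g x, 20000 * ((outN (O g) x) ∩ Q).card ≤ s ∧ 20000 * ((inN (O g) x) ∩ Q).card ≤ s) →
    (∀ i, (k : ℝ) ^ (0.01 : ℝ) ≤ (F i).card ∧ (F i).card ≤ k ^ 2) →
    (∀ v, (Finset.univ.filter fun i => v ∈ F i).card ≤ k ^ 10) →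
    ∃ Zp Zm : Fin 40 → ZMod M → Finset V,
      (∀ g, ∀ d ∈ B, Zd s (O g) (Zp g d) (Zm g d) (zet c k M (I d).card)) ∧
      (∀ g d, Disjoint (Zp g d) Q ∧ Disjoint (Zm g d) Q) ∧
      (∀ g d g' d', Disjoint (Zp g d) (Zm g' d')) ∧
      (∀ g d g' d', (g ≠ g' ∨ d ≠ d') → Disjoint (Zp g d) (Zp g' d') ∧
        Disjoint (Zm g d) (Zm g' d')) ∧
      (∀ i, ((F i ∩ Finset.univ.filter fun v => ∃ g, ∃ d ∈ B, v ∈ Zp g d ∨ v ∈ Zm g d).card : ℝ)
        ≤ 1000 * (k : ℝ) ^ (-c) * (F i).card) ∧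
      ∀ i g, ∀ d ∈ B, ((F i ∩ (Zp g d ∪ Zm g d)).card : ℝ) ≤
        6 * zet c k M (I d).card * (F i).card + (k : ℝ) ^ (0.01 : ℝ)

end Pool.Agent.C4W
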