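import Pool.Agent.Helper53_C4W.Stm2

/-!
# BLK: the nonzero residues are partitioned into blocks `{d, 2d}` and `{d, 2d, 4d}`
-/

set_option autoImplicit false

open scoped BigOperators Classical

noncomputable section

namespace Pool.Agent.C4W

/-- representatives and exponents -/
lemma exists_rep (M : ℕ) [Fact M.Prime] (hM : 2 < M) :
    ∃ (L : ℕ) (r : ZMod M → ZMod M) (e : ZMod M → ℕ), 2 ≤ L ∧
      (∀ a, a ≠ 0 → a = r a * 2 ^ e a ∧ e a < L) ∧ (∀ a, a ≠ 0 → r (2 * a) = r a) ∧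
      (∀ i j, i < L → j < L → (2 : ZMod M) ^ i = 2 ^ j → i = j) ∧ (2 : ZMod M) ^ L = 1 := by
  have h2 : (2 : ZMod M) ≠ 0 := by
    intro h
    have h' : ((2 : ℕ) : ZMod M) = 0 := by exact_mod_cast h
    rw [ZMod.natCast_eq_zero_iff] at h'
    exact absurd (Nat.le_of_dvd (by norm_num) h') (by omega)
  set t : (ZMod M)ˣ := Units.mk0 2 h2 with ht
  have ht1 : t ≠ 1 := by
    intro h
    have h3 : (2 : ZMod M) = 1 := by
      have := congrArg (fun u : (ZMod M)ˣ => (u : ZMod M)) h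
      simpa [ht] using this
    have h4 : (1 : ZMod M) = 0 := by
      have : (2 : ZMod M) - 1 = 0 := by rw [h3]; ring
      calc (1 : ZMod M) = 2 - 1 := by ring
        _ = 0 := this
    exact one_ne_zero h4
  set L := orderOf t with hL
  have hL0 : 0 < L := orderOf_pos t
  have hL2 : 2 ≤ L := by
    rcases Nat.lt_or_ge L 2 with h | h
    · exfalso
      have : L = 1 := by omega
      exact ht1 (orderOf_eq_one_iff.1 this)
    · exact h
  -- quotient representatives
  let rep : (ZMod M)ˣ → (ZMod M)ˣ := fun u =>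
    (Quotient.out (QuotientGroup.mk u : (ZMod M)ˣ ⧸ Subgroup.zpowers t))
  have hrep : ∀ u, ∃ n, n < L ∧ u = rep u * t ^ n := by
    intro u
    have h3 : (QuotientGroup.mk (rep u) : (ZMod M)ˣ ⧸ Subgroup.zpowers t) = QuotientGroup.mk u :=
      Quotient.out_eq _
    have h4 : (rep u)⁻¹ * u ∈ Subgroup.zpowers t := QuotientGroup.eq.1 h3
    rw [Subgroup.mem_zpowers_iff] at h4
    obtain ⟨z, hz⟩ := h4
    refine ⟨(z % L).toNat, ?_, ?_⟩
    · have h5 := Int.emod_lt_of_pos z (by exact_mod_cast hL0 : (0 : ℤ) < L)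
      have h6 := Int.emod_nonneg z (by exact_mod_cast hL0.ne' : (L : ℤ) ≠ 0)
      omega
    · have h6 := Int.emod_nonneg z (by exact_mod_cast hL0.ne' : (L : ℤ) ≠ 0)
      have h7 : t ^ (z % L).toNat = t ^ z := by
        rw [← zpow_natCast, Int.toNat_of_nonneg h6, hL, zpow_mod_orderOf]
      rw [h7, hz, mul_inv_cancel_left]
  have hrep2 : ∀ u, rep (t * u) = rep u := by
    intro u
    have h3 : (QuotientGroup.mk (t * u) : (ZMod M)ˣ ⧸ Subgroup.zpowers t) =
        QuotientGroup.mk u := by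
      rw [QuotientGroup.eq]
      have : (t * u)⁻¹ * u = t⁻¹ := by
        rw [mul_inv_rev, mul_comm u⁻¹, inv_mul_cancel_right]
      rw [this]
      exact inv_mem (Subgroup.mem_zpowers t)
    show Quotient.out _ = Quotient.out _
    rw [h3]
  choose ex hex using hrep
  refine ⟨L, fun a => if h : a = 0 then 0 else (rep (Units.mk0 a h) : ZMod M),
    fun a => if h : a = 0 then 0 else ex (Units.mk0 a h), hL2, ?_, ?_, ?_, ?_⟩
  · intro a ha
    have h3 := hex (Units.mk0 a ha)
    simp only [dif_neg ha]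
    refine ⟨?_, h3.1⟩
    have h4 := congrArg (fun u : (ZMod M)ˣ => (u : ZMod M)) h3.2
    simpa [ht] using h4
  · intro a ha
    have h5 : 2 * a ≠ 0 := mul_ne_zero h2 ha
    simp only [dif_neg ha, dif_neg h5]
    have h6 : Units.mk0 (2 * a) h5 = t * Units.mk0 a ha := by
      ext; simp [ht]
    rw [h6, hrep2]
  · intro i j hi hj hij
    have h7 : t ^ i = t ^ j := by
      ext; simpa [ht] using hij
    exact pow_injOn_Iio_orderOf (Set.mem_Iio.2 hi) (Set.mem_Iio.2 hj) h7
  · have h8 : t ^ L = 1 := pow_orderOf_eq_one t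
    have h9 := congrArg (fun u : (ZMod M)ˣ => (u : ZMod M)) h8
    simpa [ht] using h9

/-- BLK -/
theorem blk (M : ℕ) [Fact M.Prime] [NeZero M] (hM : 2 < M) :
    ∃ (B : Finset (ZMod M)) (I : ZMod M → Finset (ZMod M)),
      (∀ d ∈ B, d ≠ 0 ∧ (I d = {d, 2 * d} ∨ I d = {d, 2 * d, 4 * d})) ∧
      (∀ d ∈ B, ∀ e ∈ B, d ≠ e → Disjoint (I d) (I e)) ∧
      (∀ a, a ≠ 0 → ∃ d ∈ B, a ∈ I d) := by
  obtain ⟨L, r, e, hL, h1, h2, h3, h4⟩ := exists_rep M hM
  have h20 : (2 : ZMod M) ≠ 0 := by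
    intro h
    have h' : ((2 : ℕ) : ZMod M) = 0 := by exact_mod_cast h
    rw [ZMod.natCast_eq_zero_iff] at h'
    exact absurd (Nat.le_of_dvd (by norm_num) h') (by omega)
  have hr0 : ∀ a, a ≠ 0 → r a ≠ 0 := by
    intro a ha h
    have := (h1 a ha).1
    rw [h, zero_mul] at this
    exact ha this
  -- exponent of the double
  have he2 : ∀ a, a ≠ 0 → e a + 1 < L → e (2 * a) = e a + 1 := by
    intro a ha h
    have h5 := h1 (2 * a) (mul_ne_zero h20 ha)
    have h6 := h1 a ha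
    rw [h2 a ha] at h5
    refine h3 _ _ h5.2 h ?_
    have h7 : r a * 2 ^ e (2 * a) = r a * 2 ^ (e a + 1) := by
      rw [← h5.1]
      calc 2 * a = 2 * (r a * 2 ^ e a) := by rw [← h6.1]
        _ = r a * 2 ^ (e a + 1) := by ring
    exact mul_left_cancel₀ (hr0 a ha) h7
  have hhalf : ∀ a, a ≠ 0 → 1 ≤ e a → ∃ b, b ≠ 0 ∧ a = 2 * b ∧ e b + 1 = e a := by
    intro a ha h
    have hb0 : r a * 2 ^ (e a - 1) ≠ 0 := mul_ne_zero (hr0 a ha) (pow_ne_zero _ h20)
    have hab : a = 2 * (r a * 2 ^ (e a - 1)) := by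
      conv_lhs => rw [(h1 a ha).1]
      obtain ⟨m, hm⟩ : ∃ m, e a = m + 1 := ⟨e a - 1, by omega⟩
      rw [hm, Nat.add_sub_cancel]; ring
    refine ⟨r a * 2 ^ (e a - 1), hb0, hab, ?_⟩
    generalize hbd : r a * 2 ^ (e a - 1) = b at hb0 hab
    have h5 := h1 b hb0
    have h6 : r b = r a := by rw [hab, h2 b hb0]
    have h8 : r a * 2 ^ e b = r a * 2 ^ (e a - 1) := by
      rw [hbd]; nth_rw 1 [← h6]; exact h5.1.symm
    have h9 := h3 _ _ h5.2 (by have := (h1 a ha).2; omega) (mul_left_cancel₀ (hr0 a ha) h8)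
    omega
  refine ⟨Finset.univ.filter fun a => a ≠ 0 ∧ Even (e a) ∧ e a + 1 < L,
    fun d => if e d + 3 = L then {d, 2 * d, 4 * d} else {d, 2 * d}, ?_, ?_, ?_⟩
  · intro d hd
    rw [Finset.mem_filter] at hd
    refine ⟨hd.2.1, ?_⟩
    dsimp only
    split_ifs
    · exact Or.inr rfl
    · exact Or.inl rfl
  · -- disjoint
    have key : ∀ d, d ≠ 0 → Even (e d) → e d + 1 < L → ∀ a,
        a ∈ (if e d + 3 = L then ({d, 2 * d, 4 * d} : Finset (ZMod M)) else {d, 2 * d}) →
        a ≠ 0 ∧ r a = r d ∧ (e a = e d ∨ e a = e d + 1 ∨ (e a = e d + 2 ∧ e d + 3 = L)) := by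
      intro d hd he hlt a ha
      have hd2 : 2 * d ≠ 0 := mul_ne_zero h20 hd
      have hd4 : 4 * d ≠ 0 := by
        have : (4 : ZMod M) * d = 2 * (2 * d) := by ring
        rw [this]; exact mul_ne_zero h20 hd2
      by_cases hc : e d + 3 = L
      · rw [if_pos hc] at ha
        simp only [Finset.mem_insert, Finset.mem_singleton] at ha
        rcases ha with rfl | rfl | rfl
        · exact ⟨hd, rfl, Or.inl rfl⟩
        · exact ⟨hd2, h2 d hd, Or.inr (Or.inl (he2 d hd hlt))⟩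
        · refine ⟨hd4, ?_, Or.inr (Or.inr ⟨?_, hc⟩)⟩
          · have : (4 : ZMod M) * d = 2 * (2 * d) := by ring
            rw [this, h2 _ hd2, h2 d hd]
          · have : (4 : ZMod M) * d = 2 * (2 * d) := by ring
            rw [this, he2 _ hd2 (by rw [he2 d hd hlt]; omega), he2 d hd hlt]
      · rw [if_neg hc] at ha
        simp only [Finset.mem_insert, Finset.mem_singleton] at ha
        rcases ha with rfl | rfl
        · exact ⟨hd, rfl, Or.inl rfl⟩
        · exact ⟨hd2, h2 d hd, Or.inr (Or.inl (he2 d hd hlt))⟩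
    intro d hd d' hd' hne
    rw [Finset.mem_filter] at hd hd'
    rw [Finset.disjoint_left]
    intro a ha ha'
    have k1 := key d hd.2.1 hd.2.2.1 hd.2.2.2 a ha
    have k2 := key d' hd'.2.1 hd'.2.2.1 hd'.2.2.2 a ha'
    have he : e d = e d' := by
      obtain ⟨i, hi⟩ := hd.2.2.1
      obtain ⟨j, hj⟩ := hd'.2.2.1
      have hlt := (h1 a k1.1).2
      omega
    apply hne
    rw [(h1 d hd.2.1).1, (h1 d' hd'.2.1).1, ← k1.2.1, ← k2.2.1, he]
  · intro a ha
    have hlt := (h1 a ha).2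
    rcases Nat.even_or_odd (e a) with he | ho
    · by_cases hc : e a + 1 < L
      · refine ⟨a, Finset.mem_filter.2 ⟨Finset.mem_univ _, ha, he, hc⟩, ?_⟩
        dsimp only
        split_ifs <;> simp
      · have hL1 : e a + 1 = L := by omega
        have he1 : 1 ≤ e a := by omega
        obtain ⟨b, hb0, hab, heb⟩ := hhalf a ha he1
        have heb1 : 1 ≤ e b := by
          obtain ⟨i, hi⟩ := he
          omega
        obtain ⟨b', hb0', hab', heb'⟩ := hhalf b hb0 heb1
        refine ⟨b', Finset.mem_filter.2 ⟨Finset.mem_univ _, hb0', ?_, by omega⟩, ?_⟩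
        · obtain ⟨i, hi⟩ := he
          exact ⟨i - 1, by omega⟩
        · dsimp only
          rw [if_pos (by omega)]
          have : a = 4 * b' := by rw [hab, hab']; ring
          rw [this]; simp
    · have he1 : 1 ≤ e a := by
        obtain ⟨i, hi⟩ := ho
        omega
      obtain ⟨b, hb0, hab, heb⟩ := hhalf a ha he1
      refine ⟨b, Finset.mem_filter.2 ⟨Finset.mem_univ _, hb0, ?_, by omega⟩, ?_⟩
      · obtain ⟨i, hi⟩ := ho
        exact ⟨i, by omega⟩
      · dsimp only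
        rw [hab]
        split_ifs <;> simp

end Pool.Agent.C4W
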