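import Pool.Agent.Helper53_C4W.Bas
import Pool.Agent.Helper53_C4W.Blk
import Pool.Agent.C4K.Defs

/-!
# The base in the form used by the walks and by the main induction
-/

set_option autoImplicit false

open scoped BigOperators Classical

noncomputable section

namespace Pool.Agent.C4W

open Pool.Agent.C4K (it)

/-- the classes of the base as partial injections `f c`; `ho c` = host of the class `c` -/
structure BOut {V : Type} [Fintype V] {M : ℕ} (X : BIn V M) (n : ℕ) (f : Fin n → V → Option V)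
    (ho : Fin n → Fin 40 × ZMod M) : Prop where
  hB : ∀ c, (ho c).2 ∈ X.B
  cnt : ∀ g, ∀ d ∈ X.B, (Finset.univ.filter fun c => ho c = (g, d)).card = (X.I d).card * X.m g
  inj : ∀ c x x' y, f c x = some y → f c x' = some y → x = x'
  sub : ∀ c x y, f c x = some y → (x, y) ∈ X.E
  dis : ∀ c c' x y, f c x = some y → f c' x = some y → c = c'
  all : ∀ x y, (x, y) ∈ X.R → ∃ c, f c x = some y
  cyc : ∀ c x m, 1 ≤ m → it (f c) m x = some x → M ≤ 4 * m
  out : ∀ c x, x ∉ X.Zp (ho c).1 (ho c).2 → f c x ≠ none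
  inn : ∀ c y, y ∉ X.Zm (ho c).1 (ho c).2 → ∃ x, f c x = some y
  out1 : ∀ c c' x, f c x = none → f c' x = none → ho c = ho c' → c = c'
  inn1 : ∀ c c' y, (∀ x, f c x ≠ some y) → (∀ x, f c' x ≠ some y) → ho c = ho c' → c = c'

variable {V : Type} [Fintype V] {M : ℕ}

/-- the blocks cover all nonzero residues -/
lemma sum_blocks [Fact M.Prime] [NeZero M] {B : Finset (ZMod M)} {I : ZMod M → Finset (ZMod M)}
    (h0 : ∀ d ∈ B, (0 : ZMod M) ∉ I d)
    (hd : ∀ d ∈ B, ∀ e ∈ B, d ≠ e → Disjoint (I d) (I e))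
    (hc : ∀ a, a ≠ 0 → ∃ d ∈ B, a ∈ I d) : ∑ d ∈ B, (I d).card = M - 1 := by
  have h1 : B.biUnion I = Finset.univ.erase 0 := by
    ext a
    rw [Finset.mem_biUnion, Finset.mem_erase]
    constructor
    · rintro ⟨d, hd, ha⟩
      exact ⟨fun h => h0 d hd (h ▸ ha), Finset.mem_univ _⟩
    · rintro ⟨ha, _⟩
      exact hc a ha
  rw [← Finset.card_biUnion (fun d hd' e he hne => hd d hd' e he hne), h1,
    Finset.card_erase_of_mem (Finset.mem_univ _), Finset.card_univ, ZMod.card]

/-- a class as a partial map -/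
def clf (G : Finset (V × V)) (cc : V × V → ℕ) (j : ℕ) (x : V) : Option V :=
  if h : ∃ y, (x, y) ∈ G ∧ cc (x, y) = j then some h.choose else none

lemma clf_some {G : Finset (V × V)} {cc : V × V → ℕ} {j : ℕ} {x y : V}
    (h : clf G cc j x = some y) : (x, y) ∈ G ∧ cc (x, y) = j := by
  unfold clf at h
  split_ifs at h with h1
  have h2 := h1.choose_spec
  rw [Option.some.inj h] at h2
  exact h2

lemma clf_none {G : Finset (V × V)} {cc : V × V → ℕ} {j : ℕ} {x : V}
    (h : clf G cc j x = none) (y : V) : ¬ ((x, y) ∈ G ∧ cc (x, y) = j) := by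
  intro hy
  unfold clf at h
  rw [dif_pos ⟨y, hy⟩] at h
  exact absurd h (Option.some_ne_none _)

lemma clf_eq {HR HO : Finset (V × V)} {t : ℕ} {Zp Zm : Finset V} {G : Finset (V × V)}
    {cc : V × V → ℕ} (hC : Cls HR HO t Zp Zm G cc) {j : ℕ} {x y : V}
    (h : (x, y) ∈ G) (hj : cc (x, y) = j) : clf G cc j x = some y := by
  unfold clf
  have h1 : ∃ y, (x, y) ∈ G ∧ cc (x, y) = j := ⟨y, h, hj⟩
  rw [dif_pos h1]
  have h2 := h1.choose_spec
  have h3 := (hC.inj _ h2.1 _ h (h2.2.trans hj.symm)).1 rfl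
  exact congrArg some (congrArg Prod.snd h3)

/-- out-degree in terms of the colours -/
lemma cls_out {HR HO : Finset (V × V)} {t : ℕ} {Zp Zm : Finset V} {G : Finset (V × V)}
    {cc : V × V → ℕ} (hC : Cls HR HO t Zp Zm G cc) (x : V) :
    ((Finset.range t).filter fun j => clf G cc j x = none).card + od G x = t := by
  have h1 : od G x = ((Finset.range t).filter fun j => clf G cc j x ≠ none).card := by
    unfold od
    refine Finset.card_bij (fun e _ => cc e) ?_ ?_ ?_
    · rintro ⟨a, y⟩ he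
      rw [Finset.mem_filter] at he ⊢
      obtain ⟨he1, he2⟩ := he
      dsimp only at he2
      subst he2
      refine ⟨Finset.mem_range.2 (hC.lt _ he1), fun h => clf_none h y ⟨he1, rfl⟩⟩
    · intro e he e' he' h
      rw [Finset.mem_filter] at he he'
      exact (hC.inj _ he.1 _ he'.1 h).1 (he.2.trans he'.2.symm)
    · intro j hj
      rw [Finset.mem_filter] at hj
      obtain ⟨y, hy⟩ := Option.ne_none_iff_exists'.1 hj.2
      have h2 := clf_some hy
      exact ⟨(x, y), Finset.mem_filter.2 ⟨h2.1, rfl⟩, h2.2⟩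
  rw [h1]
  have h2 := Finset.card_filter_add_card_filter_not (s := Finset.range t)
    (fun j => clf G cc j x = none)
  rw [Finset.card_range] at h2
  exact h2

/-- in-degree in terms of the colours -/
lemma cls_in {HR HO : Finset (V × V)} {t : ℕ} {Zp Zm : Finset V} {G : Finset (V × V)}
    {cc : V × V → ℕ} (hC : Cls HR HO t Zp Zm G cc) (y : V) :
    ((Finset.range t).filter fun j => ∀ x, clf G cc j x ≠ some y).card + idg G y = t := by
  have h1 : idg G y = ((Finset.range t).filter fun j => ¬ ∀ x, clf G cc j x ≠ some y).card := by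
    unfold idg
    refine Finset.card_bij (fun e _ => cc e) ?_ ?_ ?_
    · rintro ⟨x, b⟩ he
      rw [Finset.mem_filter] at he ⊢
      obtain ⟨he1, he2⟩ := he
      dsimp only at he2
      subst he2
      exact ⟨Finset.mem_range.2 (hC.lt _ he1), fun h => h x (clf_eq hC he1 rfl)⟩
    · intro e he e' he' h
      rw [Finset.mem_filter] at he he'
      exact (hC.inj _ he.1 _ he'.1 h).2 (he.2.trans he'.2.symm)
    · intro j hj
      rw [Finset.mem_filter] at hj
      have h3 := hj.2
      push Not at h3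
      obtain ⟨x, hx⟩ := h3
      have h2 := clf_some hx
      exact ⟨(x, y), Finset.mem_filter.2 ⟨h2.1, rfl⟩, h2.2⟩
  rw [h1]
  have h2 := Finset.card_filter_add_card_filter_not (s := Finset.range t)
    (fun j => ∀ x, clf G cc j x ≠ some y)
  rw [Finset.card_range] at h2
  exact h2

omit [Fintype V] in
/-- label increments along the iterates -/
lemma it_label {f : V → Option V} {h : V → ZMod M} {d : ZMod M}
    (hf : ∀ x y, f x = some y → ∃ a : ℕ, 1 ≤ a ∧ a ≤ 4 ∧ h y - h x = a * d) :
    ∀ (m : ℕ) (x y : V), it f m x = some y → ∃ A : ℕ, m ≤ A ∧ A ≤ 4 * m ∧ h y - h x = A * d := by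
  intro m
  induction m with
  | zero =>
    intro x y hxy
    have : x = y := Option.some.inj hxy
    subst this
    exact ⟨0, le_rfl, by omega, by push_cast; ring⟩
  | succ m ih =>
    intro x y hxy
    have h1 : (f x).bind (it f m) = some y := hxy
    cases hz : f x with
    | none => rw [hz] at h1; exact absurd h1 (by simp)
    | some z =>
      rw [hz] at h1
      have h2 : it f m z = some y := h1
      obtain ⟨a, ha1, ha4, ha⟩ := hf x z hz
      obtain ⟨A, hA1, hA4, hA⟩ := ih z y h2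
      refine ⟨a + A, by omega, by omega, ?_⟩
      push_cast
      linear_combination ha + hA

/-- zero is in no block -/
lemma zero_notMem [Fact M.Prime] (hM : 2 < M) {d : ZMod M} {I : Finset (ZMod M)} (hd : d ≠ 0)
    (hI : I = {d, 2 * d} ∨ I = {d, 2 * d, 4 * d}) : (0 : ZMod M) ∉ I := by
  have h20 : (2 : ZMod M) ≠ 0 := by
    intro h
    have h' : ((2 : ℕ) : ZMod M) = 0 := by exact_mod_cast h
    rw [ZMod.natCast_eq_zero_iff] at h'
    exact absurd (Nat.le_of_dvd (by norm_num) h') (by omega)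
  have hd2 : 2 * d ≠ 0 := mul_ne_zero h20 hd
  have hd4 : 4 * d ≠ 0 := by
    have : (4 : ZMod M) * d = 2 * (2 * d) := by ring
    rw [this]; exact mul_ne_zero h20 hd2
  rcases hI with h | h
  · rw [h]
    simp only [Finset.mem_insert, Finset.mem_singleton, not_or]
    exact ⟨hd.symm, hd2.symm⟩
  · rw [h]
    simp only [Finset.mem_insert, Finset.mem_singleton, not_or]
    exact ⟨hd.symm, hd2.symm, hd4.symm⟩

lemma block_coef {d a : ZMod M} {I : Finset (ZMod M)}
    (hI : I = {d, 2 * d} ∨ I = {d, 2 * d, 4 * d}) (ha : a ∈ I) :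
    ∃ z : ℕ, 1 ≤ z ∧ z ≤ 4 ∧ a = z * d := by
  have h : a = d ∨ a = 2 * d ∨ a = 4 * d := by
    rcases hI with h | h
    · rw [h] at ha
      simp only [Finset.mem_insert, Finset.mem_singleton] at ha
      tauto
    · rw [h] at ha
      simp only [Finset.mem_insert, Finset.mem_singleton] at ha
      exact ha
  rcases h with h | h | h
  · exact ⟨1, le_rfl, by norm_num, by rw [h]; push_cast; ring⟩
  · exact ⟨2, by norm_num, by norm_num, by rw [h]; push_cast; ring⟩
  · exact ⟨4, by norm_num, by norm_num, by rw [h]; push_cast; ring⟩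

/-- **OUT**: the classes of the base as partial injections -/
theorem out [Fact M.Prime] [NeZero M] (hM : 2 < M) {c : ℝ} {k s : ℕ} {k' : ℝ}
    {N : V → Finset V} {X : BIn V M} (hX : X.Ok c k s k' N) {H : V → Fin 40 → ZMod M}
    (hall : ∀ p ∈ X.R, ∃ g : Fin 40, ∃ d ∈ X.B, p ∈ Rg X.R H g ∧ H p.2 g - H p.1 g ∈ X.I d)
    (hcls : ∀ g : Fin 40, ∀ d ∈ X.B, ∃ G c, Cls (hst (Rg X.R H g) (X.I d) (lab H g))
      (hst (X.O g) (X.I d) (lab H g)) ((X.I d).card * X.m g) (X.Zp g d) (X.Zm g d) G c) :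
    ∃ (f : Fin ((M - 1) * ∑ g, X.m g) → V → Option V)
      (ho : Fin ((M - 1) * ∑ g, X.m g) → Fin 40 × ZMod M),
      BOut X ((M - 1) * ∑ g, X.m g) f ho := by
  choose! G cc hG using hcls
  set T : Finset (Σ _ : Fin 40 × ZMod M, ℕ) := (Finset.univ ×ˢ X.B).sigma fun p =>
    Finset.range ((X.I p.2).card * X.m p.1) with hT
  have h0 : ∀ d ∈ X.B, (0 : ZMod M) ∉ X.I d := fun d hd =>
    zero_notMem hM (hX.B0 d hd).1 (hX.B0 d hd).2
  have hTc : T.card = (M - 1) * ∑ g, X.m g := by
    rw [hT, Finset.card_sigma, Finset.sum_product, ← sum_blocks h0 hX.Bd hX.Bc,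
      Finset.sum_mul_sum, Finset.sum_comm]
    refine Finset.sum_congr rfl fun d _ => Finset.sum_congr rfl fun g _ => ?_
    rw [Finset.card_range]
  let e : Fin ((M - 1) * ∑ g, X.m g) ≃ T := (Finset.equivFinOfCardEq hTc).symm
  have hmT : ∀ z ∈ T, z.1.2 ∈ X.B ∧ z.2 < (X.I z.1.2).card * X.m z.1.1 := by
    intro z hz
    rw [hT, Finset.mem_sigma, Finset.mem_product, Finset.mem_range] at hz
    exact ⟨hz.1.2, hz.2⟩
  have hmem : ∀ i, ((e i).1.1.2 ∈ X.B) ∧ (e i).1.2 < (X.I (e i).1.1.2).card * X.m (e i).1.1.1 :=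
    fun i => hmT _ (e i).2
  have hidx : ∀ (g : Fin 40) (d : ZMod M) (j : ℕ), d ∈ X.B → j < (X.I d).card * X.m g →
      ∃ i, (e i).1.1 = (g, d) ∧ (e i).1.2 = j := by
    intro g d j hd hj
    have h1 : (⟨(g, d), j⟩ : Σ _ : Fin 40 × ZMod M, ℕ) ∈ T := by
      rw [hT, Finset.mem_sigma, Finset.mem_product, Finset.mem_range]
      exact ⟨⟨Finset.mem_univ _, hd⟩, hj⟩
    refine ⟨e.symm ⟨_, h1⟩, ?_, ?_⟩
    · rw [Equiv.apply_symm_apply]
    · rw [Equiv.apply_symm_apply]
  have hinj : ∀ i i', (e i).1.1 = (e i').1.1 → (e i).1.2 = (e i').1.2 → i = i' := by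
    intro i i' h1 h2
    apply e.injective
    apply Subtype.ext
    rcases h3 : (e i).1 with ⟨p, j⟩
    rcases h4 : (e i').1 with ⟨p', j'⟩
    rw [h3, h4] at h1 h2
    dsimp only at h1 h2
    rw [h1, h2]
  -- arcs of hosts
  have harc : ∀ g : Fin 40, ∀ d ∈ X.B, ∀ p ∈ G g d, ((p ∈ X.R ∧ ∀ i : Fin 40, i.1 < g.1 →
      H p.1 i = H p.2 i) ∨ p ∈ X.O g) ∧ H p.2 g - H p.1 g ∈ X.I d := by
    intro g d hd p hp
    have h1 := (hG g d hd).sup hp
    rw [Finset.mem_union] at h1
    unfold hst at h1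
    rw [Finset.mem_filter, Finset.mem_filter] at h1
    rcases h1 with h1 | h1
    · exact ⟨Or.inl h1.2.1, h1.2.2⟩
    · exact ⟨Or.inr h1.2.1, h1.2.2⟩
  have huniq : ∀ g g' : Fin 40, ∀ d ∈ X.B, ∀ d' ∈ X.B, ∀ p, p ∈ G g d → p ∈ G g' d' →
      (g, d) = (g', d') := by
    intro g g' d hd d' hd' p hp hp'
    obtain ⟨a1, a2⟩ := harc g d hd p hp
    obtain ⟨b1, b2⟩ := harc g' d' hd' p hp'
    have hgg : g = g' := by
      rcases a1 with a1 | a1
      · rcases b1 with b1 | b1
        · rcases lt_trichotomy g.1 g'.1 with h | h | h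
          · exfalso
            have := b1.2 g h
            rw [this, sub_self] at a2
            exact h0 d hd a2
          · exact Fin.ext h
          · exfalso
            have := a1.2 g' h
            rw [this, sub_self] at b2
            exact h0 d' hd' b2
        · exact absurd b1 (Set.disjoint_left.1 (hX.dRO g') a1.1)
      · rcases b1 with b1 | b1
        · exact absurd a1 (Set.disjoint_left.1 (hX.dRO g) b1.1)
        · by_contra hne
          exact Set.disjoint_left.1 (hX.dOO g g' hne) a1 b1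
    subst hgg
    have hdd : d = d' := by
      by_contra hne
      exact Finset.disjoint_left.1 (hX.Bd d hd d' hd' hne) a2 b2
    rw [hdd]
  refine ⟨fun i => clf (G (e i).1.1.1 (e i).1.1.2) (cc (e i).1.1.1 (e i).1.1.2) (e i).1.2,
    fun i => (e i).1.1, ?_⟩
  exact {
    hB := fun i => (hmem i).1
    cnt := by
      intro g d hd
      rw [← Finset.card_range ((X.I d).card * X.m g)]
      refine Finset.card_bij (fun i _ => (e i).1.2) ?_ ?_ ?_
      · intro i hi
        rw [Finset.mem_filter] at hi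
        have h1 := (hmem i).2
        rw [hi.2] at h1
        exact Finset.mem_range.2 h1
      · intro i hi i' hi' h
        rw [Finset.mem_filter] at hi hi'
        exact hinj i i' (hi.2.trans hi'.2.symm) h
      · intro j hj
        obtain ⟨i, hi1, hi2⟩ := hidx g d j hd (Finset.mem_range.1 hj)
        exact ⟨i, Finset.mem_filter.2 ⟨Finset.mem_univ _, hi1⟩, hi2⟩
    inj := by
      intro i x x' y h h'
      have h1 := clf_some h
      have h2 := clf_some h'
      have h3 := ((hG _ _ (hmem i).1).inj _ h1.1 _ h2.1 (h1.2.trans h2.2.symm)).2 rfl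
      exact congrArg Prod.fst h3
    sub := by
      intro i x y h
      have h1 := (harc _ _ (hmem i).1 _ (clf_some h).1).1
      rcases h1 with h1 | h1
      · exact Or.inl h1.1
      · exact Or.inr (Set.mem_iUnion.2 ⟨_, h1⟩)
    dis := by
      intro i i' x y h h'
      have h1 := clf_some h
      have h2 := clf_some h'
      have h3 := huniq _ _ _ (hmem i).1 _ (hmem i').1 _ h1.1 h2.1
      have h4 : (e i).1.1 = (e i').1.1 := h3
      refine hinj i i' h4 ?_
      rw [← h1.2, ← h2.2, h4]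
    all := by
      intro x y hxy
      obtain ⟨g, d, hd, hg, hdI⟩ := hall _ hxy
      have h1 : (x, y) ∈ G g d := by
        refine (hG g d hd).sub ?_
        unfold hst
        exact Finset.mem_filter.2 ⟨Finset.mem_univ _, hg, hdI⟩
      obtain ⟨i, hi1, hi2⟩ := hidx g d (cc g d (x, y)) hd ((hG g d hd).lt _ h1)
      refine ⟨i, ?_⟩
      rw [hi1, hi2]
      exact clf_eq (hG g d hd) h1 rfl
    cyc := by
      intro i x m hm hx
      have hd := (hmem i).1
      have h1 := it_label (h := lab H (e i).1.1.1) (d := (e i).1.1.2)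
        (f := clf (G (e i).1.1.1 (e i).1.1.2) (cc (e i).1.1.1 (e i).1.1.2) (e i).1.2)
        (fun x y hxy => block_coef (hX.B0 _ hd).2 (harc _ _ hd _ (clf_some hxy).1).2) m x x hx
      obtain ⟨A, hA1, hA2, hA3⟩ := h1
      rw [sub_self] at hA3
      have h2 : (A : ZMod M) = 0 := by
        rcases mul_eq_zero.1 hA3.symm with h | h
        · exact h
        · exact absurd h (hX.B0 _ hd).1
      rw [ZMod.natCast_eq_zero_iff] at h2
      have h3 := Nat.le_of_dvd (by omega) h2
      omega
    out := by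
      intro i x hx hn
      have h1 := cls_out (hG (e i).1.1.1 _ (hmem i).1) x
      rw [(hG (e i).1.1.1 _ (hmem i).1).r1 x hx] at h1
      have h2 : (Finset.range ((X.I (e i).1.1.2).card * X.m (e i).1.1.1)).filter
          (fun j => clf (G (e i).1.1.1 (e i).1.1.2) (cc (e i).1.1.1 (e i).1.1.2) j x = none) = ∅ := by
        rw [← Finset.card_eq_zero]; omega
      have h3 : (e i).1.2 ∈ (∅ : Finset ℕ) := by
        rw [← h2, Finset.mem_filter]
        exact ⟨Finset.mem_range.2 (hmem i).2, hn⟩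
      exact absurd h3 (Finset.notMem_empty _)
    inn := by
      intro i y hy
      by_contra hn
      push Not at hn
      have h1 := cls_in (hG (e i).1.1.1 _ (hmem i).1) y
      rw [(hG (e i).1.1.1 _ (hmem i).1).c1 y hy] at h1
      have h2 : (Finset.range ((X.I (e i).1.1.2).card * X.m (e i).1.1.1)).filter
          (fun j => ∀ x, clf (G (e i).1.1.1 (e i).1.1.2) (cc (e i).1.1.1 (e i).1.1.2) j x ≠
            some y) = ∅ := by
        rw [← Finset.card_eq_zero]; omega
      have h3 : (e i).1.2 ∈ (∅ : Finset ℕ) := by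
        rw [← h2, Finset.mem_filter]
        exact ⟨Finset.mem_range.2 (hmem i).2, hn⟩
      exact absurd h3 (Finset.notMem_empty _)
    out1 := by
      intro i i' x h h' he
      have he' : (e i).1.1 = (e i').1.1 := he
      refine hinj i i' he' ?_
      have h1 := cls_out (hG (e i).1.1.1 _ (hmem i).1) x
      have h4 := (hG (e i).1.1.1 _ (hmem i).1).r2 x
      have h2 : ((Finset.range ((X.I (e i).1.1.2).card * X.m (e i).1.1.1)).filter
          (fun j => clf (G (e i).1.1.1 (e i).1.1.2) (cc (e i).1.1.1 (e i).1.1.2) j x =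
            none)).card ≤ 1 := by omega
      refine Finset.card_le_one.1 h2 _ ?_ _ ?_
      · rw [Finset.mem_filter]
        exact ⟨Finset.mem_range.2 (hmem i).2, h⟩
      · rw [Finset.mem_filter, he']
        exact ⟨Finset.mem_range.2 (hmem i').2, h'⟩
    inn1 := by
      intro i i' y h h' he
      have he' : (e i).1.1 = (e i').1.1 := he
      refine hinj i i' he' ?_
      have h1 := cls_in (hG (e i).1.1.1 _ (hmem i).1) y
      have h4 := (hG (e i).1.1.1 _ (hmem i).1).c2 y
      have h2 : ((Finset.range ((X.I (e i).1.1.2).card * X.m (e i).1.1.1)).filter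
          (fun j => ∀ x, clf (G (e i).1.1.1 (e i).1.1.2) (cc (e i).1.1.1 (e i).1.1.2) j x ≠
            some y)).card ≤ 1 := by omega
      refine Finset.card_le_one.1 h2 _ ?_ _ ?_
      · rw [Finset.mem_filter]
        exact ⟨Finset.mem_range.2 (hmem i).2, h⟩
      · rw [Finset.mem_filter, he']
        exact ⟨Finset.mem_range.2 (hmem i').2, h'⟩ }

/-- the output of the base -/
def OUTStmt : Prop :=
  ∀ c : ℝ, 0 < c → c ≤ 0.005 → ∃ k0 : ℕ, ∀ (k M s q : ℕ) [NeZero M] [Fact M.Prime], k0 ≤ k →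
    Par k M s q → ∀ (V : Type) [Fintype V] (N : V → Finset V) (k' : ℝ) (X : BIn V M),
    X.Ok c k s k' N → ∃ (f : Fin ((M - 1) * ∑ g, X.m g) → V → Option V)
      (ho : Fin ((M - 1) * ∑ g, X.m g) → Fin 40 × ZMod M),
      BOut X ((M - 1) * ∑ g, X.m g) f ho

lemma Par.two_lt {k M s q : ℕ} (h : Par k M s q) (hk : 16 ≤ k) : 2 < M := by
  have hk' : (16 : ℝ) ≤ k := by exact_mod_cast hk
  have h1 : (4 : ℝ) ≤ (k : ℝ) ^ (0.53 : ℝ) := by
    calc (4 : ℝ) = (16 : ℝ) ^ (1 / 2 : ℝ) := by
          rw [show (16 : ℝ) = 4 ^ (2 : ℝ) by norm_num, ← Real.rpow_mul (by norm_num)]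
          norm_num
      _ ≤ (k : ℝ) ^ (1 / 2 : ℝ) := Real.rpow_le_rpow (by norm_num) hk' (by norm_num)
      _ ≤ (k : ℝ) ^ (0.53 : ℝ) :=
          Real.rpow_le_rpow_of_exponent_le (by linarith) (by norm_num)
  have h2 : (2 : ℝ) < M := by linarith [h.Mlo]
  exact_mod_cast h2

/-- BASE -/
theorem base (hL : LLAStmt) (hA : ASMStmt) : OUTStmt := by
  intro c hc hc'
  obtain ⟨k1, h1⟩ := bas hL hA c hc hc'
  refine ⟨max k1 16, fun k M s q _ _ hk hp V _ N k' X hX => ?_⟩
  obtain ⟨H, hall, hcls⟩ := h1 k M s q (le_trans (le_max_left _ _) hk) hp V N k' X hX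
  exact out (hp.two_lt (le_trans (le_max_right _ _) hk)) hX hall hcls

end Pool.Agent.C4W
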