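import Pool.Agent.Helper53_C4W.Idn

/-!
# Expansion of the word fields as nested sums over trees
-/

set_option autoImplicit false

open scoped BigOperators Classical

noncomputable section

namespace Pool.Agent.C4W

variable {V : Type} [Fintype V] {M : ℕ} [NeZero M]

/-- marks of a vertex; `zeta ε c` compares the label with `ε a + c` -/
inductive Mk (M : ℕ) where
  | one : Mk M
  | zeta : ZMod M → ZMod M → Mk M
  | phi : (ZMod M → ZMod M → ℝ) → Mk M

def Mk.val (m : Mk M) (a l : ZMod M) : ℝ :=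
  match m with
  | .one => 1
  | .zeta ε c => (if l = ε * a + c then (M : ℝ) else 0) - 1
  | .phi f => f a l

/-- A letter of an expanded word. -/
structure Ltr (V : Type) (M : ℕ) where
  nb : V → Finset V
  om : V → V → ℝ
  stay : Bool
  mrk : Mk M

/-- nested sum -/
def Bas (s : ℕ) (τ : V → ℝ) :
    List (Ltr V M) → ZMod M → V → Finset V → (V → ZMod M) → ℝ
  | [], _, x, _, _ => τ x
  | (l :: w), a, x, A, h => (s : ℝ)⁻¹ * ∑ y ∈ l.nb x \ A, l.om x y * l.mrk.val a (h y) *
      (if l.stay then Bas s τ w a x (insert y A) h else Bas s τ w a y {x} h)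

/-- kinds of marks -/
inductive Kd where
  | one : Kd
  | zeta : Kd
  | phi : Kd
  deriving DecidableEq

/-- shape of a letter -/
structure Sh where
  isR : Bool
  stay : Bool
  kd : Kd
  deriving DecidableEq

/-- a mark has the given kind -/
def MkOk (B : ℝ) : Mk M → Kd → Prop
  | .one, .one => True
  | .zeta ε _, .zeta => ε = 1 ∨ ε = -1
  | .phi f, .phi => (∀ a, ∑ l, f a l = 0) ∧
      ∀ a l, |f a l| ≤ B * M
  | _, _ => False

/-- a list of letters fits a list of shapes, started with the data `D` -/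
def Fit (B : ℝ) : Dat V M → List (Ltr V M) → List Sh → Prop
  | _, [], [] => True
  | D, l :: w, sh :: ss =>
      (l.nb = if sh.isR then outN D.R else outN D.O) ∧ l.stay = sh.stay ∧ MkOk B l.mrk sh.kd ∧
      (∀ x y, |l.om x y| ≤ B) ∧ Fit B (if sh.stay then D else D.rev) w ss
  | _, _, _ => False

/-- the function is a combination of nested sums with shapes from the list `shs` -/
def RF (D : Dat V M) (B C t : ℝ) (shs : List (List Sh))
    (f : (V → ZMod M) → V → ZMod M → Finset V → ℝ) : Prop :=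
  ∃ (ι : Type) (_ : Fintype ι) (α : ι → ℝ)
    (w : ι → List (Ltr V M)) (τ : ι → V → ℝ), ∑ i, |α i| ≤ C ∧
    (∀ i, ∃ sh ∈ shs, Fit B D (w i) sh) ∧ (∀ i x, |τ i x| ≤ t) ∧
    ∀ (h : V → ZMod M) (x : V) (a : ZMod M) (A : Finset V), A ⊆ outN D.O x →
      f h x a A = ∑ i, α i * Bas D.s (τ i) (w i) a x A h

/-- change of the label -/
def Mk.shift (m : Mk M) (b : ZMod M) : Mk M :=
  match m with
  | .one => .one
  | .zeta ε c => .zeta ε (ε * b + c)
  | .phi f => .phi fun a l => f (a + b) l

/-- reversal: label `-(a + i)` and labelling `-h` -/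
def Mk.ref (m : Mk M) (i : ZMod M) : Mk M :=
  match m with
  | .one => .one
  | .zeta ε c => .zeta ε (ε * i - c)
  | .phi f => .phi fun a l => f (-(a + i)) (-l)

def Ltr.shift (l : Ltr V M) (b : ZMod M) : Ltr V M := { l with mrk := l.mrk.shift b }
def Ltr.ref (l : Ltr V M) (i : ZMod M) : Ltr V M := { l with mrk := l.mrk.ref i }

lemma Mk.shift_val (m : Mk M) (a b l : ZMod M) : (m.shift b).val a l = m.val (a + b) l := by
  cases m with
  | one => rfl
  | zeta ε c =>
    simp only [Mk.shift, Mk.val]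
    have : ε * a + (ε * b + c) = ε * (a + b) + c := by ring
    rw [this]
  | phi f => rfl

lemma Mk.ref_val (m : Mk M) (a i l : ZMod M) : (m.ref i).val a l = m.val (-(a + i)) (-l) := by
  cases m with
  | one => rfl
  | zeta ε c =>
    simp only [Mk.ref, Mk.val]
    have : (l = ε * a + (ε * i - c)) ↔ (-l = ε * -(a + i) + c) := by
      constructor
      · intro e; rw [e]; ring
      · intro e
        have : l = -(-l) := by ring
        rw [this, e]; ring
    simp only [this]
  | phi f => rfl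

lemma Bas_shift (s : ℕ) (τ : V → ℝ) (w : List (Ltr V M)) (a b : ZMod M) (x : V) (A : Finset V)
    (h : V → ZMod M) :
    Bas s τ (w.map fun l => l.shift b) a x A h = Bas s τ w (a + b) x A h := by
  induction w generalizing x A with
  | nil => rfl
  | cons l w ih =>
    simp only [List.map_cons, Bas, ih]
    have e1 : (l.shift b).nb = l.nb := rfl
    have e2 : (l.shift b).om = l.om := rfl
    have e3 : (l.shift b).stay = l.stay := rfl
    have e4 : ∀ c, (l.shift b).mrk.val a c = l.mrk.val (a + b) c := fun c => Mk.shift_val _ _ _ _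
    simp only [e1, e2, e3, e4]

lemma Bas_ref (s : ℕ) (τ : V → ℝ) (w : List (Ltr V M)) (a i : ZMod M) (x : V) (A : Finset V)
    (h : V → ZMod M) :
    Bas s τ (w.map fun l => l.ref i) a x A h = Bas s τ w (-(a + i)) x A (-h) := by
  induction w generalizing x A with
  | nil => rfl
  | cons l w ih =>
    simp only [List.map_cons, Bas, ih]
    have e1 : (l.ref i).nb = l.nb := rfl
    have e2 : (l.ref i).om = l.om := rfl
    have e3 : (l.ref i).stay = l.stay := rfl
    have e4 : ∀ y, (l.ref i).mrk.val a (h y) = l.mrk.val (-(a + i)) ((-h) y) :=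
      fun y => Mk.ref_val _ _ _ _
    simp only [e1, e2, e3, e4]

lemma MkOk_shift {B : ℝ} {m : Mk M} {k : Kd} (h : MkOk B m k) (b : ZMod M) :
    MkOk B (m.shift b) k := by
  cases m <;> cases k <;> simp_all [MkOk, Mk.shift]

lemma MkOk_ref {B : ℝ} {m : Mk M} {k : Kd} (h : MkOk B m k) (i : ZMod M) :
    MkOk B (m.ref i) k := by
  cases m with
  | one => cases k <;> simp_all [MkOk, Mk.ref]
  | zeta ε c => cases k <;> simp_all [MkOk, Mk.ref]
  | phi f =>
    cases k with
    | one => simp_all [MkOk]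
    | zeta => simp_all [MkOk]
    | phi =>
      simp only [MkOk, Mk.ref] at h ⊢
      refine ⟨fun a => ?_, fun a l => h.2 _ _⟩
      have := h.1 (-(a + i))
      have e := Equiv.sum_comp (Equiv.neg (ZMod M)) (fun l => f (-(a + i)) l)
      exact e.trans this

lemma Fit_shift {B : ℝ} {D : Dat V M} {w : List (Ltr V M)} {ss : List Sh} (h : Fit B D w ss)
    (b : ZMod M) : Fit B D (w.map fun l => l.shift b) ss := by
  induction w generalizing D ss with
  | nil => exact h
  | cons l w ih =>
    cases ss with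
    | nil => exact h
    | cons sh ss =>
      simp only [List.map_cons, Fit] at h ⊢
      exact ⟨h.1, h.2.1, MkOk_shift h.2.2.1 b, h.2.2.2.1, ih h.2.2.2.2⟩

lemma Fit_ref {B : ℝ} {D : Dat V M} {w : List (Ltr V M)} {ss : List Sh} (h : Fit B D w ss)
    (i : ZMod M) : Fit B D (w.map fun l => l.ref i) ss := by
  induction w generalizing D ss with
  | nil => exact h
  | cons l w ih =>
    cases ss with
    | nil => exact h
    | cons sh ss =>
      simp only [List.map_cons, Fit] at h ⊢
      exact ⟨h.1, h.2.1, MkOk_ref h.2.2.1 i, h.2.2.2.1, ih h.2.2.2.2⟩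

/-! ### closure properties -/

lemma RF.mono {D : Dat V M} {B C t C' t' : ℝ} {shs shs' : List (List Sh)}
    {f : (V → ZMod M) → V → ZMod M → Finset V → ℝ} (h : RF D B C t shs f) (hC : C ≤ C')
    (ht : t ≤ t') (hs : ∀ sh ∈ shs, sh ∈ shs') : RF D B C' t' shs' f := by
  obtain ⟨ι, hι, α, w, τ, h1, h2, h3, h4⟩ := h
  refine ⟨ι, hι, α, w, τ, h1.trans hC, fun i => ?_, fun i x => (h3 i x).trans ht, h4⟩
  obtain ⟨sh, hsh, hf⟩ := h2 i
  exact ⟨sh, hs sh hsh, hf⟩

lemma RF.congr {D : Dat V M} {B C t : ℝ} {shs : List (List Sh)}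
    {f g : (V → ZMod M) → V → ZMod M → Finset V → ℝ} (h : RF D B C t shs f)
    (hfg : ∀ (h : V → ZMod M) (x : V) (a : ZMod M) (A : Finset V), A ⊆ outN D.O x →
      g h x a A = f h x a A) : RF D B C t shs g := by
  obtain ⟨ι, hι, α, w, τ, h1, h2, h3, h4⟩ := h
  exact ⟨ι, hι, α, w, τ, h1, h2, h3, fun h x a A hA => (hfg h x a A hA).trans (h4 h x a A hA)⟩

/-- finite linear combinations -/
lemma RF.sum {D : Dat V M} {B t : ℝ} {shs : List (List Sh)} {κ : Type} (J : Finset κ)
    (c : κ → ℝ) (C : ℝ) (f : κ → (V → ZMod M) → V → ZMod M → Finset V → ℝ)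
    (h : ∀ j ∈ J, RF D B C t shs (f j)) :
    RF D B ((∑ j ∈ J, |c j|) * C) t shs (fun h x a A => ∑ j ∈ J, c j * f j h x a A) := by
  choose ι hι α w τ h1 h2 h3 h4 using fun j : J => h j.1 j.2
  refine ⟨Σ j : J, ι j, inferInstance, fun p => c p.1 * α p.1 p.2, fun p => w p.1 p.2,
    fun p => τ p.1 p.2, ?_, fun p => h2 p.1 p.2, fun p => h3 p.1 p.2, fun h x a A hA => ?_⟩
  · rw [Fintype.sum_sigma]
    have : ∀ j : J, ∑ i, |c j * α j i| ≤ |c j| * C := by
      intro j
      simp only [abs_mul]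
      rw [← Finset.mul_sum]
      exact mul_le_mul_of_nonneg_left (h1 j) (abs_nonneg _)
    refine (Finset.sum_le_sum fun j _ => this j).trans ?_
    rw [← Finset.sum_mul, Finset.sum_coe_sort J fun j => |c j|]
  · rw [Fintype.sum_sigma]
    have : ∀ j : J, ∑ i, c j * α j i * Bas D.s (τ j i) (w j i) a x A h =
        c j * f j h x a A := by
      intro j
      rw [h4 j h x a A hA, Finset.mul_sum]
      exact Finset.sum_congr rfl fun i _ => mul_assoc _ _ _
    simp only [this]
    exact (Finset.sum_coe_sort J fun j => c j * f j h x a A).symm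

lemma RF.add {D : Dat V M} {B C C' t : ℝ} {shs : List (List Sh)}
    {f g : (V → ZMod M) → V → ZMod M → Finset V → ℝ} (hf : RF D B C t shs f)
    (hg : RF D B C' t shs g) :
    RF D B (C + C') t shs (fun h x a A => f h x a A + g h x a A) := by
  obtain ⟨ι, hι, α, w, τ, h1, h2, h3, h4⟩ := hf
  obtain ⟨ι', hι', α', w', τ', h1', h2', h3', h4'⟩ := hg
  refine ⟨ι ⊕ ι', inferInstance, Sum.elim α α', Sum.elim w w', Sum.elim τ τ', ?_, ?_, ?_, ?_⟩
  · rw [Fintype.sum_sum_type]
    exact add_le_add h1 h1'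
  · rintro (i | i)
    · exact h2 i
    · exact h2' i
  · rintro (i | i)
    · exact h3 i
    · exact h3' i
  · intro h x a A hA
    show f h x a A + g h x a A = _
    rw [Fintype.sum_sum_type, h4 h x a A hA, h4' h x a A hA]
    rfl

lemma RF.smul {D : Dat V M} {B C t : ℝ} {shs : List (List Sh)} (c : ℝ)
    {f : (V → ZMod M) → V → ZMod M → Finset V → ℝ} (hf : RF D B C t shs f) :
    RF D B (|c| * C) t shs (fun h x a A => c * f h x a A) := by
  have := RF.sum (D := D) (B := B) (t := t) (shs := shs) ({()} : Finset Unit) (fun _ => c) C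
    (fun _ => f) (fun _ _ => hf)
  simpa using this

/-- change of the label -/
lemma RF.shift {D : Dat V M} {B C t : ℝ} {shs : List (List Sh)}
    {f : (V → ZMod M) → V → ZMod M → Finset V → ℝ} (hf : RF D B C t shs f) (b : ZMod M) :
    RF D B C t shs (fun h x a A => f h x (a + b) A) := by
  obtain ⟨ι, hι, α, w, τ, h1, h2, h3, h4⟩ := hf
  refine ⟨ι, hι, α, fun i => (w i).map fun l => l.shift b, τ, h1, fun i => ?_, h3, ?_⟩
  · obtain ⟨sh, hsh, hw⟩ := h2 i
    exact ⟨sh, hsh, Fit_shift hw b⟩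
  · intro h x a A hA
    show f h x (a + b) A = _
    rw [h4 h x (a + b) A hA]
    exact Finset.sum_congr rfl fun i _ => by rw [Bas_shift]

lemma zeta_val (h : V → ZMod M) (y : V) (a i : ZMod M) :
    (Mk.zeta 1 i).val a (h y) = zt h y (a + i) := by
  simp only [Mk.val, zt, one_mul]

/-- one more letter `L` -/
lemma RF.gL {D : Dat V M} {B C t : ℝ} {shs : List (List Sh)}
    {f : (V → ZMod M) → V → ZMod M → Finset V → ℝ} (hf : RF D B C t shs f)
    (c : V → ℝ) (hc : ∀ x, |c x| ≤ B) (i : ZMod M) :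
    RF D B C t (shs.map fun sh => ⟨false, true, .zeta⟩ :: sh)
      (fun h x a A => (D.s : ℝ)⁻¹ * ∑ y ∈ outN D.O x \ A,
        zt h y (a + i) * (c x * f h x a (insert y A))) := by
  obtain ⟨ι, hι, α, w, τ, h1, h2, h3, h4⟩ := hf
  refine ⟨ι, hι, α, fun j => ⟨outN D.O, fun x _ => c x, true, .zeta 1 i⟩ :: w j, τ, h1,
    fun j => ?_, h3, ?_⟩
  · obtain ⟨sh, hsh, hw⟩ := h2 j
    refine ⟨⟨false, true, .zeta⟩ :: sh, List.mem_map.2 ⟨sh, hsh, rfl⟩, ?_⟩
    exact ⟨rfl, rfl, Or.inl rfl, fun x _ => hc x, hw⟩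
  · intro h x a A hA
    show (D.s : ℝ)⁻¹ * ∑ y ∈ outN D.O x \ A, zt h y (a + i) * (c x * f h x a (insert y A)) = _
    have e1 : ∀ y ∈ outN D.O x \ A, zt h y (a + i) * (c x * f h x a (insert y A)) =
        ∑ j, α j * (c x * zt h y (a + i) * Bas D.s (τ j) (w j) a x (insert y A) h) := by
      intro y hy
      have hA' : insert y A ⊆ outN D.O x := by
        intro z hz
        rcases Finset.mem_insert.1 hz with e | e
        · rw [e]; exact (Finset.mem_sdiff.1 hy).1
        · exact hA e
      rw [h4 h x a _ hA', Finset.mul_sum, Finset.mul_sum]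
      exact Finset.sum_congr rfl fun j _ => by ring
    rw [Finset.sum_congr rfl e1, Finset.sum_comm, Finset.mul_sum]
    refine Finset.sum_congr rfl fun j _ => ?_
    rw [← Finset.mul_sum]
    simp only [Bas, if_true, zeta_val]
    ring

lemma mem_outN {A : Set (V × V)} {x y : V} : y ∈ outN A x ↔ (x, y) ∈ A := by
  simp [outN]

/-- one more letter which moves to the new vertex -/
lemma RF.gM {D : Dat V M} {B C t : ℝ} {shs : List (List Sh)}
    {f : (V → ZMod M) → V → ZMod M → Finset V → ℝ} (hf : RF D.rev B C t shs f)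
    (c : V → ℝ) (hc : ∀ x, |c x| ≤ B) (i : ZMod M) (m : Mk M) (k : Kd) (hm : MkOk B m k) :
    RF D B C t (shs.map fun sh => ⟨false, false, k⟩ :: sh)
      (fun h x a A => (D.s : ℝ)⁻¹ * ∑ y ∈ outN D.O x \ A,
        m.val a (h y) * (c y * f (-h) y (-(a + i)) {x})) := by
  obtain ⟨ι, hι, α, w, τ, h1, h2, h3, h4⟩ := hf
  refine ⟨ι, hι, α, fun j => ⟨outN D.O, fun _ y => c y, false, m⟩ ::
    ((w j).map fun l => l.ref i), τ, h1, fun j => ?_, h3, ?_⟩
  · obtain ⟨sh, hsh, hw⟩ := h2 j
    refine ⟨⟨false, false, k⟩ :: sh, List.mem_map.2 ⟨sh, hsh, rfl⟩, ?_⟩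
    exact ⟨rfl, rfl, hm, fun _ y => hc y, Fit_ref hw i⟩
  · intro h x a A hA
    show (D.s : ℝ)⁻¹ * ∑ y ∈ outN D.O x \ A,
        m.val a (h y) * (c y * f (-h) y (-(a + i)) {x}) = _
    have e1 : ∀ y ∈ outN D.O x \ A, m.val a (h y) * (c y * f (-h) y (-(a + i)) {x}) =
        ∑ j, α j * (c y * m.val a (h y) *
          Bas D.s (τ j) ((w j).map fun l => l.ref i) a y {x} h) := by
      intro y hy
      have hA' : ({x} : Finset V) ⊆ outN D.rev.O y := by
        intro z hz
        rw [Finset.mem_singleton.1 hz]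
        have := (Finset.mem_sdiff.1 hy).1
        rw [mem_outN] at this ⊢
        exact this
      rw [h4 (-h) y _ _ hA', Finset.mul_sum, Finset.mul_sum]
      refine Finset.sum_congr rfl fun j _ => ?_
      have e : D.rev.s = D.s := rfl
      rw [Bas_ref, e]
      ring
    rw [Finset.sum_congr rfl e1, Finset.sum_comm, Finset.mul_sum]
    refine Finset.sum_congr rfl fun j _ => ?_
    rw [← Finset.mul_sum]
    simp only [Bas]
    simp only [Bool.false_eq_true, if_false]
    ring

end Pool.Agent.C4W
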