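import Pool.Agent.Helper53_C4W.Stm2
import Pool.Agent.Helper53_C4W.Exp

/-!
# BAS: assembly of the base
-/

set_option autoImplicit false

open scoped BigOperators Classical

noncomputable section

namespace Pool.Agent.C4W

/-- an arc of `R` which is not left over lies in exactly one group -/
lemma first_group {V : Type} {M : ℕ} {R : Set (V × V)} {H : V → Fin 40 → ZMod M} {p : V × V}
    (hp : p ∈ R) (hn : p ∉ Rg R H 40) :
    ∃ g : Fin 40, p ∈ Rg R H g ∧ H p.2 g - H p.1 g ≠ 0 := by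
  have h1 : ∃ n : ℕ, ∃ h : n < 40, H p.1 ⟨n, h⟩ ≠ H p.2 ⟨n, h⟩ := by
    by_contra hc
    push Not at hc
    exact hn ⟨hp, fun i _ => hc i.1 i.2⟩
  obtain ⟨h, hne⟩ := Nat.find_spec h1
  refine ⟨⟨Nat.find h1, h⟩, ⟨hp, fun i hi => ?_⟩, sub_ne_zero.2 hne.symm⟩
  by_contra hc
  exact Nat.find_min h1 hi ⟨i.2, hc⟩

/-- BAS -/
theorem bas (hL : LLAStmt) (hA : ASMStmt) : BASStmt := by
  intro c hc hc'
  obtain ⟨k1, h1⟩ := hL c hc hc'
  obtain ⟨k2, h2⟩ := hA c hc hc'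
  refine ⟨max k1 k2, fun k M s q _ _ hk hp V _ N k' X hX => ?_⟩
  obtain ⟨H, hH⟩ := h1 k M s q (le_trans (le_max_left _ _) hk) hp V N k' X hX
  refine ⟨H, fun p hpR => ?_, fun g d hd =>
    h2 k M s q (le_trans (le_max_right _ _) hk) hp V N k' X hX H hH g d hd⟩
  have hn : p ∉ Rg X.R H 40 := by
    intro hm
    have h3 := (hH p.1).zr
    have h4 : p.2 ∈ outN (Rg X.R H 40) p.1 := mem_outN.2 hm
    rw [h3] at h4
    exact absurd h4 (Finset.notMem_empty _)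
  obtain ⟨g, hg, h0⟩ := first_group hpR hn
  obtain ⟨d, hd, hdI⟩ := hX.Bc _ h0
  exact ⟨g, d, hd, hg, hdI⟩

end Pool.Agent.C4W
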