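import Pool.Agent.Helper53_C4W.Defs

/-!
# The cavity property of all word fields
-/

set_option autoImplicit false

open scoped BigOperators Classical

noncomputable section

namespace Pool.Agent.C4W

variable {V : Type} [Fintype V] {M : ℕ}

/-- exchange of two different excluded neighbours -/
lemma swap_sum (N A : Finset V) (f : V → V → ℝ) :
    ∑ y ∈ N \ A, ∑ z ∈ N \ insert y A, f y z = ∑ z ∈ N \ A, ∑ y ∈ N \ insert z A, f y z := by
  have key : ∀ g : V → V → ℝ, ∑ y ∈ N \ A, ∑ z ∈ N \ insert y A, g y z =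
      ∑ y ∈ N \ A, ∑ z ∈ N \ A, if y = z then 0 else g y z := by
    intro g
    refine Finset.sum_congr rfl fun y hy => ?_
    rw [← Finset.sum_filter_add_sum_filter_not (N \ A) (fun z => y = z)]
    have h1 : ∑ z ∈ (N \ A).filter (fun z => y = z), (if y = z then 0 else g y z) = 0 := by
      refine Finset.sum_eq_zero fun z hz => ?_
      rw [Finset.mem_filter] at hz
      simp [hz.2]
    have h2 : (N \ A).filter (fun z => ¬ y = z) = N \ insert y A := by
      ext z
      simp only [Finset.mem_filter, Finset.mem_sdiff, Finset.mem_insert]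
      constructor
      · rintro ⟨⟨a, b⟩, c⟩
        exact ⟨a, fun h => by rcases h with h | h; exacts [c h.symm, b h]⟩
      · rintro ⟨a, b⟩
        exact ⟨⟨a, fun h => b (Or.inr h)⟩, fun h => b (Or.inl h.symm)⟩
    rw [h1, zero_add, h2]
    refine Finset.sum_congr rfl fun z hz => ?_
    have : y ≠ z := by
      intro h
      subst h
      simp at hz
    simp [this]
  rw [key, key (fun z y => f y z), Finset.sum_comm]
  refine Finset.sum_congr rfl fun z _ => Finset.sum_congr rfl fun y _ => ?_
  by_cases h : y = z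
  · simp [h]
  · have h' : z ≠ y := fun e => h e.symm
    simp [h, h']

lemma card_sdiff_insert (N A : Finset V) (hA : A ⊆ N) (y : V) (hy : y ∈ N \ A) :
    ((N \ insert y A).card : ℝ) = (N.card : ℝ) - A.card - 1 := by
  have h1 : insert y A ⊆ N := by
    intro z hz
    rcases Finset.mem_insert.1 hz with h | h
    · rw [h]; exact (Finset.mem_sdiff.1 hy).1
    · exact hA h
  have h2 : (N \ insert y A).card + (insert y A).card = N.card := Finset.card_sdiff_add_card_eq_card h1
  have h3 : (insert y A).card = A.card + 1 := Finset.card_insert_of_notMem (Finset.mem_sdiff.1 hy).2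
  have h4 : ((N \ insert y A).card : ℝ) + ((A.card : ℝ) + 1) = N.card := by
    rw [h3] at h2
    exact_mod_cast h2
  linarith

/-- each child is counted for all other values of the excluded vertex -/
lemma count_sum (N A : Finset V) (hA : A ⊆ N) (f : V → ℝ) :
    ∑ y ∈ N \ A, ∑ z ∈ N \ insert y A, f z =
      ((N.card : ℝ) - A.card - 1) * ∑ z ∈ N \ A, f z := by
  rw [swap_sum N A (fun _ z => f z), Finset.mul_sum]
  refine Finset.sum_congr rfl fun z hz => ?_
  rw [Finset.sum_const, nsmul_eq_mul, card_sdiff_insert N A hA z hz]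

lemma card_sdiff_real (N A : Finset V) (hA : A ⊆ N) :
    ((N \ A).card : ℝ) = (N.card : ℝ) - A.card := by
  have h2 : (N \ A).card + A.card = N.card := Finset.card_sdiff_add_card_eq_card hA
  have h4 : ((N \ A).card : ℝ) + (A.card : ℝ) = N.card := by exact_mod_cast h2
  linarith

lemma cav_fER : Cav (V := V) (M := M) 0 fER := by
  intro D h x a A hA
  simp only [fER]
  rw [Finset.sum_const, nsmul_eq_mul, card_sdiff_real _ _ hA]
  simp

lemma cav_fF : Cav (V := V) (M := M) 0 fF := by
  intro D h x a A hA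
  simp only [fF]
  rw [Finset.sum_const, nsmul_eq_mul, card_sdiff_real _ _ hA]
  simp

/-- general form for a sum over the children of the root whose summand does not see `A` -/
lemma cav_one (c : Dat V M → V → ℝ) (f : Dat V M → (V → ZMod M) → V → ZMod M → V → ℝ) :
    Cav (V := V) (M := M) 1
      (fun D h x a A => c D x * ∑ y ∈ outN D.O x \ A, f D h x a y) := by
  intro D h x a A hA
  rw [← Finset.mul_sum, count_sum _ _ hA]
  push_cast
  ring

lemma cav_fEO : Cav (V := V) (M := M) 1 fEO :=
  cav_one (fun D _ => D.Z⁻¹) (fun D h x a y => ∑ i ∈ D.I, D.β x y * zt h y (a + i))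

lemma cav_U (r : ℕ) (F : Fld V M) : Cav 1 (opU r F) :=
  cav_one (fun D _ => D.Z⁻¹) (fun D h x a y => ∑ i ∈ D.I,
    zt h y (a + i) * (D.rev.kap r y * F D.rev (-h) y (-(a + i)) {x}))

lemma cav_P (r : ℕ) (F : Fld V M) : Cav 1 (opP r F) :=
  cav_one (fun D _ => D.Z⁻¹) (fun D h x a y => ∑ i ∈ D.I,
    (D.rev.kap r y * F D.rev (-h) y (-(a + i)) {x}))

lemma cav_Ups (r : ℕ) (T : Fld V M) : Cav 1 (opUps r T) :=
  cav_one (fun D _ => D.Z⁻¹) (fun D h x a y => (zt h y (a + D.i2) - zt h y (a + D.i1)) *
    (D.I.card * D.rev.kap r y * T D.rev (-h) y (-(a + D.i2)) {x}))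

lemma sum_child {r : ℕ} {F : Fld V M} (hF : Cav r F) (D : Dat V M) (h : V → ZMod M) (x : V)
    (a : ZMod M) (A : Finset V) (hA : A ⊆ outN D.O x) (z : V) (hz : z ∈ outN D.O x \ A) :
    ∑ y ∈ outN D.O x \ insert z A, F D h x a (insert y (insert z A)) =
      (((outN D.O x).card : ℝ) - A.card - 1 - r) * F D h x a (insert z A) := by
  have h1 : insert z A ⊆ outN D.O x := by
    intro w hw
    rcases Finset.mem_insert.1 hw with h' | h'
    · rw [h']; exact (Finset.mem_sdiff.1 hz).1
    · exact hA h'
  rw [hF D h x a _ h1, Finset.card_insert_of_notMem (Finset.mem_sdiff.1 hz).2]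
  push_cast
  ring

lemma cav_L {r : ℕ} {F : Fld V M} (hF : Cav r F) : Cav (r + 1) (opL r F) := by
  intro D h x a A hA
  simp only [opL]
  rw [← Finset.mul_sum, swap_sum]
  have hc : ∀ z ∈ outN D.O x \ A, ∑ y ∈ outN D.O x \ insert z A, ∑ i ∈ D.I,
      zt h z (a + i) * (D.kap r x * F D h x a (insert z (insert y A))) =
      (((outN D.O x).card : ℝ) - A.card - (r + 1)) *
        ∑ i ∈ D.I, zt h z (a + i) * (D.kap r x * F D h x a (insert z A)) := by
    intro z hz
    rw [Finset.sum_comm, Finset.mul_sum]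
    refine Finset.sum_congr rfl fun i _ => ?_
    rw [← Finset.mul_sum, ← Finset.mul_sum]
    have := sum_child hF D h x a A hA z hz
    have h2 : ∑ y ∈ outN D.O x \ insert z A, F D h x a (insert z (insert y A)) =
        ∑ y ∈ outN D.O x \ insert z A, F D h x a (insert y (insert z A)) :=
      Finset.sum_congr rfl fun y _ => by rw [Finset.insert_comm]
    rw [h2, this]
    ring
  rw [Finset.sum_congr rfl hc, ← Finset.mul_sum]
  push_cast
  ring

lemma cav_Lam {r : ℕ} {T : Fld V M} (hT : Cav r T) : Cav (r + 1) (opLam r T) := by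
  intro D h x a A hA
  simp only [opLam]
  rw [← Finset.mul_sum, swap_sum]
  have hc : ∀ z ∈ outN D.O x \ A, ∑ y ∈ outN D.O x \ insert z A,
      (D.I.card * D.kap r x) * (zt h z (a + D.i2) * T D h x a (insert z (insert y A)) -
        zt h z (a + D.i1) * T D h x (a - D.rho) (insert z (insert y A))) =
      (((outN D.O x).card : ℝ) - A.card - (r + 1)) *
        ((D.I.card * D.kap r x) * (zt h z (a + D.i2) * T D h x a (insert z A) -
        zt h z (a + D.i1) * T D h x (a - D.rho) (insert z A))) := by
    intro z hz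
    rw [← Finset.mul_sum, Finset.sum_sub_distrib, ← Finset.mul_sum, ← Finset.mul_sum]
    have h2 : ∀ b, ∑ y ∈ outN D.O x \ insert z A, T D h x b (insert z (insert y A)) =
        (((outN D.O x).card : ℝ) - A.card - 1 - r) * T D h x b (insert z A) := by
      intro b
      rw [← sum_child hT D h x b A hA z hz]
      exact Finset.sum_congr rfl fun y _ => by rw [Finset.insert_comm]
    rw [h2, h2]
    ring
  rw [Finset.sum_congr rfl hc, ← Finset.mul_sum]
  push_cast
  ring

lemma cav_add {r : ℕ} {F G : Fld V M} (hF : Cav r F) (hG : Cav r G) :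
    Cav r (fun D h x a A => F D h x a A + G D h x a A) := by
  intro D h x a A hA
  rw [Finset.sum_add_distrib, hF D h x a A hA, hG D h x a A hA]
  ring

/-- a sum of fields at other labels -/
lemma cav_lab {r : ℕ} {F : Fld V M} (hF : Cav r F) {ι : Type}
    (S : Dat V M → ZMod M → Finset ι) (c : Dat V M → ZMod M → ι → ℝ)
    (b : Dat V M → ZMod M → ι → ZMod M) :
    Cav r (fun D h x a A => ∑ j ∈ S D a, c D a j * F D h x (b D a j) A) := by
  intro D h x a A hA
  rw [Finset.sum_comm, Finset.mul_sum]
  refine Finset.sum_congr rfl fun j _ => ?_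
  rw [← Finset.mul_sum, hF D h x _ A hA]
  ring

lemma cav_T {r : ℕ} {F : Fld V M} (hF : Cav r F) : Cav r (opT F) := by
  have := cav_lab hF (fun D a => Finset.range ((a * D.rho⁻¹).val + 1)) (fun _ _ _ => 1)
    (fun D _ j => (j : ZMod M) * D.rho)
  simp only [one_mul] at this
  exact this

lemma cav_Tw {r : ℕ} {F : Fld V M} (hF : Cav r F) (q : ℕ) : Cav r (opTw q F) :=
  cav_lab hF (fun _ _ => Finset.range q) (fun _ _ j => 1 - ((j : ℝ) + 1) / q)
    (fun D a j => a - (j : ZMod M) * D.rho)

lemma cav_sumF {r : ℕ} (l : List Wd) (hl : ∀ w ∈ l, Cav r (fld (V := V) (M := M) w)) :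
    Cav r (sumF (V := V) (M := M) l) := by
  induction l with
  | nil =>
    intro D h x a A hA
    simp [sumF]
  | cons w l ih =>
    have h1 := hl w (by simp)
    have h2 := ih fun v hv => hl v (by simp [hv])
    have := cav_add h1 h2
    intro D h x a A hA
    have h3 := this D h x a A hA
    simpa [sumF] using h3

lemma cav_gE : Cav 1 (gE (V := V) (M := M)) := cav_add (cav_P _ _) (cav_P _ _)

lemma cav_fld (w : Wd) : Cav w.r (fld (V := V) (M := M) w) := by
  induction w with
  | eR => exact cav_fER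
  | eO => exact cav_fEO
  | f => exact cav_fF
  | lam => exact cav_Lam (cav_T cav_gE)
  | ups => exact cav_Ups _ _
  | L w ih => exact cav_L ih
  | U w _ => exact cav_U _ _
  | P w _ => exact cav_P _ _

lemma cav_g2 : Cav 1 (g2 (V := V) (M := M)) := by
  refine cav_sumF _ fun w hw => ?_
  obtain ⟨v, _, rfl⟩ := List.mem_map.1 hw
  exact cav_fld (.P v)

end Pool.Agent.C4W
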