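import Mathlib

/-!
# Word fields of a random labelling: definitions

Text: `/team-store/PAPER_C4_WORDS.md` (helper82), in the weighted form (irregular optional degrees,
base weights `β x y`).  `D : Dat V M` are the data of one host: forced arcs `R`, optional arcs `O`,
nominal degree `s`, base weights `β x y`, increments `I` with two distinguished elements `i1`, `i2`,
label free fields `fp`, `fm`.  `h : V → ZMod M` is the labelling.  The host consists of the arcs
`(x, y)` with `h y - h x ∈ I`.  A field is a function of the data, the labelling, a vertex `x`, a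
label `a` and a set `A` of excluded neighbours.  All objects are defined for tails; the objects for
heads are those of the reversed data `D.rev` with the labelling `-h`.
-/

set_option autoImplicit false

open scoped BigOperators Classical

noncomputable section

namespace Pool.Agent.C4W

/-- The data of a host. -/
structure Dat (V : Type) (M : ℕ) where
  R : Set (V × V)
  O : Set (V × V)
  s : ℕ
  β : V → V → ℝ
  I : Finset (ZMod M)
  i1 : ZMod M
  i2 : ZMod M
  fp : V → ℝ
  fm : V → ℝ

variable {V : Type} [Fintype V] {M : ℕ}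

/-- reversal -/
def Dat.rev (D : Dat V M) : Dat V M :=
  { D with R := Prod.swap ⁻¹' D.R, O := Prod.swap ⁻¹' D.O, β := fun x y => D.β y x,
           fp := D.fm, fm := D.fp }

/-- out-neighbours -/
def outN (A : Set (V × V)) (x : V) : Finset V := Finset.univ.filter fun y => (x, y) ∈ A

/-- the normalisation `|I| s` -/
def Dat.Z (D : Dat V M) : ℝ := D.I.card * D.s

/-- `i2 - i1` -/
def Dat.rho (D : Dat V M) : ZMod M := D.i2 - D.i1

/-- `ζ_v(l)` -/
def zt (h : V → ZMod M) (v : V) (l : ZMod M) : ℝ := (if h v = l then (M : ℝ) else 0) - 1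

/-- the coefficient of an own correction -/
def Dat.kap (D : Dat V M) (r : ℕ) (x : V) : ℝ := - (D.s : ℝ) / ((outN D.O x).card - r)

/-- fields -/
abbrev Fld (V : Type) (M : ℕ) :=
  Dat V M → (V → ZMod M) → V → ZMod M → Finset V → ℝ

/-- terminal `E_R` -/
def fER : Fld V M := fun D h x a _ =>
  D.Z⁻¹ * ∑ y ∈ outN D.R x, ∑ i ∈ D.I, zt h y (a + i)

/-- terminal `E_O` -/
def fEO : Fld V M := fun D h x a A =>
  D.Z⁻¹ * ∑ y ∈ outN D.O x \ A, ∑ i ∈ D.I, D.β x y * zt h y (a + i)

/-- terminal `f` -/
def fF : Fld V M := fun D _ x _ _ => D.fp x / D.s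

/-- the letter `L` -/
def opL (r : ℕ) (F : Fld V M) : Fld V M := fun D h x a A =>
  D.Z⁻¹ * ∑ y ∈ outN D.O x \ A, ∑ i ∈ D.I,
    zt h y (a + i) * (D.kap r x * F D h x a (insert y A))

/-- the letter `U` -/
def opU (r : ℕ) (F : Fld V M) : Fld V M := fun D h x a A =>
  D.Z⁻¹ * ∑ y ∈ outN D.O x \ A, ∑ i ∈ D.I,
    zt h y (a + i) * (D.rev.kap r y * F D.rev (-h) y (-(a + i)) {x})

/-- the letter `P` -/
def opP (r : ℕ) (F : Fld V M) : Fld V M := fun D h x a A =>
  D.Z⁻¹ * ∑ y ∈ outN D.O x \ A, ∑ i ∈ D.I,
    (D.rev.kap r y * F D.rev (-h) y (-(a + i)) {x})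

/-- full flux potential -/
def opT (F : Fld V M) : Fld V M := fun D h x a A =>
  ∑ j ∈ Finset.range ((a * D.rho⁻¹).val + 1), F D h x (j * D.rho) A

/-- window flux potential -/
def opTw (q : ℕ) (F : Fld V M) : Fld V M := fun D h x a A =>
  ∑ j ∈ Finset.range q, (1 - ((j : ℝ) + 1) / q) * F D h x (a - j * D.rho) A

/-- window average -/
def opW (q : ℕ) (F : Fld V M) : Fld V M := fun D h x a A =>
  (q : ℝ)⁻¹ * ∑ j ∈ Finset.range q, F D h x (a - j * D.rho) A

/-- noise of a flux, tail part -/
def opLam (r : ℕ) (T : Fld V M) : Fld V M := fun D h x a A =>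
  D.Z⁻¹ * ∑ y ∈ outN D.O x \ A, (D.I.card * D.kap r x) *
    (zt h y (a + D.i2) * T D h x a (insert y A) -
      zt h y (a + D.i1) * T D h x (a - D.rho) (insert y A))

/-- noise of a flux, head part -/
def opUps (r : ℕ) (T : Fld V M) : Fld V M := fun D h x a A =>
  D.Z⁻¹ * ∑ y ∈ outN D.O x \ A, (zt h y (a + D.i2) - zt h y (a + D.i1)) *
    (D.I.card * D.rev.kap r y * T D.rev (-h) y (-(a + D.i2)) {x})

/-- the weight which a flux puts on the host arc `(x, y)` with label `a` at `x` and step `i` -/
def flx (r : ℕ) (T : Fld V M) (D : Dat V M) (h : V → ZMod M) (x y : V) (a i : ZMod M) : ℝ :=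
  D.I.card * D.kap r x *
    (if i = D.i2 then T D h x a {y} else if i = D.i1 then - T D h x (a - D.rho) {y} else 0)

/-- the cavity property with defect `r` -/
def Cav (r : ℕ) (F : Fld V M) : Prop :=
  ∀ (D : Dat V M) (h : V → ZMod M) (x : V) (a : ZMod M) (A : Finset V), A ⊆ outN D.O x →
    ∑ y ∈ outN D.O x \ A, F D h x a (insert y A) =
      (((outN D.O x).card : ℝ) - A.card - r) * F D h x a A

/-- indicator of the host -/
def Xi (D : Dat V M) (h : V → ZMod M) (x y : V) : ℝ := if h y - h x ∈ D.I then 1 else 0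

/-- `(M/Z) ∑` over the optional host arcs with tail `x` -/
def rowO (D : Dat V M) (h : V → ZMod M) (x : V) (g : V → ℝ) : ℝ :=
  (M : ℝ) / D.Z * ∑ y ∈ outN D.O x, Xi D h x y * g y

/-- words -/
inductive Wd where
  | eR : Wd
  | eO : Wd
  | f : Wd
  | lam : Wd
  | ups : Wd
  | L : Wd → Wd
  | U : Wd → Wd
  | P : Wd → Wd

/-- the defect of a word -/
def Wd.r : Wd → ℕ
  | .eR => 0
  | .eO => 1
  | .f => 0
  | .lam => 2
  | .ups => 1
  | .L w => w.r + 1
  | .U _ => 1
  | .P _ => 1

/-- the first order flux field -/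
def gE : Fld V M := fun D h x a A => opP 0 fER D h x a A + opP 1 fEO D h x a A

/-- the field of a word -/
def fld : Wd → Fld V M
  | .eR => fER
  | .eO => fEO
  | .f => fF
  | .lam => opLam 1 (opT gE)
  | .ups => opUps 1 (opT gE)
  | .L w => opL w.r (fld w)
  | .U w => opU w.r (fld w)
  | .P w => opP w.r (fld w)

/-- `L` and `U` in front of all words of a list -/
def LU (l : List Wd) : List Wd := l.map Wd.L ++ l.map Wd.U

/-- words of order 1 -/
def W1 : List Wd := [.eR, .eO]
/-- words of order 2 without `f` -/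
def W2' : List Wd := LU W1
/-- words of order 2 -/
def W2 : List Wd := .f :: W2'
/-- words of order 3 -/
def W3 : List Wd := .lam :: .ups :: LU W2
/-- words of order 4 -/
def W4 : List Wd := LU W3
/-- words of order 5 -/
def W5 : List Wd := LU W4
/-- all words with an own correction -/
def Wown : List Wd := W1 ++ W2 ++ W3 ++ W4

/-- sum of the fields of a list of words -/
def sumF (l : List Wd) : Fld V M := fun D h x a A => (l.map fun w => fld w D h x a A).sum

/-- the second order flux field -/
def g2 : Fld V M := sumF (W2'.map Wd.P)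

/-- half of the weight of a host arc: the part which belongs to its tail -/
def half (q : ℕ) (D : Dat V M) (h : V → ZMod M) (x y : V) : ℝ :=
  (Wown.map fun w => D.kap w.r x * fld w D h x (h x) {y}).sum +
    flx 1 (opT gE) D h x y (h x) (h y - h x) + flx 1 (opTw q g2) D h x y (h x) (h y - h x)

/-- the weight of a host arc -/
def wgt (q : ℕ) (D : Dat V M) (h : V → ZMod M) (x y : V) : ℝ :=
  D.β x y + half q D h x y + half q D.rev (-h) y x

/-- the error -/
def err (q : ℕ) (D : Dat V M) (h : V → ZMod M) (x : V) : ℝ :=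
  sumF W5 D h x (h x) ∅ + fld (.P .f) D h x (h x) ∅ + sumF (W3.map Wd.P) D h x (h x) ∅ +
    sumF (W4.map Wd.P) D h x (h x) ∅ + opW q g2 D h x (h x) ∅ +
    opLam 1 (opTw q g2) D h x (h x) ∅ + opUps 1 (opTw q g2) D h x (h x) ∅

end Pool.Agent.C4W
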