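import Pool.Agent.Helper53_C4W.Exp

/-!
# Expansion of all word fields
-/

set_option autoImplicit false

open scoped BigOperators Classical

noncomputable section

namespace Pool.Agent.C4W

variable {V : Type} [Fintype V] {M : ℕ} [NeZero M]

def zL : Sh := ⟨false, true, .zeta⟩
def zM : Sh := ⟨false, false, .zeta⟩
def pM : Sh := ⟨false, false, .one⟩
def rZ : Sh := ⟨true, true, .zeta⟩
def oPhi : Sh := ⟨false, true, .phi⟩
def rPhi : Sh := ⟨true, true, .phi⟩

/-- shapes of the full flux potential -/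
def shT : List (List Sh) := [[pM, rPhi], [pM, oPhi]]

/-- the shapes of a word -/
def Wd.shapes : Wd → List (List Sh)
  | .eR => [[rZ]]
  | .eO => [[zL]]
  | .f => [[]]
  | .lam => shT.map (zL :: ·)
  | .ups => shT.map (zM :: ·)
  | .L w => w.shapes.map (zL :: ·)
  | .U w => w.shapes.map (zM :: ·)
  | .P w => w.shapes.map (pM :: ·)

/-- all proper subwords have defect at most 5 -/
def Wd.good : Wd → Bool
  | .eR => true
  | .eO => true
  | .f => true
  | .lam => true
  | .ups => true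
  | .L w => decide (w.r ≤ 5) && w.good
  | .U w => decide (w.r ≤ 5) && w.good
  | .P w => decide (w.r ≤ 5) && w.good

/-- the word ends with `f` -/
def Wd.hasf : Wd → Bool
  | .eR => false
  | .eO => false
  | .f => true
  | .lam => false
  | .ups => false
  | .L w => w.hasf
  | .U w => w.hasf
  | .P w => w.hasf

/-- standing assumptions on the data: `B ≥ 1` bounds all weights, `T0` bounds `f/s` -/
structure Std (D0 : Dat V M) (B T0 : ℝ) : Prop where
  hs : 0 < D0.s
  hI : D0.I.Nonempty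
  disj : Disjoint D0.R D0.O
  hβ : ∀ x y, |D0.β x y| ≤ B
  hkp : ∀ x r, r ≤ 5 → D0.I.card * |D0.kap r x| ≤ B
  hkm : ∀ x r, r ≤ 5 → D0.I.card * |D0.rev.kap r x| ≤ B
  hB : 1 ≤ B
  hfp : ∀ x, |D0.fp x / D0.s| ≤ T0
  hfm : ∀ x, |D0.fm x / D0.s| ≤ T0

omit [NeZero M] in
lemma rev_rev (D : Dat V M) : D.rev.rev = D := rfl

omit [NeZero M] in
lemma Std.rev {D0 : Dat V M} {B T0 : ℝ} (h : Std D0 B T0) : Std D0.rev B T0 where
  hs := h.hs
  hI := h.hI
  disj := by
    rw [Set.disjoint_left]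
    intro p hp hq
    exact (Set.disjoint_left.1 h.disj) hp hq
  hβ := fun x y => h.hβ y x
  hkp := h.hkm
  hkm := h.hkp
  hB := h.hB
  hfp := h.hfm
  hfm := h.hfp

omit [NeZero M] in
lemma Std.cpos {D : Dat V M} {B T0 : ℝ} (h : Std D B T0) : 0 < (D.I.card : ℝ) := by
  have := Finset.card_pos.2 h.hI
  exact_mod_cast this

omit [NeZero M] in
lemma Std.one_le {D : Dat V M} {B T0 : ℝ} (h : Std D B T0) : 1 ≤ (D.I.card : ℝ) := by
  have := Finset.card_pos.2 h.hI
  exact_mod_cast this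

omit [NeZero M] in
lemma Std.kp {D : Dat V M} {B T0 : ℝ} (h : Std D B T0) (x : V) {r : ℕ} (hr : r ≤ 5) :
    |D.kap r x| ≤ B := by
  have h1 := h.hkp x r hr
  have h2 := h.one_le
  nlinarith [abs_nonneg (D.kap r x)]

omit [NeZero M] in
lemma Std.Zinv {D : Dat V M} {B T0 : ℝ} (_ : Std D B T0) :
    D.Z⁻¹ = (D.I.card : ℝ)⁻¹ * (D.s : ℝ)⁻¹ := by
  unfold Dat.Z
  rw [mul_inv]

/-- average over the steps -/
lemma RF.avg {D : Dat V M} {B T0 C t : ℝ} (hD : Std D B T0) {shs : List (List Sh)}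
    (f : ZMod M → (V → ZMod M) → V → ZMod M → Finset V → ℝ)
    (h : ∀ i ∈ D.I, RF D B C t shs (f i)) :
    RF D B C t shs (fun h x a A => ∑ i ∈ D.I, (D.I.card : ℝ)⁻¹ * f i h x a A) := by
  have h1 := RF.sum D.I (fun _ => (D.I.card : ℝ)⁻¹) C f h
  have h2 : (∑ _i ∈ D.I, |(D.I.card : ℝ)⁻¹|) * C = C := by
    rw [Finset.sum_const, nsmul_eq_mul, abs_of_nonneg (by positivity),
      mul_inv_cancel₀ hD.cpos.ne', one_mul]
  rw [h2] at h1
  exact h1

/-- a constant terminal -/
lemma RF.const {D : Dat V M} {B t : ℝ} (f : V → ℝ) (hf : ∀ x, |f x| ≤ t) :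
    RF D B 1 t [[]] (fun _ x _ _ => f x) := by
  refine ⟨Unit, inferInstance, fun _ => 1, fun _ => [], fun _ => f, by simp, fun _ => ?_,
    fun _ x => hf x, fun h x a A _ => ?_⟩
  · exact ⟨[], by simp, trivial⟩
  · simp [Bas]

/-- one letter with arbitrary weight in front of the terminal `1` -/
lemma RF.term {D : Dat V M} {B T0 : ℝ} (hD : Std D B T0) (isR : Bool) (om : V → V → ℝ)
    (hom : ∀ x y, |om x y| ≤ B) (m : Mk M) (k : Kd) (hm : MkOk B m k) :
    RF D B 1 1 [[⟨isR, true, k⟩]]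
      (fun h x a A => (D.s : ℝ)⁻¹ *
        ∑ y ∈ (if isR then outN D.R x else outN D.O x \ A), om x y * m.val a (h y)) := by
  refine ⟨Unit, inferInstance, fun _ => 1,
    fun _ => [⟨if isR then outN D.R else outN D.O, om, true, m⟩], fun _ _ => 1, by simp,
    fun _ => ?_, fun _ _ => by simp, fun h x a A hA => ?_⟩
  · exact ⟨_, List.mem_singleton.2 rfl, rfl, rfl, hm, hom, trivial⟩
  · simp only [Finset.univ_unique, Finset.sum_singleton, one_mul, Bas, if_true, mul_one]
    congr 1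
    cases isR with
    | true =>
      simp only [if_true]
      have : outN D.R x \ A = outN D.R x := by
        rw [Finset.sdiff_eq_self_iff_disjoint, Finset.disjoint_left]
        intro y hy hyA
        have h1 := mem_outN.1 hy
        have h2 := mem_outN.1 (hA hyA)
        exact Set.disjoint_left.1 hD.disj h1 h2
      rw [this]
    | false => simp only [Bool.false_eq_true, if_false]

lemma rf_ER {D : Dat V M} {B T0 : ℝ} (hD : Std D B T0) :
    RF D B 1 1 [[rZ]] (fER D) := by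
  have h1 := RF.avg hD (B := B) (C := 1) (t := 1) (shs := [[rZ]])
    (fun i h x a A => (D.s : ℝ)⁻¹ *
        ∑ y ∈ (if true then outN D.R x else outN D.O x \ A),
          (fun _ _ => (1 : ℝ)) x y * (Mk.zeta 1 i).val a (h y))
    (fun i _ => RF.term hD true (fun _ _ => 1) (fun _ _ => by simpa using hD.hB) _ _
      (Or.inl rfl))
  refine h1.congr fun h x a A hA => ?_
  simp only [fER, hD.Zinv, if_true, one_mul, zeta_val]
  rw [Finset.sum_comm, Finset.mul_sum]
  refine Finset.sum_congr rfl fun i _ => ?_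
  ring

lemma rf_EO {D : Dat V M} {B T0 : ℝ} (hD : Std D B T0) :
    RF D B 1 1 [[zL]] (fEO D) := by
  have h1 := RF.avg hD (B := B) (C := 1) (t := 1) (shs := [[zL]])
    (fun i h x a A => (D.s : ℝ)⁻¹ *
        ∑ y ∈ (if false then outN D.R x else outN D.O x \ A),
          D.β x y * (Mk.zeta 1 i).val a (h y))
    (fun i _ => RF.term hD false D.β hD.hβ _ _ (Or.inl rfl))
  refine h1.congr fun h x a A hA => ?_
  simp only [fEO, hD.Zinv, Bool.false_eq_true, if_false, zeta_val]
  rw [Finset.sum_comm, Finset.mul_sum]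
  refine Finset.sum_congr rfl fun i _ => ?_
  ring

lemma rf_L {D : Dat V M} {B T0 C t : ℝ} (hD : Std D B T0) {shs : List (List Sh)} {F : Fld V M}
    (hF : RF D B C t shs (F D)) {r : ℕ} (hr : r ≤ 5) :
    RF D B C t (shs.map (zL :: ·)) (opL r F D) := by
  have h1 := RF.avg hD (B := B) (C := C) (t := t) (shs := shs.map (zL :: ·))
    (fun i h x a A => (D.s : ℝ)⁻¹ * ∑ y ∈ outN D.O x \ A,
        zt h y (a + i) * (D.kap r x * F D h x a (insert y A)))
    (fun i _ => RF.gL hF (fun x => D.kap r x) (fun x => hD.kp x hr) i)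
  refine h1.congr fun h x a A hA => ?_
  simp only [opL, hD.Zinv]
  rw [Finset.sum_comm, Finset.mul_sum]
  refine Finset.sum_congr rfl fun i _ => ?_
  ring

lemma rf_M {D : Dat V M} {B T0 C t : ℝ} (hD : Std D B T0) {shs : List (List Sh)} {F : Fld V M}
    (hF : RF D.rev B C t shs (F D.rev)) {r : ℕ} (hr : r ≤ 5) (m : ZMod M → Mk M) (k : Kd)
    (hm : ∀ i, MkOk B (m i) k) :
    RF D B C t (shs.map (⟨false, false, k⟩ :: ·)) (fun h x a A =>
      D.Z⁻¹ * ∑ y ∈ outN D.O x \ A, ∑ i ∈ D.I,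
        ((m i).val a (h y) * (D.rev.kap r y * F D.rev (-h) y (-(a + i)) {x}))) := by
  have h1 := RF.avg hD (B := B) (C := C) (t := t)
    (shs := shs.map (⟨false, false, k⟩ :: ·))
    (fun i h x a A => (D.s : ℝ)⁻¹ * ∑ y ∈ outN D.O x \ A,
        (m i).val a (h y) * (D.rev.kap r y * F D.rev (-h) y (-(a + i)) {x}))
    (fun i _ => RF.gM hF (fun x => D.rev.kap r x) (fun x => hD.rev.kp x hr) i _ k (hm i))
  refine h1.congr fun h x a A hA => ?_
  rw [hD.Zinv, Finset.sum_comm, Finset.mul_sum]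
  refine Finset.sum_congr rfl fun i _ => ?_
  ring

lemma rf_U {D : Dat V M} {B T0 C t : ℝ} (hD : Std D B T0) {shs : List (List Sh)} {F : Fld V M}
    (hF : RF D.rev B C t shs (F D.rev)) {r : ℕ} (hr : r ≤ 5) :
    RF D B C t (shs.map (zM :: ·)) (opU r F D) := by
  refine (rf_M hD hF hr (fun i => Mk.zeta 1 i) .zeta fun i => Or.inl rfl).congr
    fun h x a A hA => ?_
  simp only [opU, zeta_val]

lemma rf_P {D : Dat V M} {B T0 C t : ℝ} (hD : Std D B T0) {shs : List (List Sh)} {F : Fld V M}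
    (hF : RF D.rev B C t shs (F D.rev)) {r : ℕ} (hr : r ≤ 5) :
    RF D B C t (shs.map (pM :: ·)) (opP r F D) := by
  refine (rf_M hD hF hr (fun _ => Mk.one) .one fun i => trivial).congr
    fun h x a A hA => ?_
  simp only [opP, Mk.val, one_mul]

/-! ### the full flux -/

/-- the Phi mark -/
def phiF (D : Dat V M) (a l : ZMod M) : ℝ :=
  (D.I.card : ℝ)⁻¹ * ((D.I.card : ℝ)⁻¹ *
    ∑ j ∈ Finset.range ((a * D.rho⁻¹).val + 1), ∑ i ∈ D.I, ∑ i' ∈ D.I,
      ((if -l = -((j : ZMod M) * D.rho + i) + i' then (M : ℝ) else 0) - 1))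

lemma phiF_sum (D : Dat V M) (a : ZMod M) : ∑ l, phiF D a l = 0 := by
  simp only [phiF]
  rw [← Finset.mul_sum, ← Finset.mul_sum]
  have : ∑ l : ZMod M, ∑ j ∈ Finset.range ((a * D.rho⁻¹).val + 1), ∑ i ∈ D.I, ∑ i' ∈ D.I,
      ((if -l = -((j : ZMod M) * D.rho + i) + i' then (M : ℝ) else 0) - 1) = 0 := by
    rw [Finset.sum_comm]
    refine Finset.sum_eq_zero fun j _ => ?_
    rw [Finset.sum_comm]
    refine Finset.sum_eq_zero fun i _ => ?_
    rw [Finset.sum_comm]
    refine Finset.sum_eq_zero fun i' _ => ?_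
    set c : ZMod M := -((j : ZMod M) * D.rho + i) + i' with hc
    have e : ∀ l : ZMod M, (-l = c) ↔ (l = -c) := fun l => by
      constructor
      · intro e; rw [← e]; ring
      · intro e; rw [e]; ring
    simp only [e]
    rw [Finset.sum_sub_distrib, Finset.sum_ite_eq', if_pos (Finset.mem_univ _)]
    simp [ZMod.card]
  rw [this, mul_zero, mul_zero]

lemma window_abs [Fact M.Prime] (ρ c : ZMod M) (hρ : ρ ≠ 0) (n : ℕ) (hn : n + 1 ≤ M) :
    |∑ j ∈ Finset.range (n + 1), ((if ((j : ℕ) : ZMod M) * ρ = c then (M : ℝ) else 0) - 1)|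
      ≤ M := by
  rw [Finset.sum_sub_distrib]
  have h1 : ∑ _j ∈ Finset.range (n + 1), (1 : ℝ) = (n : ℝ) + 1 := by simp
  have h2 : ∑ j ∈ Finset.range (n + 1), (if ((j : ℕ) : ZMod M) * ρ = c then (M : ℝ) else 0) =
      M * ((Finset.range (n + 1)).filter fun j : ℕ => (j : ZMod M) * ρ = c).card := by
    rw [← Finset.sum_filter, Finset.sum_const, nsmul_eq_mul, mul_comm]
  have h3 : ((Finset.range (n + 1)).filter fun j : ℕ => (j : ZMod M) * ρ = c).card ≤ 1 := by
    rw [Finset.card_le_one]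
    intro a ha b hb
    simp only [Finset.mem_filter, Finset.mem_range] at ha hb
    have e1 : (a : ZMod M) * ρ = (b : ZMod M) * ρ := ha.2.trans hb.2.symm
    have e2 : (a : ZMod M) = (b : ZMod M) := mul_right_cancel₀ hρ e1
    rw [ZMod.natCast_eq_natCast_iff'] at e2
    rwa [Nat.mod_eq_of_lt (by omega), Nat.mod_eq_of_lt (by omega)] at e2
  have h4 : (((Finset.range (n + 1)).filter fun j : ℕ => (j : ZMod M) * ρ = c).card : ℝ) ≤ 1 := by
    exact_mod_cast h3
  have h5 : (0 : ℝ) ≤ ((Finset.range (n + 1)).filter fun j : ℕ => (j : ZMod M) * ρ = c).card := by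
    positivity
  have h6 : (n : ℝ) + 1 ≤ M := by exact_mod_cast hn
  have h7 : (0 : ℝ) ≤ M := by positivity
  have h8 : (0 : ℝ) ≤ n := by positivity
  rw [h1, h2, abs_le]
  constructor <;> nlinarith

lemma phiF_abs [Fact M.Prime] (D : Dat V M) (hI : D.I.Nonempty) (hρ : D.rho ≠ 0)
    (a l : ZMod M) : |phiF D a l| ≤ M := by
  have hc : (0 : ℝ) < D.I.card := by exact_mod_cast Finset.card_pos.2 hI
  have key : |∑ i ∈ D.I, ∑ i' ∈ D.I,
    ∑ j ∈ Finset.range ((a * D.rho⁻¹).val + 1),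
      ((if -l = -((j : ZMod M) * D.rho + i) + i' then (M : ℝ) else 0) - 1)| ≤
      D.I.card * (D.I.card * M) := by
    refine (Finset.abs_sum_le_sum_abs _ _).trans ?_
    have h1 : ∀ i ∈ D.I, |∑ i' ∈ D.I, ∑ j ∈ Finset.range ((a * D.rho⁻¹).val + 1),
        ((if -l = -((j : ZMod M) * D.rho + i) + i' then (M : ℝ) else 0) - 1)| ≤
        D.I.card * M := by
      intro i _
      refine (Finset.abs_sum_le_sum_abs _ _).trans ?_
      have h2 : ∀ i' ∈ D.I, |∑ j ∈ Finset.range ((a * D.rho⁻¹).val + 1),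
          ((if -l = -((j : ZMod M) * D.rho + i) + i' then (M : ℝ) else 0) - 1)| ≤ M := by
        intro i' _
        have e : ∀ j : ℕ, (-l = -((j : ZMod M) * D.rho + i) + i') ↔
            ((j : ZMod M) * D.rho = l - i + i') := fun j => by
          constructor
          · intro e
            have : (j : ZMod M) * D.rho = -(-((j : ZMod M) * D.rho + i) + i') - i + i' := by
              ring
            rw [this, ← e]; ring
          · intro e; rw [e]; ring
        simp only [e]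
        exact window_abs D.rho _ hρ _ (ZMod.val_lt _)
      refine (Finset.sum_le_sum h2).trans ?_
      rw [Finset.sum_const, nsmul_eq_mul]
    refine (Finset.sum_le_sum h1).trans ?_
    rw [Finset.sum_const, nsmul_eq_mul]
  have e0 : ∑ j ∈ Finset.range ((a * D.rho⁻¹).val + 1), ∑ i ∈ D.I, ∑ i' ∈ D.I,
      ((if -l = -((j : ZMod M) * D.rho + i) + i' then (M : ℝ) else 0) - 1) =
      ∑ i ∈ D.I, ∑ i' ∈ D.I, ∑ j ∈ Finset.range ((a * D.rho⁻¹).val + 1),
      ((if -l = -((j : ZMod M) * D.rho + i) + i' then (M : ℝ) else 0) - 1) := by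
    rw [Finset.sum_comm]
    exact Finset.sum_congr rfl fun i _ => Finset.sum_comm
  unfold phiF
  rw [abs_mul, abs_mul, abs_of_nonneg (by positivity : (0 : ℝ) ≤ (D.I.card : ℝ)⁻¹), e0]
  calc (D.I.card : ℝ)⁻¹ * ((D.I.card : ℝ)⁻¹ * |_|)
      ≤ (D.I.card : ℝ)⁻¹ * ((D.I.card : ℝ)⁻¹ * (D.I.card * (D.I.card * M))) := by gcongr
    _ = M := by field_simp

/-- the flux of a terminal -/
lemma rf_T1 [Fact M.Prime] {D : Dat V M} {B T0 : ℝ} (hD : Std D B T0) (hρ : D.rho ≠ 0)
    (isR : Bool) (om : V → V → ℝ) (hom : ∀ x y, |om x y| ≤ B) {r : ℕ} (hr : r ≤ 5)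
    (F : Fld V M) (hF : ∀ (h : V → ZMod M) (y : V) (b : ZMod M) (A : Finset V),
      F D.rev h y b A = D.Z⁻¹ * ∑ x' ∈ (if isR then outN D.rev.R y else outN D.rev.O y \ A),
        ∑ i ∈ D.I, om y x' * zt h x' (b + i)) :
    RF D B 1 1 [[pM, ⟨isR, true, .phi⟩]] (opT (opP r F) D) := by
  have hm : MkOk B (Mk.phi fun b l => phiF D (-b) (-l)) .phi := by
    refine ⟨fun a => ?_, fun a l => ?_⟩
    · have e := Equiv.sum_comp (Equiv.neg (ZMod M)) (fun l => phiF D (-a) l)
      exact e.trans (phiF_sum D (-a))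
    · refine (phiF_abs D hD.hI hρ _ _).trans ?_
      have : (0 : ℝ) ≤ M := by positivity
      nlinarith [hD.hB]
  have h1 := RF.term hD.rev isR om hom _ _ hm
  have h2 := RF.gM h1 (fun y => D.rev.kap r y) (fun y => hD.rev.kp y hr) 0 Mk.one .one trivial
  refine h2.congr fun h x a A hA => ?_
  simp only [opT, opP, hF, hD.Zinv, Mk.val, one_mul, add_zero, neg_neg]
  have e1 : D.rev.s = D.s := rfl
  rw [e1]
  set X : V → Finset V := fun y => if isR then outN D.rev.R y else outN D.rev.O y \ {x} with hX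
  set G : V → ℕ → ZMod M → ℝ := fun y j i => ∑ x' ∈ X y,
    ∑ i' ∈ D.I, om y x' * zt (-h) x' (-((j : ZMod M) * D.rho + i) + i') with hG
  have e2 : ∀ y, ∑ x' ∈ X y, om y x' * phiF D a (-((-h) x')) =
      (D.I.card : ℝ)⁻¹ * ((D.I.card : ℝ)⁻¹ *
        ∑ j ∈ Finset.range ((a * D.rho⁻¹).val + 1), ∑ i ∈ D.I, G y j i) := by
    intro y
    have e3 : ∀ x', om y x' * phiF D a (-((-h) x')) =
        (D.I.card : ℝ)⁻¹ * ((D.I.card : ℝ)⁻¹ *
        ∑ j ∈ Finset.range ((a * D.rho⁻¹).val + 1), ∑ i ∈ D.I, ∑ i' ∈ D.I,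
          om y x' * zt (-h) x' (-((j : ZMod M) * D.rho + i) + i')) := by
      intro x'
      simp only [phiF, zt, Pi.neg_apply, neg_neg, ← Finset.mul_sum]
      ring
    simp only [e3, ← Finset.mul_sum, hG]
    congr 2
    simp only [Finset.mul_sum]
    rw [Finset.sum_comm]
    refine Finset.sum_congr rfl fun j _ => ?_
    rw [Finset.sum_comm]
  have e4 : ∀ y, ∑ x' ∈ (if isR then outN D.rev.R y else outN D.rev.O y \ {x}),
      om y x' * phiF D a (-((-h) x')) = ∑ x' ∈ X y, om y x' * phiF D a (-((-h) x')) :=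
    fun y => rfl
  simp only [e4, e2]
  have e5 : ∀ j i y, ∑ x' ∈ (if isR then outN D.rev.R y else outN D.rev.O y \ {x}),
      ∑ i' ∈ D.I, om y x' * zt (-h) x' (-((j : ℕ) * D.rho + i) + i') = G y j i :=
    fun j i y => rfl
  simp only [e5]
  simp only [Finset.mul_sum]
  rw [Finset.sum_comm]
  refine Finset.sum_congr rfl fun y _ => Finset.sum_congr rfl fun j _ =>
    Finset.sum_congr rfl fun i _ => ?_
  ring

/-- the full flux potential of first order -/
lemma rf_T [Fact M.Prime] {D : Dat V M} {B T0 : ℝ} (hD : Std D B T0) (hρ : D.rho ≠ 0) :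
    RF D B 2 1 shT (opT gE D) := by
  have h1 := rf_T1 hD hρ true (fun _ _ => 1) (fun _ _ => by simpa using hD.hB) (r := 0)
    (by norm_num) fER (fun h y b A => by simp only [fER, one_mul, if_true]; rfl)
  have h2 := rf_T1 hD hρ false (fun x y => D.rev.β x y) (fun x y => hD.rev.hβ x y) (r := 1)
    (by norm_num) fEO (fun h y b A => by
      simp only [fEO, Bool.false_eq_true, if_false]; rfl)
  have h1' := h1.mono le_rfl le_rfl (shs' := shT) (by
    intro sh hsh
    rw [List.mem_singleton.1 hsh]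
    simp [shT, rPhi])
  have h2' := h2.mono le_rfl le_rfl (shs' := shT) (by
    intro sh hsh
    rw [List.mem_singleton.1 hsh]
    simp [shT, oPhi])
  have h3 := h1'.add h2'
  refine (h3.congr fun h x a A hA => ?_).mono (by norm_num) le_rfl (fun _ h => h)
  simp only [opT, gE]
  rw [Finset.sum_add_distrib]

lemma rf_Lam {D : Dat V M} {B T0 C t : ℝ} (hD : Std D B T0) {shs : List (List Sh)}
    {T : Fld V M} (hT : RF D B C t shs (T D)) {r : ℕ} (hr : r ≤ 5) :
    RF D B (2 * C) t (shs.map (zL :: ·)) (opLam r T D) := by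
  have h1 := RF.gL hT (fun x => D.kap r x) (fun x => hD.kp x hr) D.i2
  have h2 := RF.gL (hT.shift (-D.rho)) (fun x => D.kap r x) (fun x => hD.kp x hr) D.i1
  have h3 := h1.add (h2.smul (-1))
  refine (h3.congr fun h x a A hA => ?_).mono (by simp; linarith) le_rfl (fun _ h => h)
  have hc := hD.cpos.ne'
  simp only [opLam, hD.Zinv, ← sub_eq_add_neg, Finset.mul_sum]
  rw [← Finset.sum_add_distrib]
  refine Finset.sum_congr rfl fun y _ => ?_
  field_simp
  ring

lemma rf_Ups {D : Dat V M} {B T0 C t : ℝ} (hD : Std D B T0) {shs : List (List Sh)}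
    {T : Fld V M} (hT : RF D.rev B C t shs (T D.rev)) {r : ℕ} (hr : r ≤ 5) :
    RF D B (2 * C) t (shs.map (zM :: ·)) (opUps r T D) := by
  have h1 := RF.gM hT (fun x => D.rev.kap r x) (fun x => hD.rev.kp x hr) D.i2
    (Mk.zeta 1 D.i2) .zeta (Or.inl rfl)
  have h2 := RF.gM hT (fun x => D.rev.kap r x) (fun x => hD.rev.kp x hr) D.i2
    (Mk.zeta 1 D.i1) .zeta (Or.inl rfl)
  have h3 := h1.add (h2.smul (-1))
  refine (h3.congr fun h x a A hA => ?_).mono (by simp; linarith) le_rfl (fun _ h => h)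
  have hc := hD.cpos.ne'
  simp only [opUps, hD.Zinv, zeta_val, Finset.mul_sum]
  rw [← Finset.sum_add_distrib]
  refine Finset.sum_congr rfl fun y _ => ?_
  field_simp
  ring

/-- all word fields are combinations of nested sums -/
theorem rf_fld [Fact M.Prime] {B T0 : ℝ} (w : Wd) (hw : w.good = true) :
    ∀ D : Dat V M, Std D B T0 → D.rho ≠ 0 →
      RF D B 4 (if w.hasf then T0 else 1) w.shapes (fld w D) := by
  induction w with
  | eR =>
    intro D hD hρ
    exact (rf_ER hD).mono (by norm_num) (by simp [Wd.hasf]) fun _ h => h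
  | eO =>
    intro D hD hρ
    exact (rf_EO hD).mono (by norm_num) (by simp [Wd.hasf]) fun _ h => h
  | f =>
    intro D hD hρ
    exact (RF.const (D := D) (B := B) (fun x => D.fp x / D.s) hD.hfp).mono (by norm_num)
      (by simp [Wd.hasf]) fun _ h => h
  | lam =>
    intro D hD hρ
    exact (rf_Lam hD (rf_T hD hρ) (by norm_num)).mono (by norm_num) (by simp [Wd.hasf])
      fun _ h => h
  | ups =>
    intro D hD hρ
    exact (rf_Ups hD (rf_T hD.rev hρ) (by norm_num)).mono (by norm_num) (by simp [Wd.hasf])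
      fun _ h => h
  | L w ih =>
    intro D hD hρ
    simp only [Wd.good, Bool.and_eq_true, decide_eq_true_eq] at hw
    exact rf_L hD (ih hw.2 D hD hρ) hw.1
  | U w ih =>
    intro D hD hρ
    simp only [Wd.good, Bool.and_eq_true, decide_eq_true_eq] at hw
    exact rf_U hD (ih hw.2 D.rev hD.rev hρ) hw.1
  | P w ih =>
    intro D hD hρ
    simp only [Wd.good, Bool.and_eq_true, decide_eq_true_eq] at hw
    exact rf_P hD (ih hw.2 D.rev hD.rev hρ) hw.1

set_option maxRecDepth 20000 in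
lemma good_all : ∀ w ∈ Wown ++ W5 ++ (Wown.map Wd.P), w.good = true := by
  decide

/-- shapes of `g2` -/
def shg2 : List (List Sh) := [[pM, zL, rZ], [pM, zL, zL], [pM, zM, rZ], [pM, zM, zL]]

lemma rf_g2 [Fact M.Prime] {B T0 : ℝ} (D : Dat V M) (hD : Std D B T0) (hρ : D.rho ≠ 0) :
    RF D B 16 1 shg2 (g2 D) := by
  have h0 : ∀ w : Wd, w.good = true → w.hasf = false → (∀ sh ∈ w.shapes, sh ∈ shg2) →
      RF D B 4 1 shg2 (fld w D) := by
    intro w h1 h2 h3
    have := rf_fld w h1 D hD hρ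
    rw [h2] at this
    exact this.mono le_rfl (by simp) h3
  have a1 := h0 (.P (.L .eR)) (by decide) (by decide) (by decide)
  have a2 := h0 (.P (.L .eO)) (by decide) (by decide) (by decide)
  have a3 := h0 (.P (.U .eR)) (by decide) (by decide) (by decide)
  have a4 := h0 (.P (.U .eO)) (by decide) (by decide) (by decide)
  refine ((a1.add (a2.add (a3.add a4))).congr fun h x a A _ => ?_).mono (by norm_num) le_rfl
    fun _ h => h
  simp only [g2, sumF, W2', LU, W1, List.map_cons, List.map_nil,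
    List.cons_append, List.nil_append, List.sum_cons, List.sum_nil, add_zero]

/-- the window flux potential -/
lemma rf_Tw {D : Dat V M} {B C t : ℝ} {shs : List (List Sh)} {F : Fld V M}
    (hF : RF D B C t shs (F D)) (hC : 0 ≤ C) (q : ℕ) :
    RF D B (q * C) t shs (opTw q F D) := by
  have h1 := RF.sum (Finset.range q) (fun j : ℕ => 1 - ((j : ℝ) + 1) / q) C
    (fun j h x a A => F D h x (a + -((j : ZMod M) * D.rho)) A)
    (fun j _ => hF.shift (-((j : ZMod M) * D.rho)))
  refine (h1.congr fun h x a A _ => ?_).mono ?_ le_rfl fun _ h => h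
  · simp only [opTw, sub_eq_add_neg]
  · refine mul_le_mul_of_nonneg_right ?_ hC
    have : ∀ j ∈ Finset.range q, |1 - ((j : ℝ) + 1) / q| ≤ 1 := by
      intro j hj
      have hj' : j + 1 ≤ q := Finset.mem_range.1 hj
      have h2 : (j : ℝ) + 1 ≤ q := by exact_mod_cast hj'
      have hq : (0 : ℝ) < q := by
        have : 0 < q := by omega
        exact_mod_cast this
      have h3 : ((j : ℝ) + 1) / q ≤ 1 := by rwa [div_le_one hq]
      have h4 : 0 ≤ ((j : ℝ) + 1) / q := by positivity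
      rw [abs_le]
      constructor <;> linarith
    refine (Finset.sum_le_sum this).trans ?_
    simp

end Pool.Agent.C4W
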