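import Pool.Agent.Helper53_C4W.Cav

/-!
# The exact identity for the rows of a host
-/

set_option autoImplicit false

open scoped BigOperators Classical

noncomputable section

namespace Pool.Agent.C4W

variable {V : Type} [Fintype V] {M : ℕ}

lemma one_add_zt (h : V → ZMod M) (v : V) (l : ZMod M) :
    1 + zt h v l = if h v = l then (M : ℝ) else 0 := by
  unfold zt; ring

/-- the sum over the steps of a function of the step -/
lemma host_sum (D : Dat V M) (h : V → ZMod M) (x y : V) (F : ZMod M → ℝ) :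
    (M : ℝ) * (Xi D h x y * F (h y - h x)) = ∑ i ∈ D.I, (1 + zt h y (h x + i)) * F i := by
  have hrw : ∀ i ∈ D.I, (1 + zt h y (h x + i)) * F i =
      if i = h y - h x then (M : ℝ) * F (h y - h x) else 0 := by
    intro i _
    rw [one_add_zt]
    by_cases hi : i = h y - h x
    · have : h y = h x + i := by rw [hi]; ring
      rw [if_pos this, if_pos hi, hi]
    · have : ¬ h y = h x + i := fun e => hi (by rw [e]; ring)
      rw [if_neg this, if_neg hi, zero_mul]
  rw [Finset.sum_congr rfl hrw, Finset.sum_ite_eq']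
  unfold Xi
  split_ifs <;> simp

lemma rowO_eq (D : Dat V M) (h : V → ZMod M) (x : V) (F : V → ZMod M → ℝ) :
    rowO D h x (fun y => F y (h y - h x)) =
      D.Z⁻¹ * ∑ y ∈ outN D.O x, ∑ i ∈ D.I, (1 + zt h y (h x + i)) * F y i := by
  unfold rowO
  rw [div_eq_mul_inv, mul_comm (M : ℝ), mul_assoc, Finset.mul_sum]
  congr 1
  refine Finset.sum_congr rfl fun y _ => ?_
  exact host_sum D h x y (F y)

lemma rowO_add (D : Dat V M) (h : V → ZMod M) (x : V) (f g : V → ℝ) :
    rowO D h x (fun y => f y + g y) = rowO D h x f + rowO D h x g := by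
  unfold rowO
  rw [← mul_add, ← Finset.sum_add_distrib]
  simp only [mul_add]

lemma rowO_sum (D : Dat V M) (h : V → ZMod M) (x : V) (l : List Wd) (f : Wd → V → ℝ) :
    rowO D h x (fun y => (l.map fun w => f w y).sum) = (l.map fun w => rowO D h x (f w)).sum := by
  induction l with
  | nil => simp [rowO]
  | cons w l ih =>
    simp only [List.map_cons, List.sum_cons]
    rw [rowO_add, ih]

/-- the data are fine at `x` -/
structure Ok (D : Dat V M) (x : V) : Prop where
  hs : 0 < D.s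
  hI : D.I.Nonempty
  hn : 5 < (outN D.O x).card

lemma Ok.Zpos {D : Dat V M} {x : V} (h : Ok D x) : 0 < D.Z := by
  unfold Dat.Z
  have h1 : 0 < D.I.card := Finset.card_pos.2 h.hI
  have h2 := h.hs
  positivity

lemma kap_mul {D : Dat V M} {x : V} (h : Ok D x) {r : ℕ} (hr : r ≤ 5) :
    D.kap r x * (((outN D.O x).card : ℝ) - r) = - D.s := by
  unfold Dat.kap
  have h1 : (r : ℝ) ≤ 5 := by exact_mod_cast hr
  have h2 : (5 : ℝ) < (outN D.O x).card := by exact_mod_cast h.hn
  have h3 : ((outN D.O x).card : ℝ) - r ≠ 0 := by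
    have : 0 < ((outN D.O x).card : ℝ) - r := by linarith
    exact this.ne'
  rw [div_mul_cancel₀ _ h3]

lemma inv_Z_mul_s {D : Dat V M} {x : V} (h : Ok D x) : D.Z⁻¹ * (D.I.card * D.s) = 1 := by
  have : D.Z ≠ 0 := h.Zpos.ne'
  have e : (D.I.card : ℝ) * D.s = D.Z := rfl
  rw [e, inv_mul_cancel₀ this]

/-- own correction, row of the owner -/
theorem own_row {D : Dat V M} {h : V → ZMod M} {x : V} (hok : Ok D x) {r : ℕ} (hr : r ≤ 5)
    {F : Fld V M} (hF : Cav r F) :
    rowO D h x (fun y => D.kap r x * F D h x (h x) {y}) =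
      - F D h x (h x) ∅ + opL r F D h x (h x) ∅ := by
  rw [rowO_eq D h x (fun y _ => D.kap r x * F D h x (h x) {y})]
  have h1 : ∑ y ∈ outN D.O x, ∑ i ∈ D.I, (1 + zt h y (h x + i)) *
      (D.kap r x * F D h x (h x) {y}) =
      D.I.card * D.kap r x * (∑ y ∈ outN D.O x, F D h x (h x) {y}) +
      ∑ y ∈ outN D.O x, ∑ i ∈ D.I, zt h y (h x + i) * (D.kap r x * F D h x (h x) {y}) := by
    rw [Finset.mul_sum, ← Finset.sum_add_distrib]
    refine Finset.sum_congr rfl fun y _ => ?_
    simp only [add_mul, one_mul, Finset.sum_add_distrib, Finset.sum_const, nsmul_eq_mul]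
    ring
  have h2 := hF D h x (h x) ∅ (Finset.empty_subset _)
  simp only [Finset.sdiff_empty, insert_empty_eq, Finset.card_empty, Nat.cast_zero, sub_zero]
    at h2
  rw [h1, h2, mul_add]
  have h3 : D.Z⁻¹ * (D.I.card * D.kap r x * ((((outN D.O x).card : ℝ) - r) *
      F D h x (h x) ∅)) = - F D h x (h x) ∅ := by
    have e : D.Z⁻¹ * (D.I.card * D.kap r x * ((((outN D.O x).card : ℝ) - r) *
      F D h x (h x) ∅)) = D.Z⁻¹ * D.I.card * (D.kap r x * (((outN D.O x).card : ℝ) - r)) *
      F D h x (h x) ∅ := by ring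
    rw [e, kap_mul hok hr]
    have e2 := inv_Z_mul_s hok
    linear_combination (- F D h x (h x) ∅) * e2
  rw [h3]
  simp only [opL, Finset.sdiff_empty, insert_empty_eq]

/-- own correction of the heads -/
theorem own_col (D : Dat V M) (h : V → ZMod M) (x : V) (r : ℕ) (F : Fld V M) :
    rowO D h x (fun y => D.rev.kap r y * F D.rev (-h) y ((-h) y) {x}) =
      opU r F D h x (h x) ∅ + opP r F D h x (h x) ∅ := by
  have h0 : (fun y => D.rev.kap r y * F D.rev (-h) y ((-h) y) {x}) =
      fun y => (fun (y : V) (i : ZMod M) =>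
        D.rev.kap r y * F D.rev (-h) y (-(h x + i)) {x}) y (h y - h x) := by
    funext y
    have : (-h) y = -(h x + (h y - h x)) := by simp
    simp only [this]
  rw [h0, rowO_eq D h x (fun (y : V) (i : ZMod M) =>
    D.rev.kap r y * F D.rev (-h) y (-(h x + i)) {x})]
  simp only [opU, opP, Finset.sdiff_empty]
  rw [← mul_add, ← Finset.sum_add_distrib]
  congr 1
  refine Finset.sum_congr rfl fun y _ => ?_
  rw [← Finset.sum_add_distrib]
  refine Finset.sum_congr rfl fun i _ => ?_
  ring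

lemma step_sum (D : Dat V M) (hI1 : D.i1 ∈ D.I) (hI2 : D.i2 ∈ D.I) (h12 : D.i1 ≠ D.i2)
    (g : ZMod M → ℝ) (c A B : ℝ) :
    ∑ i ∈ D.I, g i * (c * (if i = D.i2 then A else if i = D.i1 then B else 0)) =
      c * (g D.i2 * A + g D.i1 * B) := by
  have h1 : ∀ i ∈ D.I, g i * (c * (if i = D.i2 then A else if i = D.i1 then B else 0)) =
      (if i = D.i2 then c * (g D.i2 * A) else 0) + (if i = D.i1 then c * (g D.i1 * B) else 0) := by
    intro i _
    by_cases e2 : i = D.i2
    · have e1 : i ≠ D.i1 := fun e => h12 (e.symm.trans e2)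
      rw [if_pos e2, if_pos e2, if_neg e1, e2]; ring
    · by_cases e1 : i = D.i1
      · rw [if_neg e2, if_neg e2, if_pos e1, if_pos e1, e1]; ring
      · rw [if_neg e2, if_neg e2, if_neg e1, if_neg e1]; ring
  rw [Finset.sum_congr rfl h1, Finset.sum_add_distrib, Finset.sum_ite_eq', Finset.sum_ite_eq',
    if_pos hI1, if_pos hI2]
  ring

/-- flux, row of the owner -/
theorem flx_row {D : Dat V M} {h : V → ZMod M} {x : V} (hok : Ok D x) (hI1 : D.i1 ∈ D.I)
    (hI2 : D.i2 ∈ D.I) (h12 : D.i1 ≠ D.i2) {r : ℕ} (hr : r ≤ 5) {T : Fld V M} (hT : Cav r T) :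
    rowO D h x (fun y => flx r T D h x y (h x) (h y - h x)) =
      - (T D h x (h x) ∅ - T D h x (h x - D.rho) ∅) + opLam r T D h x (h x) ∅ := by
  rw [rowO_eq D h x (fun y i => flx r T D h x y (h x) i)]
  simp only [flx]
  have h1 : ∀ y ∈ outN D.O x, ∑ i ∈ D.I, (1 + zt h y (h x + i)) * (D.I.card * D.kap r x *
      (if i = D.i2 then T D h x (h x) {y} else if i = D.i1 then
        - T D h x (h x - D.rho) {y} else 0)) =
      D.I.card * D.kap r x * (T D h x (h x) {y} - T D h x (h x - D.rho) {y}) +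
      (D.I.card * D.kap r x) * (zt h y (h x + D.i2) * T D h x (h x) {y} -
        zt h y (h x + D.i1) * T D h x (h x - D.rho) {y}) := by
    intro y _
    rw [step_sum D hI1 hI2 h12 (fun i => 1 + zt h y (h x + i))]
    ring
  rw [Finset.sum_congr rfl h1, Finset.sum_add_distrib, mul_add]
  have h2 : ∀ b, ∑ y ∈ outN D.O x, T D h x b {y} =
      (((outN D.O x).card : ℝ) - r) * T D h x b ∅ := by
    intro b
    have h2 := hT D h x b ∅ (Finset.empty_subset _)
    simpa only [Finset.sdiff_empty, insert_empty_eq, Finset.card_empty, Nat.cast_zero,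
      sub_zero] using h2
  rw [← Finset.mul_sum, Finset.sum_sub_distrib, h2, h2]
  have h3 : D.Z⁻¹ * (D.I.card * D.kap r x * ((((outN D.O x).card : ℝ) - r) *
      T D h x (h x) ∅ - (((outN D.O x).card : ℝ) - r) * T D h x (h x - D.rho) ∅)) =
      - (T D h x (h x) ∅ - T D h x (h x - D.rho) ∅) := by
    have e := kap_mul hok hr
    have e2 := inv_Z_mul_s hok
    linear_combination (D.Z⁻¹ * D.I.card * (T D h x (h x) ∅ - T D h x (h x - D.rho) ∅)) * e -
      (T D h x (h x) ∅ - T D h x (h x - D.rho) ∅) * e2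
  rw [h3]
  simp only [opLam, Finset.sdiff_empty, insert_empty_eq]

/-- flux of the heads -/
theorem flx_col {D : Dat V M} {h : V → ZMod M} {x : V} (hI1 : D.i1 ∈ D.I)
    (hI2 : D.i2 ∈ D.I) (h12 : D.i1 ≠ D.i2) (r : ℕ) (T : Fld V M) :
    rowO D h x (fun y => flx r T D.rev (-h) y x ((-h) y) ((-h) x - (-h) y)) =
      opUps r T D h x (h x) ∅ := by
  have h0 : (fun y => flx r T D.rev (-h) y x ((-h) y) ((-h) x - (-h) y)) =
      fun y => (fun (y : V) (i : ZMod M) => D.I.card * D.rev.kap r y *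
        (if i = D.i2 then T D.rev (-h) y (-(h x + D.i2)) {x} else if i = D.i1 then
        - T D.rev (-h) y (-(h x + D.i2)) {x} else 0)) y (h y - h x) := by
    funext y
    have e1 : (-h) x - (-h) y = h y - h x := by simp; ring
    simp only [flx, e1]
    have e2 : (D.rev).I = D.I := rfl
    have e3 : (D.rev).i1 = D.i1 := rfl
    have e4 : (D.rev).i2 = D.i2 := rfl
    have e5 : (D.rev).rho = D.rho := rfl
    rw [e2, e3, e4, e5]
    congr 1
    by_cases c2 : h y - h x = D.i2
    · rw [if_pos c2, if_pos c2]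
      have : (-h) y = -(h x + D.i2) := by rw [← c2]; simp
      rw [this]
    · rw [if_neg c2, if_neg c2]
      by_cases c1 : h y - h x = D.i1
      · rw [if_pos c1, if_pos c1]
        have : (-h) y - D.rho = -(h x + D.i2) := by
          have e : D.rho = D.i2 - D.i1 := rfl
          rw [e, ← c1]
          simp only [Pi.neg_apply]
          ring
        rw [this]
      · rw [if_neg c1, if_neg c1]
  rw [h0, rowO_eq D h x (fun (y : V) (i : ZMod M) => D.I.card * D.rev.kap r y *
        (if i = D.i2 then T D.rev (-h) y (-(h x + D.i2)) {x} else if i = D.i1 then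
        - T D.rev (-h) y (-(h x + D.i2)) {x} else 0))]
  simp only [opUps, Finset.sdiff_empty]
  congr 1
  refine Finset.sum_congr rfl fun y _ => ?_
  rw [step_sum D hI1 hI2 h12 (fun i => 1 + zt h y (h x + i))]
  ring

/-- the sum of the multiples of a unit -/
theorem sum_range_mul [Fact M.Prime] (ρ : ZMod M) (hρ : ρ ≠ 0) (F : ZMod M → ℝ) :
    ∑ j ∈ Finset.range M, F (j * ρ) = ∑ a, F a := by
  have : NeZero M := ⟨(Fact.out : M.Prime).ne_zero⟩
  refine Finset.sum_nbij' (fun j : ℕ => (j : ZMod M) * ρ) (fun a => (a * ρ⁻¹).val) ?_ ?_ ?_ ?_ ?_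
  · intro j _; exact Finset.mem_univ _
  · intro a _; exact Finset.mem_range.2 (ZMod.val_lt _)
  · intro j hj
    show ((j : ZMod M) * ρ * ρ⁻¹).val = j
    rw [mul_assoc, mul_inv_cancel₀ hρ, mul_one, ZMod.val_natCast,
      Nat.mod_eq_of_lt (Finset.mem_range.1 hj)]
  · intro a _
    show ((a * ρ⁻¹).val : ZMod M) * ρ = a
    rw [ZMod.natCast_val, ZMod.cast_id, mul_assoc, inv_mul_cancel₀ hρ, mul_one]
  · intro j _; rfl

/-- the full flux -/
theorem opT_step [Fact M.Prime] (D : Dat V M) (hρ : D.rho ≠ 0) (h : V → ZMod M) (F : Fld V M)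
    (x : V) (A : Finset V) (hsum : ∑ b : ZMod M, F D h x b A = 0) (a : ZMod M) :
    opT F D h x a A - opT F D h x (a - D.rho) A = F D h x a A := by
  have : NeZero M := ⟨(Fact.out : M.Prime).ne_zero⟩
  simp only [opT]
  set n := (a * D.rho⁻¹).val with hn
  have ha : (n : ZMod M) * D.rho = a := by
    rw [hn, ZMod.natCast_val, ZMod.cast_id, mul_assoc, inv_mul_cancel₀ hρ, mul_one]
  have e : (a - D.rho) * D.rho⁻¹ = a * D.rho⁻¹ - 1 := by
    rw [sub_mul, mul_inv_cancel₀ hρ]
  rw [e]
  rcases Nat.eq_zero_or_pos n with h0 | hpos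
  · have h1 : a * D.rho⁻¹ = 0 := by
      rw [← ZMod.val_eq_zero]
      exact h0
    have h2 : (a * D.rho⁻¹ - 1 : ZMod M).val + 1 = M := by
      have hp := (Fact.out : M.Prime).pos
      have h3 : (-1 : ZMod M) = ((M - 1 : ℕ) : ZMod M) := by
        rw [Nat.cast_sub hp, ZMod.natCast_self, Nat.cast_one, zero_sub]
      rw [h1, zero_sub, h3, ZMod.val_natCast, Nat.mod_eq_of_lt (by omega)]
      omega
    rw [h2, sum_range_mul D.rho hρ (fun b => F D h x b A), hsum, sub_zero, h0]
    simp only [zero_add, Finset.range_one, Finset.sum_singleton]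
    rw [← h0, ha]
  · have h2 : (a * D.rho⁻¹ - 1 : ZMod M).val + 1 = n := by
      have h3 : (a * D.rho⁻¹ - 1 : ZMod M) = ((n - 1 : ℕ) : ZMod M) := by
        rw [Nat.cast_sub hpos, hn, ZMod.natCast_val, ZMod.cast_id, Nat.cast_one]
      rw [h3, ZMod.val_natCast, Nat.mod_eq_of_lt]
      · omega
      · exact lt_of_le_of_lt (Nat.sub_le _ _) (ZMod.val_lt _)
    rw [h2, Finset.sum_range_succ, add_sub_cancel_left, ha]

/-- the window flux -/
theorem opTw_step (D : Dat V M) (h : V → ZMod M) (F : Fld V M) (x : V) (A : Finset V)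
    (q : ℕ) (hq : 0 < q) (a : ZMod M) :
    opTw q F D h x a A - opTw q F D h x (a - D.rho) A = F D h x a A - opW q F D h x a A := by
  simp only [opTw, opW]
  set G : ℕ → ℝ := fun j => F D h x (a - (j : ZMod M) * D.rho) A with hG
  have e0 : ∀ j : ℕ, F D h x (a - D.rho - (j : ZMod M) * D.rho) A = G (j + 1) := by
    intro j
    simp only [hG]
    have : a - D.rho - (j : ZMod M) * D.rho = a - ((j + 1 : ℕ) : ZMod M) * D.rho := by
      push_cast; ring
    rw [this]
  have e1 : F D h x a A = G 0 := by simp [hG]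
  have e2 : ∀ j : ℕ, F D h x (a - (j : ZMod M) * D.rho) A = G j := fun _ => rfl
  simp only [e0, e1, e2]
  have hq' : (q : ℝ) ≠ 0 := by exact_mod_cast hq.ne'
  have key : ∀ m : ℕ, ∑ j ∈ Finset.range m, (1 - ((j : ℝ) + 1) / q) * G j -
      ∑ j ∈ Finset.range m, (1 - ((j : ℝ) + 1) / q) * G (j + 1) =
      G 0 - (q : ℝ)⁻¹ * ∑ j ∈ Finset.range m, G j - (1 - (m : ℝ) / q) * G m := by
    intro m
    induction m with
    | zero => simp
    | succ m ih =>
      rw [Finset.sum_range_succ, Finset.sum_range_succ, Finset.sum_range_succ]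
      push_cast
      have : ∑ j ∈ Finset.range m, (1 - ((j : ℝ) + 1) / q) * G j =
        ∑ j ∈ Finset.range m, (1 - ((j : ℝ) + 1) / q) * G (j + 1) +
        (G 0 - (q : ℝ)⁻¹ * ∑ j ∈ Finset.range m, G j - (1 - (m : ℝ) / q) * G m) := by
          linarith [ih]
      rw [this]
      field_simp
      ring
  rw [key q]
  have : (1 - (q : ℝ) / q) = 0 := by rw [div_self hq', sub_self]
  rw [this]
  ring

/-! ### label sums -/

lemma zt_sum [NeZero M] (h : V → ZMod M) (v : V) : ∑ a, zt h v a = 0 := by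
  simp only [zt]
  rw [Finset.sum_sub_distrib, Finset.sum_ite_eq, if_pos (Finset.mem_univ _)]
  simp [ZMod.card]

/-- label sum of a step of the word -/
lemma P_label_sum [NeZero M] (D : Dat V M) (h : V → ZMod M) (x : V) (A : Finset V) (r : ℕ)
    (F : Fld V M) (hF : ∀ y, ∑ b, F D.rev (-h) y b {x} = 0) :
    ∑ a, opP r F D h x a A = 0 := by
  simp only [opP]
  rw [← Finset.mul_sum, Finset.sum_comm, Finset.sum_eq_zero, mul_zero]
  intro y _
  rw [Finset.sum_comm]
  refine Finset.sum_eq_zero fun i _ => ?_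
  rw [← Finset.mul_sum]
  have e := Equiv.sum_comp ((Equiv.addRight i).trans (Equiv.neg (ZMod M)))
    (fun a => F D.rev (-h) y a {x})
  have e2 : ∑ a, F D.rev (-h) y (-(a + i)) {x} = 0 := by
    refine Eq.trans ?_ (e.trans (hF y))
    rfl
  rw [e2, mul_zero]

lemma zt_sum_shift [NeZero M] (h : V → ZMod M) (v : V) (i : ZMod M) :
    ∑ a, zt h v (a + i) = 0 :=
  (Equiv.sum_comp (Equiv.addRight i) (fun a => zt h v a)).trans (zt_sum h v)

lemma ER_label_sum [NeZero M] (D : Dat V M) (h : V → ZMod M) (x : V) (A : Finset V) :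
    ∑ a, fER D h x a A = 0 := by
  simp only [fER]
  rw [← Finset.mul_sum, Finset.sum_comm, Finset.sum_eq_zero, mul_zero]
  intro y _
  rw [Finset.sum_comm]
  exact Finset.sum_eq_zero fun i _ => zt_sum_shift h y i

lemma EO_label_sum [NeZero M] (D : Dat V M) (h : V → ZMod M) (x : V) (A : Finset V) :
    ∑ a, fEO D h x a A = 0 := by
  simp only [fEO]
  rw [← Finset.mul_sum, Finset.sum_comm, Finset.sum_eq_zero, mul_zero]
  intro y _
  rw [Finset.sum_comm]
  refine Finset.sum_eq_zero fun i _ => ?_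
  rw [← Finset.mul_sum, zt_sum_shift, mul_zero]

lemma gE_label_sum [NeZero M] (D : Dat V M) (h : V → ZMod M) (x : V) (A : Finset V) :
    ∑ a, gE D h x a A = 0 := by
  simp only [gE]
  rw [Finset.sum_add_distrib, P_label_sum D h x A 0 fER (fun y => ER_label_sum _ _ _ _),
    P_label_sum D h x A 1 fEO (fun y => EO_label_sum _ _ _ _), add_zero]

/-! ### the identity -/

/-- the sum of the fields of a list at `x` -/
def S (D : Dat V M) (h : V → ZMod M) (x : V) (l : List Wd) : ℝ := sumF l D h x (h x) ∅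

lemma S_nil (D : Dat V M) (h : V → ZMod M) (x : V) : S D h x [] = 0 := by simp [S, sumF]

lemma S_cons (D : Dat V M) (h : V → ZMod M) (x : V) (w : Wd) (l : List Wd) :
    S D h x (w :: l) = fld w D h x (h x) ∅ + S D h x l := by simp [S, sumF]

lemma S_append (D : Dat V M) (h : V → ZMod M) (x : V) (l m : List Wd) :
    S D h x (l ++ m) = S D h x l + S D h x m := by simp [S, sumF]

lemma S_LU_append (D : Dat V M) (h : V → ZMod M) (x : V) (l m : List Wd) :
    S D h x (LU (l ++ m)) = S D h x (LU l) + S D h x (LU m) := by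
  simp only [LU, List.map_append, S_append]
  ring

/-- the row sum of all own corrections -/
lemma own_sum {D : Dat V M} {h : V → ZMod M} {x : V} (hok : Ok D x) (l : List Wd)
    (hl : ∀ w ∈ l, w.r ≤ 5) :
    rowO D h x (fun y => (l.map fun w => D.kap w.r x * fld w D h x (h x) {y}).sum) +
      rowO D h x (fun y => (l.map fun w => D.rev.kap w.r y *
        fld w D.rev (-h) y ((-h) y) {x}).sum) =
      - S D h x l + S D h x (LU l) + S D h x (l.map Wd.P) := by
  rw [rowO_sum, rowO_sum]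
  induction l with
  | nil => simp [S, sumF, LU]
  | cons w l ih =>
    have ih' := ih fun v hv => hl v (by simp [hv])
    have h1 := own_row (h := h) hok (hl w (by simp)) (cav_fld (V := V) (M := M) w)
    have h2 := own_col D h x w.r (fld w)
    have h3 : fld (Wd.L w) D h x (h x) ∅ = opL w.r (fld w) D h x (h x) ∅ := rfl
    have h4 : fld (Wd.U w) D h x (h x) ∅ = opU w.r (fld w) D h x (h x) ∅ := rfl
    have h5 : fld (Wd.P w) D h x (h x) ∅ = opP w.r (fld w) D h x (h x) ∅ := rfl
    have hLU : S D h x (LU (w :: l)) = fld (Wd.L w) D h x (h x) ∅ + fld (Wd.U w) D h x (h x) ∅ +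
        S D h x (LU l) := by
      have := S_LU_append D h x [w] l
      rw [List.singleton_append] at this
      rw [this]
      simp [LU, S_cons, S_nil]
    simp only [List.map_cons, List.sum_cons]
    rw [hLU, S_cons, S_cons, h3, h4, h5, h1, h2]
    linarith [ih']

lemma Wown_r : ∀ w ∈ Wown, w.r ≤ 5 := by
  decide

/-- THE IDENTITY -/
theorem idn [Fact M.Prime] (D : Dat V M) (h : V → ZMod M) (hI1 : D.i1 ∈ D.I) (hI2 : D.i2 ∈ D.I)
    (h12 : D.i1 ≠ D.i2) (q : ℕ) (hq : 0 < q) (x : V) (hok : Ok D x) :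
    (M : ℝ) / D.Z * (∑ y ∈ outN D.R x, Xi D h x y) + rowO D h x (fun y => wgt q D h x y) =
      ((outN D.R x).card + (∑ y ∈ outN D.O x, D.β x y) - D.fp x) / D.s + err q D h x := by
  have : NeZero M := ⟨(Fact.out : M.Prime).ne_zero⟩
  have hρ : D.rho ≠ 0 := fun e => h12 (sub_eq_zero.1 e).symm
  have hZ := inv_Z_mul_s hok
  have hs : (D.s : ℝ) ≠ 0 := by
    have := hok.hs
    exact_mod_cast this.ne'
  have hZs : D.Z⁻¹ * D.I.card = (D.s : ℝ)⁻¹ := by
    rw [← mul_assoc] at hZ
    exact eq_inv_of_mul_eq_one_left hZ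
  have hR : (M : ℝ) / D.Z * (∑ y ∈ outN D.R x, Xi D h x y) =
      (outN D.R x).card / D.s + fld .eR D h x (h x) ∅ := by
    have h1 : ∀ y, (M : ℝ) * Xi D h x y = ∑ i ∈ D.I, (1 + zt h y (h x + i)) := by
      intro y
      have := host_sum D h x y (fun _ => 1)
      simpa using this
    have h2 : (M : ℝ) / D.Z * (∑ y ∈ outN D.R x, Xi D h x y) =
        D.Z⁻¹ * ∑ y ∈ outN D.R x, ∑ i ∈ D.I, (1 + zt h y (h x + i)) := by
      rw [div_eq_mul_inv, mul_comm (M : ℝ), mul_assoc, Finset.mul_sum]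
      simp only [h1]
    rw [h2]
    simp only [Finset.sum_add_distrib, Finset.sum_const, nsmul_eq_mul, mul_one]
    rw [mul_add]
    have h3 : D.Z⁻¹ * (((outN D.R x).card : ℝ) * D.I.card) = (outN D.R x).card / D.s := by
      rw [div_eq_mul_inv, ← hZs]; ring
    rw [h3]
    rfl
  have hB : rowO D h x (fun y => D.β x y) =
      (∑ y ∈ outN D.O x, D.β x y) / D.s + fld .eO D h x (h x) ∅ := by
    rw [rowO_eq D h x (fun y _ => D.β x y)]
    have h1 : ∀ y ∈ outN D.O x, ∑ i ∈ D.I, (1 + zt h y (h x + i)) * D.β x y =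
        D.I.card * D.β x y + ∑ i ∈ D.I, D.β x y * zt h y (h x + i) := by
      intro y _
      simp only [add_mul, one_mul, Finset.sum_add_distrib, Finset.sum_const, nsmul_eq_mul]
      congr 1
      exact Finset.sum_congr rfl fun i _ => mul_comm _ _
    rw [Finset.sum_congr rfl h1, Finset.sum_add_distrib, mul_add, ← Finset.mul_sum, ← mul_assoc,
      hZs]
    have h3 : (D.s : ℝ)⁻¹ * ∑ y ∈ outN D.O x, D.β x y = (∑ y ∈ outN D.O x, D.β x y) / D.s := by
      rw [div_eq_mul_inv, mul_comm]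
    rw [h3]
    simp only [fld, fEO, Finset.sdiff_empty]
  have hown := own_sum (h := h) hok Wown Wown_r
  have hTr := flx_row (h := h) hok hI1 hI2 h12 (r := 1) (by norm_num)
    (cav_T (cav_gE (V := V) (M := M)))
  have hTc := flx_col (D := D) (h := h) (x := x) hI1 hI2 h12 1 (opT gE)
  have hWr := flx_row (h := h) hok hI1 hI2 h12 (r := 1) (by norm_num)
    (cav_Tw (cav_g2 (V := V) (M := M)) q)
  have hWc := flx_col (D := D) (h := h) (x := x) hI1 hI2 h12 1 (opTw q g2)
  rw [opT_step D hρ h gE x ∅ (gE_label_sum D h x ∅)] at hTr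
  rw [opTw_step D h g2 x ∅ q hq] at hWr
  have hsplit : rowO D h x (fun y => wgt q D h x y) =
      rowO D h x (fun y => D.β x y) +
      (rowO D h x (fun y => (Wown.map fun w => D.kap w.r x * fld w D h x (h x) {y}).sum) +
      rowO D h x (fun y => (Wown.map fun w => D.rev.kap w.r y *
        fld w D.rev (-h) y ((-h) y) {x}).sum)) +
      rowO D h x (fun y => flx 1 (opT gE) D h x y (h x) (h y - h x)) +
      rowO D h x (fun y => flx 1 (opTw q g2) D h x y (h x) (h y - h x)) +
      rowO D h x (fun y => flx 1 (opT gE) D.rev (-h) y x ((-h) y) ((-h) x - (-h) y)) +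
      rowO D h x (fun y => flx 1 (opTw q g2) D.rev (-h) y x ((-h) y) ((-h) x - (-h) y)) := by
    simp only [← rowO_add]
    congr 1
    funext y
    simp only [wgt, half]
    ring
  rw [hR, hsplit, hB, hown, hTr, hTc, hWr, hWc]
  have e1 : S D h x Wown = S D h x W1 + S D h x W2 + S D h x W3 + S D h x W4 := by
    simp only [Wown, S_append]
  have e2 : S D h x (LU Wown) = S D h x W2' + S D h x (LU W2) + S D h x W4 + S D h x W5 := by
    simp only [Wown, S_LU_append]
    rfl
  have e3 : S D h x (Wown.map Wd.P) = gE D h x (h x) ∅ + (fld (.P .f) D h x (h x) ∅ +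
      g2 D h x (h x) ∅) + S D h x (W3.map Wd.P) + S D h x (W4.map Wd.P) := by
    have a1 : S D h x (W1.map Wd.P) = gE D h x (h x) ∅ := by
      simp [W1, S_cons, S_nil, gE, fld, Wd.r]
    have a2 : S D h x (W2.map Wd.P) = fld (.P .f) D h x (h x) ∅ + g2 D h x (h x) ∅ := by
      simp only [W2, List.map_cons, S_cons]
      rfl
    simp only [Wown, List.map_append, S_append, a1, a2]
  have e4 : S D h x W1 = fld .eR D h x (h x) ∅ + fld .eO D h x (h x) ∅ := by
    simp [W1, S_cons, S_nil]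
  have e5 : S D h x W2 = fld .f D h x (h x) ∅ + S D h x W2' := by
    simp only [W2, S_cons]
  have e6 : S D h x W3 = fld .lam D h x (h x) ∅ + (fld .ups D h x (h x) ∅ + S D h x (LU W2)) := by
    simp only [W3, S_cons]
  have e7 : fld .f D h x (h x) ∅ = D.fp x / D.s := rfl
  have e8 : fld .lam D h x (h x) ∅ = opLam 1 (opT gE) D h x (h x) ∅ := rfl
  have e9 : fld .ups D h x (h x) ∅ = opUps 1 (opT gE) D h x (h x) ∅ := rfl
  have e10 : S D h x W5 = sumF W5 D h x (h x) ∅ := rfl
  have e11 : S D h x (W3.map Wd.P) = sumF (W3.map Wd.P) D h x (h x) ∅ := rfl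
  have e12 : S D h x (W4.map Wd.P) = sumF (W4.map Wd.P) D h x (h x) ∅ := rfl
  rw [e1, e2, e3, e4, e5, e6, e7, e8, e9, e10, e11, e12]
  unfold err
  rw [sub_div, add_div]
  ring

end Pool.Agent.C4W
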