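import Pool.Agent.Helper53_C4W.Shp
import Pool.Agent.Helper53_C4W.Stm2
import Pool.Agent.C4M.Final
import Pool.Agent.C4M.Mkv

/-!
# Moments of combinations of nested sums
-/

set_option autoImplicit false

open scoped BigOperators Classical

noncomputable section

namespace Pool.Agent.C4W

open Pool.Agent.C4M (mean Kind Shape Valid ctr Poly FnOk IsNbd Env momT bonT winT mkv mark)

variable {V : Type} [Fintype V] {M : ℕ} [NeZero M]

/-! ### the average -/

lemma card_pow_pos : (0 : ℝ) < (Fintype.card (ZMod M) : ℝ) ^ Fintype.card V := by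
  have : 0 < Fintype.card (ZMod M) := Fintype.card_pos
  have h : (0 : ℝ) < Fintype.card (ZMod M) := by exact_mod_cast this
  positivity

lemma mean_mono' {f g : (V → ZMod M) → ℝ} (h : ∀ ω, f ω ≤ g ω) : mean f ≤ mean g := by
  unfold mean
  exact div_le_div_of_nonneg_right (Finset.sum_le_sum fun ω _ => h ω) card_pow_pos.le

lemma mean_zero' : mean (fun _ : V → ZMod M => (0 : ℝ)) = 0 := by
  simp [mean]

lemma mean_lin {ι : Type} [Fintype ι] (c : ι → ℝ) (f : ι → (V → ZMod M) → ℝ) :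
    mean (fun h => ∑ i, c i * f i h) = ∑ i, c i * mean (f i) := by
  unfold mean
  rw [Finset.sum_comm, Finset.sum_div]
  refine Finset.sum_congr rfl fun i _ => ?_
  rw [← Finset.mul_sum, mul_div_assoc]

/-- Jensen's inequality for combinations -/
lemma mean_hull {ι : Type} [Fintype ι] (α : ι → ℝ) (b : ι → (V → ZMod M) → ℝ) {C A : ℝ}
    (hC : ∑ i, |α i| ≤ C) {p : ℕ} (hp : 1 ≤ p) (hA : 0 ≤ A)
    (hb : ∀ i, mean (fun h => b i h ^ (2 * p)) ≤ A) :
    mean (fun h => (∑ i, α i * b i h) ^ (2 * p)) ≤ C ^ (2 * p) * A := by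
  set S := ∑ i, |α i| with hS
  have hS0 : 0 ≤ S := Finset.sum_nonneg fun i _ => abs_nonneg _
  have hev : Even (2 * p) := even_two_mul p
  rcases hS0.eq_or_lt with h0 | hpos
  · have hz : ∀ i, α i = 0 := by
      intro i
      have := (Finset.sum_eq_zero_iff_of_nonneg (fun i _ => abs_nonneg (α i))).1 h0.symm i
        (Finset.mem_univ _)
      exact abs_eq_zero.1 this
    have : (fun h : V → ZMod M => (∑ i, α i * b i h) ^ (2 * p)) = fun _ => 0 := by
      funext h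
      simp only [hz, zero_mul, Finset.sum_const_zero]
      exact zero_pow (by omega)
    rw [this, mean_zero']
    have : 0 ≤ C := h0 ▸ hC
    positivity
  · have h1 : ∀ h : V → ZMod M, (∑ i, α i * b i h) ^ (2 * p) ≤
        ∑ i, (|α i| / S) * (S ^ (2 * p) * b i h ^ (2 * p)) := by
      intro h
      have e1 : ∑ i, α i * b i h = ∑ i, (|α i| / S) * (SignType.sign (α i) * S * b i h) := by
        refine Finset.sum_congr rfl fun i _ => ?_
        have : |α i| * (SignType.sign (α i) : ℝ) = α i := abs_mul_sign (α i)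
        calc α i * b i h = (|α i| * (SignType.sign (α i) : ℝ)) * b i h := by rw [this]
          _ = (|α i| / S) * (SignType.sign (α i) * S * b i h) := by
            field_simp
      rw [e1]
      have e2 := Real.pow_arith_mean_le_arith_mean_pow_of_even Finset.univ
        (fun i => |α i| / S) (fun i => (SignType.sign (α i) : ℝ) * S * b i h)
        (fun i _ => by positivity) (by rw [← Finset.sum_div, ← hS, div_self hpos.ne']) hev
      refine e2.trans (Finset.sum_le_sum fun i _ => ?_)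
      refine mul_le_mul_of_nonneg_left ?_ (by positivity)
      rw [mul_pow, mul_pow]
      have e3 : (SignType.sign (α i) : ℝ) ^ (2 * p) ≤ 1 := by
        rw [← Even.pow_abs hev]
        refine pow_le_one₀ (abs_nonneg _) ?_
        rcases lt_trichotomy (α i) 0 with h' | h' | h'
        · simp [sign_neg h']
        · simp [h']
        · simp [sign_pos h']
      have e4 : 0 ≤ S ^ (2 * p) := by positivity
      have e5 : 0 ≤ b i h ^ (2 * p) := Even.pow_nonneg hev _
      calc (SignType.sign (α i) : ℝ) ^ (2 * p) * S ^ (2 * p) * b i h ^ (2 * p)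
          ≤ 1 * S ^ (2 * p) * b i h ^ (2 * p) := by gcongr
        _ = _ := by ring
    refine (mean_mono' h1).trans ?_
    rw [mean_lin]
    have h2 : ∀ i, (|α i| / S) * mean (fun h : V → ZMod M => S ^ (2 * p) * b i h ^ (2 * p)) ≤
        (|α i| / S) * (S ^ (2 * p) * A) := by
      intro i
      refine mul_le_mul_of_nonneg_left ?_ (by positivity)
      have e : mean (fun h : V → ZMod M => S ^ (2 * p) * b i h ^ (2 * p)) =
          S ^ (2 * p) * mean (fun h : V → ZMod M => b i h ^ (2 * p)) := by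
        have := mean_lin (ι := Unit) (fun _ => S ^ (2 * p))
          (fun _ h => b i h ^ (2 * p) : Unit → (V → ZMod M) → ℝ)
        simpa using this
      rw [e]
      exact mul_le_mul_of_nonneg_left (hb i) (by positivity)
    refine (Finset.sum_le_sum fun i _ => h2 i).trans ?_
    rw [← Finset.sum_mul, ← Finset.sum_div, ← hS, div_self hpos.ne', one_mul]
    have : S ^ (2 * p) ≤ C ^ (2 * p) := pow_le_pow_left₀ hS0 hC _
    exact mul_le_mul_of_nonneg_right this hA

/-! ### environment -/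

/-- the environment of the moment lemmas -/
structure EnvD (D : Dat V M) (Δ : ℝ) : Prop where
  nbd : IsNbd (Nb D)
  dR : ∀ x, ((outN D.R x).card : ℝ) ≤ Δ
  dR' : ∀ x, ((outN D.rev.R x).card : ℝ) ≤ Δ
  dO : ∀ x, ((outN D.O x).card : ℝ) ≤ Δ
  dO' : ∀ x, ((outN D.rev.O x).card : ℝ) ≤ Δ
  s1 : (D.s : ℝ) ≤ Δ
  Ms : (M : ℝ) ≤ D.s

lemma Nb_rev (D : Dat V M) : Nb D.rev = Nb D := by
  funext x
  ext y
  simp only [Nb, Finset.mem_filter, Finset.mem_univ, true_and]
  show ((y, x) ∈ D.R ∨ (x, y) ∈ D.R ∨ (y, x) ∈ D.O ∨ (x, y) ∈ D.O) ↔ _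
  tauto

lemma EnvD.rev {D : Dat V M} {Δ : ℝ} (h : EnvD D Δ) : EnvD D.rev Δ where
  nbd := by rw [Nb_rev]; exact h.nbd
  dR := h.dR'
  dR' := h.dR
  dO := h.dO'
  dO' := h.dO
  s1 := h.s1
  Ms := h.Ms

lemma nbOf_sub : ∀ (sh : List Sh) (D : Dat V M) (t : Fin sh.length) (u : V),
    nbOf D sh t u ⊆ Nb D u := by
  intro sh
  induction sh with
  | nil => intro D t; exact t.elim0
  | cons s0 sh ih =>
    intro D t u
    refine Fin.cases ?_ (fun t => ?_) t
    · rw [nbOf_zero]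
      intro y hy
      simp only [Nb, Finset.mem_filter, Finset.mem_univ, true_and]
      split_ifs at hy
      · exact Or.inl (mem_outN.1 hy)
      · exact Or.inr (Or.inr (Or.inl (mem_outN.1 hy)))
    · rw [nbOf_succ]
      split_ifs
      · exact ih D t u
      · rw [← Nb_rev D]; exact ih D.rev t u

lemma nbOf_card {Δ : ℝ} : ∀ (sh : List Sh) (D : Dat V M) (_ : EnvD D Δ) (t : Fin sh.length)
    (u : V), ((nbOf D sh t u).card : ℝ) ≤ Δ := by
  intro sh
  induction sh with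
  | nil => intro D _ t; exact t.elim0
  | cons s0 sh ih =>
    intro D hD t u
    refine Fin.cases ?_ (fun t => ?_) t
    · rw [nbOf_zero]
      split_ifs
      · exact hD.dR u
      · exact hD.dO u
    · rw [nbOf_succ]
      split_ifs
      · exact ih D hD t u
      · exact ih D.rev hD.rev t u

lemma EnvD.env {D : Dat V M} {Δ : ℝ} (h : EnvD D Δ) (sh : List Sh) :
    Env (Λ := ZMod M) (Nb D) (nbOf D sh) (fun _ => Δ) D.s where
  nbd := h.nbd
  sub := nbOf_sub sh D
  card_le := nbOf_card sh D h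
  s_le := fun _ => h.s1
  one_le := by
    rw [ZMod.card]
    have := NeZero.pos M
    exact_mod_cast this
  le_s := by rw [ZMod.card]; exact h.Ms

/-- moments -/
theorem mom_RF (p : ℕ) (hp : 1 ≤ p) : ∃ K : ℝ, 0 ≤ K ∧
    ∀ (V : Type) [Fintype V] (M : ℕ) [NeZero M] (D : Dat V M) (Δ : ℝ), EnvD D Δ →
    ∀ (C t : ℝ) (shs : List (List Sh)) (n0 wt : ℕ)
      (f : (V → ZMod M) → V → ZMod M → Finset V → ℝ), n0 ≤ 5 → 0 ≤ C → 0 ≤ t →
      (∀ sh ∈ shs, ShOk n0 wt sh) → RF D 4 C t shs f → ∀ x a A, A ⊆ outN D.O x →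
      mean (fun h => f h x a A ^ (2 * p)) ≤
        K * (C * t * (Δ / D.s) ^ n0) ^ (2 * p) * ((M : ℝ) / D.s) ^ (p * wt) := by
  choose K hK0 hK using fun n : ℕ => momT n p 4 (by norm_num)
  refine ⟨(4 ^ 5) ^ (2 * p) * ∑ n ∈ Finset.range 6, K n, ?_, ?_⟩
  · have : 0 ≤ ∑ n ∈ Finset.range 6, K n := Finset.sum_nonneg fun n _ => hK0 n
    positivity
  intro V _ M _ D Δ hD C t shs n0 wt f hn0 hC ht hsh hf x a A hA
  obtain ⟨ι, hι, α, w, τ, h1, h2, h3, h4⟩ := hf
  have hM0 : (0 : ℝ) < M := by exact_mod_cast NeZero.pos M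
  have hs0 : (0 : ℝ) < D.s := lt_of_lt_of_le hM0 hD.Ms
  have hr : 1 ≤ Δ / D.s := by rw [le_div_iff₀ hs0, one_mul]; exact hD.s1
  have hr0 : 0 ≤ Δ / D.s := zero_le_one.trans hr
  have hKs : ∀ n ≤ 5, K n ≤ ∑ n ∈ Finset.range 6, K n := fun n hn =>
    Finset.single_le_sum (f := K) (fun n _ => hK0 n) (Finset.mem_range.2 (by omega))
  set KK := ∑ n ∈ Finset.range 6, K n with hKK
  have hKK0 : 0 ≤ KK := Finset.sum_nonneg fun n _ => hK0 n
  have hb : ∀ i, mean (fun h => Bas D.s (τ i) (w i) a x A h ^ (2 * p)) ≤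
      (4 ^ 5) ^ (2 * p) * KK * (t * (Δ / D.s) ^ n0) ^ (2 * p) *
        ((M : ℝ) / D.s) ^ (p * wt) := by
    intro i
    obtain ⟨sh, hs1, hs2⟩ := h2 i
    obtain ⟨o1, o2, o3, o4⟩ := hsh sh hs1
    have e1 : (fun h => Bas D.s (τ i) (w i) a x A h ^ (2 * p)) =
        fun h => (polOf D.s (τ i) sh (w i) a x A).eval h ^ (2 * p) := by
      funext h
      rw [pol_eval D.s (τ i) hs2 a x A h]
    rw [e1]
    have e2 := hK sh.length V (ZMod M) (mkS sh) o2 o3 x (Nb D) (nbOf D sh) (fun _ => Δ) D.s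
      (4 ^ sh.length * t) (hD.env sh) (by positivity) (polOf D.s (τ i) sh (w i) a x A)
      (pol_adm D.s (τ i) (by norm_num) ht (h3 i) hs2 a x A)
    refine e2.trans ?_
    rw [o4, ZMod.card, Finset.prod_const, Finset.card_univ, Fintype.card_fin]
    have e3 : (4 : ℝ) ^ sh.length * t * (Δ / D.s) ^ sh.length ≤
        4 ^ 5 * (t * (Δ / D.s) ^ n0) := by
      have a1 : (4 : ℝ) ^ sh.length ≤ 4 ^ 5 := pow_le_pow_right₀ (by norm_num) (by omega)
      have a2 : (Δ / D.s) ^ sh.length ≤ (Δ / D.s) ^ n0 := pow_le_pow_right₀ hr o1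
      calc (4 : ℝ) ^ sh.length * t * (Δ / D.s) ^ sh.length
          ≤ 4 ^ 5 * t * (Δ / D.s) ^ n0 := by gcongr
        _ = _ := by ring
    have e4 : ((4 : ℝ) ^ sh.length * t * (Δ / D.s) ^ sh.length) ^ (2 * p) ≤
        (4 ^ 5) ^ (2 * p) * (t * (Δ / D.s) ^ n0) ^ (2 * p) := by
      rw [← mul_pow]
      exact pow_le_pow_left₀ (by positivity) e3 _
    calc K sh.length * (4 ^ sh.length * t * (Δ / D.s) ^ sh.length) ^ (2 * p) *
          ((M : ℝ) / D.s) ^ (p * wt)
        ≤ KK * ((4 ^ 5) ^ (2 * p) * (t * (Δ / D.s) ^ n0) ^ (2 * p)) *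
          ((M : ℝ) / D.s) ^ (p * wt) := by
          have := hKs sh.length (by omega)
          gcongr
      _ = _ := by ring
  have h5 : (fun h => f h x a A ^ (2 * p)) =
      fun h => (∑ i, α i * Bas D.s (τ i) (w i) a x A h) ^ (2 * p) := by
    funext h
    rw [h4 h x a A hA]
  rw [h5]
  refine (mean_hull α _ h1 hp (by positivity) hb).trans (le_of_eq ?_)
  rw [mul_pow (C * t), mul_pow C, mul_pow t]
  ring

/-- moments with the bonus -/
theorem bon_RF (p : ℕ) (hp : 1 ≤ p) : ∃ K : ℝ, 0 ≤ K ∧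
    ∀ (V : Type) [Fintype V] (M : ℕ) [NeZero M] (D : Dat V M) (Δ : ℝ), EnvD D Δ →
    ∀ (C t : ℝ) (shs : List (List Sh)) (n0 wt : ℕ)
      (f : (V → ZMod M) → V → ZMod M → Finset V → ℝ), n0 ≤ 5 → 0 ≤ C → 0 ≤ t →
      (∀ sh ∈ shs, ShB n0 wt sh) → RF D 4 C t shs f → ∀ x a A, A ⊆ outN D.O x →
      mean (fun h => f h x a A ^ (2 * p)) ≤
        K * (C * t * (Δ / D.s) ^ n0) ^ (2 * p) * ((M : ℝ) / D.s) ^ (p * wt) /
          (D.s : ℝ) ^ p := by
  choose K hK0 hK using fun n : ℕ => bonT n p 4 (by norm_num)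
  refine ⟨(4 ^ 5) ^ (2 * p) * ∑ n ∈ Finset.range 6, K n, ?_, ?_⟩
  · have : 0 ≤ ∑ n ∈ Finset.range 6, K n := Finset.sum_nonneg fun n _ => hK0 n
    positivity
  intro V _ M _ D Δ hD C t shs n0 wt f hn0 hC ht hsh hf x a A hA
  obtain ⟨ι, hι, α, w, τ, h1, h2, h3, h4⟩ := hf
  have hM0 : (0 : ℝ) < M := by exact_mod_cast NeZero.pos M
  have hs0 : (0 : ℝ) < D.s := lt_of_lt_of_le hM0 hD.Ms
  have hr : 1 ≤ Δ / D.s := by rw [le_div_iff₀ hs0, one_mul]; exact hD.s1
  have hr0 : 0 ≤ Δ / D.s := zero_le_one.trans hr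
  have hKs : ∀ n ≤ 5, K n ≤ ∑ n ∈ Finset.range 6, K n := fun n hn =>
    Finset.single_le_sum (f := K) (fun n _ => hK0 n) (Finset.mem_range.2 (by omega))
  set KK := ∑ n ∈ Finset.range 6, K n with hKK
  have hKK0 : 0 ≤ KK := Finset.sum_nonneg fun n _ => hK0 n
  have hb : ∀ i, mean (fun h => Bas D.s (τ i) (w i) a x A h ^ (2 * p)) ≤
      (4 ^ 5) ^ (2 * p) * KK * (t * (Δ / D.s) ^ n0) ^ (2 * p) *
        ((M : ℝ) / D.s) ^ (p * wt) / (D.s : ℝ) ^ p := by
    intro i
    obtain ⟨sh, hs1, hs2⟩ := h2 i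
    obtain ⟨⟨o1, o2, o3, o4⟩, b, hb⟩ := hsh sh hs1
    have e1 : (fun h => Bas D.s (τ i) (w i) a x A h ^ (2 * p)) =
        fun h => (polOf D.s (τ i) sh (w i) a x A).eval h ^ (2 * p) := by
      funext h
      rw [pol_eval D.s (τ i) hs2 a x A h]
    rw [e1]
    have e2 := hK sh.length V (ZMod M) (mkS sh) o2 o3 b hb x (Nb D) (nbOf D sh) (fun _ => Δ)
      D.s (4 ^ sh.length * t) (hD.env sh) (by positivity) (polOf D.s (τ i) sh (w i) a x A)
      (pol_adm D.s (τ i) (by norm_num) ht (h3 i) hs2 a x A)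
    refine e2.trans ?_
    rw [o4, ZMod.card, Finset.prod_const, Finset.card_univ, Fintype.card_fin]
    have e3 : (4 : ℝ) ^ sh.length * t * (Δ / D.s) ^ sh.length ≤
        4 ^ 5 * (t * (Δ / D.s) ^ n0) := by
      have a1 : (4 : ℝ) ^ sh.length ≤ 4 ^ 5 := pow_le_pow_right₀ (by norm_num) (by omega)
      have a2 : (Δ / D.s) ^ sh.length ≤ (Δ / D.s) ^ n0 := pow_le_pow_right₀ hr o1
      calc (4 : ℝ) ^ sh.length * t * (Δ / D.s) ^ sh.length
          ≤ 4 ^ 5 * t * (Δ / D.s) ^ n0 := by gcongr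
        _ = _ := by ring
    have e4 : ((4 : ℝ) ^ sh.length * t * (Δ / D.s) ^ sh.length) ^ (2 * p) ≤
        (4 ^ 5) ^ (2 * p) * (t * (Δ / D.s) ^ n0) ^ (2 * p) := by
      rw [← mul_pow]
      exact pow_le_pow_left₀ (by positivity) e3 _
    calc K sh.length * (4 ^ sh.length * t * (Δ / D.s) ^ sh.length) ^ (2 * p) *
          ((M : ℝ) / D.s) ^ (p * wt) / (D.s : ℝ) ^ p
        ≤ KK * ((4 ^ 5) ^ (2 * p) * (t * (Δ / D.s) ^ n0) ^ (2 * p)) *
          ((M : ℝ) / D.s) ^ (p * wt) / (D.s : ℝ) ^ p := by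
          have := hKs sh.length (by omega)
          gcongr
      _ = _ := by ring
  have h5 : (fun h => f h x a A ^ (2 * p)) =
      fun h => (∑ i, α i * Bas D.s (τ i) (w i) a x A h) ^ (2 * p) := by
    funext h
    rw [h4 h x a A hA]
  rw [h5]
  refine (mean_hull α _ h1 hp (by positivity) hb).trans (le_of_eq ?_)
  rw [mul_pow (C * t), mul_pow C, mul_pow t]
  ring

end Pool.Agent.C4W
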