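import Pool.Agent.Helper53_C4W.Tre

/-!
# The properties of the shapes of the words
-/

set_option autoImplicit false

namespace Pool.Agent.C4W

open Pool.Agent.C4M (Kind Shape)

instance decOk {n : ℕ} (S : Shape n) : Decidable S.Ok :=
  decidable_of_iff ((∀ t u, S.par t = some u → u < t) ∧ ∀ t u, u ≤ t → S.st u ≤ S.st t)
    ⟨fun h => ⟨h.1, h.2⟩, fun h => ⟨h.1, h.2⟩⟩

instance decPhi {n : ℕ} (S : Shape n) (y z : Fin n) : Decidable (S.Phi y z) :=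
  decidable_of_iff (S.kind z = Kind.phi ∧ (∀ t, S.kind t = Kind.phi → t = z) ∧
    S.kind y = Kind.none ∧ S.par z = some y ∧ (∀ t, S.st t = 2 ↔ t = y ∨ t = z) ∧
    ∀ t, S.st t ≤ 2)
    ⟨fun h => ⟨h.1, h.2.1, h.2.2.1, h.2.2.2.1, h.2.2.2.2.1, h.2.2.2.2.2⟩,
     fun h => ⟨h.1, h.2, h.3, h.4, h.5, h.6⟩⟩

instance decPhiOk {n : ℕ} (S : Shape n) : Decidable S.PhiOk := by
  unfold Shape.PhiOk
  infer_instance

instance decBon {n : ℕ} (S : Shape n) (a : Fin n) : Decidable (S.Bon a) :=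
  decidable_of_iff (S.kind a = Kind.none ∧ S.st a = 1 ∧
    (∀ t, S.st t = 1 → t ≠ a → ∃ u, S.par t = some u ∧ S.st u = 1) ∧
    (∀ t u w, S.st t = 1 → S.st u = 1 → S.par t = some u → u < w → w < t → S.par w = some u) ∧
    ∃ t, S.st t = 1 ∧ S.kind t = Kind.zeta)
    ⟨fun h => ⟨h.1, h.2.1, h.2.2.1, h.2.2.2.1, h.2.2.2.2⟩,
     fun h => ⟨h.1, h.2, h.3, h.4, h.5⟩⟩

/-- admissible shape of length at most `n0` and weight `wt` -/
def ShOk (n0 wt : ℕ) (sh : List Sh) : Prop :=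
  sh.length ≤ n0 ∧ (mkS sh).Ok ∧ (mkS sh).PhiOk ∧ (mkS sh).nz + 2 * (mkS sh).nf = wt

instance (n0 wt : ℕ) (sh : List Sh) : Decidable (ShOk n0 wt sh) := by
  unfold ShOk
  infer_instance

/-- the same with a P-vertex -/
def ShB (n0 wt : ℕ) (sh : List Sh) : Prop :=
  ShOk n0 wt sh ∧ ∃ a, (mkS sh).Bon a

instance (n0 wt : ℕ) (sh : List Sh) : Decidable (ShB n0 wt sh) := by
  unfold ShB
  infer_instance

/-- the weight of the mark part -/
def wtm (n : ℕ) (w : Wd) : ℕ := if w.hasf then n - 2 else n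

set_option maxRecDepth 100000 in
lemma shp_W1 : ∀ w ∈ W1, ∀ sh ∈ w.shapes, ShOk 5 (wtm 1 w) sh := by decide +kernel

set_option maxRecDepth 100000 in
lemma shp_W2 : ∀ w ∈ W2, ∀ sh ∈ w.shapes, ShOk 5 (wtm 2 w) sh := by decide +kernel

set_option maxRecDepth 100000 in
lemma shp_W3 : ∀ w ∈ W3, ∀ sh ∈ w.shapes, ShOk 5 (wtm 3 w) sh := by decide +kernel

set_option maxRecDepth 100000 in
lemma shp_W4 : ∀ w ∈ W4, ∀ sh ∈ w.shapes, ShOk 5 (wtm 4 w) sh := by decide +kernel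

set_option maxRecDepth 100000 in
lemma shp_W5 : ∀ w ∈ W5, ∀ sh ∈ w.shapes, ShOk 5 (wtm 5 w) sh := by decide +kernel

set_option maxRecDepth 100000 in
lemma shp_T : ∀ sh ∈ shT, ShOk 5 2 sh := by decide +kernel

set_option maxRecDepth 100000 in
lemma shp_P3 : ∀ w ∈ W3.map Wd.P, ∀ sh ∈ w.shapes, ShB 5 (wtm 3 w) sh := by decide +kernel

set_option maxRecDepth 100000 in
lemma shp_P4 : ∀ w ∈ W4.map Wd.P, ∀ sh ∈ w.shapes, ShB 5 (wtm 4 w) sh := by decide +kernel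

set_option maxRecDepth 100000 in
lemma shp_g2 : ∀ sh ∈ shg2, ShB 5 2 sh := by decide +kernel

set_option maxRecDepth 100000 in
lemma shp_Lg2 : ∀ sh ∈ shg2.map (zL :: ·), ShB 4 3 sh := by decide +kernel

set_option maxRecDepth 100000 in
lemma shp_Ug2 : ∀ sh ∈ shg2.map (zM :: ·), ShB 4 3 sh := by decide +kernel

end Pool.Agent.C4W
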