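import Pool.Agent.Helper53_C4W.Win

/-!
# SIZ: the weights and the errors of one host are small with large probability
-/

set_option autoImplicit false

open scoped BigOperators Classical

noncomputable section

namespace Pool.Agent.C4W

open Pool.Agent.C4M (mean IsNbd mkv)

/-! ### numbers -/

/-- numerical facts for large `k` -/
structure Big (k : ℕ) (K : ℝ) : Prop where
  one : 1 < (k : ℝ)
  kK : K * 512 ^ 24000 ≤ (k : ℝ) ^ 2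
  k01 : 180 * (k : ℝ) ^ (-0.1 : ℝ) ≤ 1 / 50
  k05 : 87 ≤ (k : ℝ) ^ (0.0005 : ℝ)
  k4 : 177 ≤ (k : ℝ) ^ 4
  k04 : (k : ℝ) ^ (-0.4 : ℝ) ≤ 1 / 10
  ks : 100 ≤ (k : ℝ) ^ (1 - 1 / 400 : ℝ)

lemma exists_big (K : ℝ) : ∃ k0 : ℕ, ∀ k : ℕ, k0 ≤ k → Big k K := by
  have hcast : Filter.Tendsto (fun k : ℕ => (k : ℝ)) Filter.atTop Filter.atTop :=
    tendsto_natCast_atTop_atTop
  have e1 : ∀ᶠ k : ℕ in Filter.atTop, 1 < (k : ℝ) :=
    hcast.eventually (Filter.eventually_gt_atTop 1)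
  have e2 : ∀ᶠ k : ℕ in Filter.atTop, K * 512 ^ 24000 ≤ (k : ℝ) ^ 2 :=
    hcast.eventually ((Filter.tendsto_pow_atTop (by norm_num)).eventually
      (Filter.eventually_ge_atTop _))
  have e3 : ∀ᶠ k : ℕ in Filter.atTop, 180 * (k : ℝ) ^ (-0.1 : ℝ) ≤ 1 / 50 := by
    have h1 : Filter.Tendsto (fun x : ℝ => x ^ (-(0.1 : ℝ))) Filter.atTop (nhds 0) :=
      tendsto_rpow_neg_atTop (by norm_num)
    have h2 := hcast.eventually (h1.eventually (gt_mem_nhds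
      (show (0 : ℝ) < 1 / 50 / 180 by norm_num)))
    filter_upwards [h2] with k hk
    have hk' : (k : ℝ) ^ (-0.1 : ℝ) < 1 / 50 / 180 := hk
    linarith
  have e4 : ∀ᶠ k : ℕ in Filter.atTop, 87 ≤ (k : ℝ) ^ (0.0005 : ℝ) :=
    hcast.eventually ((tendsto_rpow_atTop (by norm_num)).eventually
      (Filter.eventually_ge_atTop _))
  have e5 : ∀ᶠ k : ℕ in Filter.atTop, 177 ≤ (k : ℝ) ^ 4 :=
    hcast.eventually ((Filter.tendsto_pow_atTop (by norm_num)).eventually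
      (Filter.eventually_ge_atTop _))
  have e6 : ∀ᶠ k : ℕ in Filter.atTop, (k : ℝ) ^ (-0.4 : ℝ) ≤ 1 / 10 := by
    have h1 : Filter.Tendsto (fun x : ℝ => x ^ (-(0.4 : ℝ))) Filter.atTop (nhds 0) :=
      tendsto_rpow_neg_atTop (by norm_num)
    have h2 := hcast.eventually (h1.eventually (gt_mem_nhds
      (show (0 : ℝ) < 1 / 10 by norm_num)))
    filter_upwards [h2] with k hk
    exact hk.le
  have e7 : ∀ᶠ k : ℕ in Filter.atTop, 100 ≤ (k : ℝ) ^ (1 - 1 / 400 : ℝ) :=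
    hcast.eventually ((tendsto_rpow_atTop (by norm_num)).eventually
      (Filter.eventually_ge_atTop _))
  obtain ⟨k0, hk0⟩ := Filter.eventually_atTop.1
    (e1.and (e2.and (e3.and (e4.and (e5.and (e6.and e7))))))
  refine ⟨k0, fun k hk => ?_⟩
  obtain ⟨a1, a2, a3, a4, a5, a6, a7⟩ := hk0 k hk
  exact ⟨a1, a2, a3, a4, a5, a6, a7⟩

/-- the size of one noise -/
def rr (M s : ℕ) : ℝ := Real.sqrt ((M : ℝ) / s)

lemma rr_pow {M s : ℕ} (p wt : ℕ) : ((M : ℝ) / s) ^ (p * wt) = (rr M s ^ wt) ^ (2 * p) := by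
  have h : ((M : ℝ) / s) = rr M s ^ 2 := (Real.sq_sqrt (by positivity)).symm
  rw [h, ← pow_mul, ← pow_mul]
  congr 1
  ring

section num

variable {k M s q : ℕ} {K : ℝ}

lemma rr_le (hb : Big k K) (hp : Par k M s q) : rr M s ≤ (k : ℝ) ^ (-0.22875 : ℝ) := by
  have hk0 : (0 : ℝ) < k := zero_lt_one.trans hb.one
  have hs0 : (0 : ℝ) < s := lt_of_lt_of_le (by positivity) hp.slo
  have h1 : (M : ℝ) / s ≤ (k : ℝ) ^ (-0.4575 : ℝ) := by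
    rw [div_le_iff₀ hs0]
    calc (M : ℝ) ≤ (k : ℝ) ^ (0.54 : ℝ) := hp.Mhi
      _ = (k : ℝ) ^ (-0.4575 : ℝ) * (k : ℝ) ^ (1 - 1 / 400 : ℝ) := by
        rw [← Real.rpow_add hk0]; norm_num
      _ ≤ (k : ℝ) ^ (-0.4575 : ℝ) * s := by
        have := hp.slo
        gcongr
  unfold rr
  calc Real.sqrt ((M : ℝ) / s) ≤ Real.sqrt ((k : ℝ) ^ (-0.4575 : ℝ)) := Real.sqrt_le_sqrt h1
    _ = (k : ℝ) ^ (-0.22875 : ℝ) := by
      rw [Real.sqrt_eq_rpow, ← Real.rpow_mul hk0.le]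
      norm_num

lemma rr_nonneg : 0 ≤ rr M s := Real.sqrt_nonneg _

lemma rr_pow_le (hb : Big k K) (hp : Par k M s q) (n : ℕ) :
    rr M s ^ n ≤ (k : ℝ) ^ (-0.22875 * n : ℝ) := by
  have hk0 : (0 : ℝ) < k := zero_lt_one.trans hb.one
  calc rr M s ^ n ≤ ((k : ℝ) ^ (-0.22875 : ℝ)) ^ n :=
        pow_le_pow_left₀ rr_nonneg (rr_le hb hp) n
    _ = (k : ℝ) ^ (-0.22875 * n : ℝ) := by
      rw [← Real.rpow_natCast, ← Real.rpow_mul hk0.le]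

lemma dr_le (hb : Big k K) (hp : Par k M s q) : 2 * (k : ℝ) / s ≤ 2 * (k : ℝ) ^ (1 / 400 : ℝ) := by
  have hk0 : (0 : ℝ) < k := zero_lt_one.trans hb.one
  have hs0 : (0 : ℝ) < s := lt_of_lt_of_le (by positivity) hp.slo
  rw [div_le_iff₀ hs0]
  calc 2 * (k : ℝ) = 2 * ((k : ℝ) ^ (1 / 400 : ℝ) * (k : ℝ) ^ (1 - 1 / 400 : ℝ)) := by
        rw [← Real.rpow_add hk0]; norm_num
    _ ≤ 2 * ((k : ℝ) ^ (1 / 400 : ℝ) * s) := by
        have := hp.slo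
        gcongr
    _ = _ := by ring

lemma dr_pow_le (hb : Big k K) (hp : Par k M s q) (n : ℕ) :
    (2 * (k : ℝ) / s) ^ n ≤ 2 ^ n * (k : ℝ) ^ (n / 400 : ℝ) := by
  have hk0 : (0 : ℝ) < k := zero_lt_one.trans hb.one
  calc (2 * (k : ℝ) / s) ^ n ≤ (2 * (k : ℝ) ^ (1 / 400 : ℝ)) ^ n :=
        pow_le_pow_left₀ (by positivity) (dr_le hb hp) n
    _ = 2 ^ n * (k : ℝ) ^ (n / 400 : ℝ) := by
      rw [mul_pow, ← Real.rpow_natCast ((k : ℝ) ^ (1 / 400 : ℝ)), ← Real.rpow_mul hk0.le]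
      congr 2
      ring

/-- `s^(-1/2)` -/
lemma ss_le (hb : Big k K) (hp : Par k M s q) :
    Real.sqrt ((s : ℝ)⁻¹) ≤ (k : ℝ) ^ (-0.49875 : ℝ) := by
  have hk0 : (0 : ℝ) < k := zero_lt_one.trans hb.one
  have h1 : (s : ℝ)⁻¹ ≤ (k : ℝ) ^ (-0.9975 : ℝ) := by
    have : (k : ℝ) ^ (-0.9975 : ℝ) = ((k : ℝ) ^ (1 - 1 / 400 : ℝ))⁻¹ := by
      rw [← Real.rpow_neg hk0.le]; norm_num
    rw [this]
    exact inv_anti₀ (by positivity) hp.slo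
  calc Real.sqrt ((s : ℝ)⁻¹) ≤ Real.sqrt ((k : ℝ) ^ (-0.9975 : ℝ)) := Real.sqrt_le_sqrt h1
    _ = (k : ℝ) ^ (-0.49875 : ℝ) := by
      rw [Real.sqrt_eq_rpow, ← Real.rpow_mul hk0.le]
      norm_num

/-- `q^(-1/2)` -/
lemma qq_le (hb : Big k K) (hp : Par k M s q) :
    Real.sqrt ((q : ℝ)⁻¹) ≤ (k : ℝ) ^ (-0.07625 : ℝ) := by
  have hk0 : (0 : ℝ) < k := zero_lt_one.trans hb.one
  have h1 : (q : ℝ)⁻¹ ≤ (k : ℝ) ^ (-0.1525 : ℝ) := by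
    rw [Real.rpow_neg hk0.le]
    exact inv_anti₀ (by positivity) hp.qlo
  calc Real.sqrt ((q : ℝ)⁻¹) ≤ Real.sqrt ((k : ℝ) ^ (-0.1525 : ℝ)) := Real.sqrt_le_sqrt h1
    _ = (k : ℝ) ^ (-0.07625 : ℝ) := by
      rw [Real.sqrt_eq_rpow, ← Real.rpow_mul hk0.le]
      norm_num

lemma inv_pow_sqrt (x : ℝ) (hx : 0 ≤ x) (p : ℕ) : (1 : ℝ) / x ^ p = Real.sqrt (x⁻¹) ^ (2 * p) := by
  rw [pow_mul, Real.sq_sqrt (inv_nonneg.2 hx), inv_pow, one_div]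

end num

/-- the tail bound from a moment bound -/
lemma tail {V : Type} [Fintype V] {M : ℕ} [NeZero M] {k : ℕ} {K : ℝ} (hb : Big k K)
    (hK : 0 ≤ K) (f : (V → ZMod M) → ℝ) (μ lam : ℝ) (hlam : 0 < lam) (hμ : 0 ≤ μ)
    (hm : mean (fun h => f h ^ (2 * 12000)) ≤ K * μ ^ (2 * 12000))
    (hml : μ ≤ 512 * (k : ℝ) ^ (-0.002 : ℝ) * lam) :
    ((Finset.univ.filter fun h : V → ZMod M => lam ≤ |f h|).card : ℝ) ≤
      (k : ℝ) ^ (-46 : ℝ) * (M : ℝ) ^ Fintype.card V := by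
  have hk0 : (0 : ℝ) < k := zero_lt_one.trans hb.one
  have h1 := mkv V (ZMod M) (by rw [ZMod.card]; exact NeZero.pos M) f 12000 lam _ hlam hm
    (Finset.univ.filter fun h : V → ZMod M => lam ≤ |f h|)
    (fun h hh => (Finset.mem_filter.1 hh).2)
  refine h1.trans ?_
  rw [ZMod.card, mul_comm]
  refine mul_le_mul_of_nonneg_right ?_ (by positivity)
  have h2 : K * μ ^ (2 * 12000) / lam ^ (2 * 12000) = K * (μ / lam) ^ (2 * 12000) := by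
    rw [div_pow]; ring
  rw [h2]
  have h3 : μ / lam ≤ 512 * (k : ℝ) ^ (-0.002 : ℝ) := by
    rw [div_le_iff₀ hlam]; exact hml
  have h4 : (μ / lam) ^ (2 * 12000) ≤ (512 * (k : ℝ) ^ (-0.002 : ℝ)) ^ (2 * 12000) :=
    pow_le_pow_left₀ (by positivity) h3 _
  have h5 : ((k : ℝ) ^ (-0.002 : ℝ)) ^ (2 * 12000) = (k : ℝ) ^ (-48 : ℝ) := by
    rw [← Real.rpow_natCast, ← Real.rpow_mul hk0.le]
    norm_num
  calc K * (μ / lam) ^ (2 * 12000)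
      ≤ K * (512 * (k : ℝ) ^ (-0.002 : ℝ)) ^ (2 * 12000) := by gcongr
    _ = (K * 512 ^ 24000) * (k : ℝ) ^ (-48 : ℝ) := by
      rw [mul_pow, h5, mul_assoc]
    _ ≤ (k : ℝ) ^ 2 * (k : ℝ) ^ (-48 : ℝ) := by
      have := hb.kK
      gcongr
    _ = (k : ℝ) ^ (-46 : ℝ) := by
      rw [← Real.rpow_natCast, ← Real.rpow_add hk0]
      norm_num

end Pool.Agent.C4W
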