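import Pool.Agent.Helper53_C4W.Siz

/-!
# SIZ: bounds of all fields and the theorem
-/

set_option autoImplicit false

open scoped BigOperators Classical

noncomputable section

namespace Pool.Agent.C4W

open Pool.Agent.C4M (mean IsNbd mkv)

variable {V : Type} [Fintype V] {M : ℕ} [NeZero M] {k s q : ℕ} {K : ℝ}

lemma outN_rev (A : Set (V × V)) (x : V) : outN (Prod.swap ⁻¹' A) x = inN A x := by
  ext y
  simp [outN, inN]

lemma dO_hi (hb : Big k K) {O : Set (V × V)} (hs : s ≤ k) (h : NReg k s O) (x : V) :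
    ((outN O x).card : ℝ) ≤ 2 * k ∧ ((inN O x).card : ℝ) ≤ 2 * k := by
  have hs' : (s : ℝ) ≤ k := by exact_mod_cast hs
  have h0 : (0 : ℝ) ≤ s := by positivity
  have h1 := (abs_le.1 (h x).1).2
  have h2 := (abs_le.1 (h x).2).2
  have h3 : s * (k : ℝ) ^ (-0.4 : ℝ) ≤ s * (1 / 10) := mul_le_mul_of_nonneg_left hb.k04 h0
  constructor <;> linarith

lemma dO_lo (hb : Big k K) {O : Set (V × V)} (h : NReg k s O) (x : V) :
    9 / 10 * (s : ℝ) ≤ (outN O x).card ∧ 9 / 10 * (s : ℝ) ≤ (inN O x).card := by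
  have h0 : (0 : ℝ) ≤ s := by positivity
  have h1 := (abs_le.1 (h x).1).1
  have h2 := (abs_le.1 (h x).2).1
  have h3 : s * (k : ℝ) ^ (-0.4 : ℝ) ≤ s * (1 / 10) := mul_le_mul_of_nonneg_left hb.k04 h0
  constructor <;> linarith

lemma s_ge (hb : Big k K) (hp : Par k M s q) : (100 : ℝ) ≤ s := hb.ks.trans hp.slo

lemma DOk.envD (hb : Big k K) (hp : Par k M s q) {D : Dat V M} (hs : D.s = s)
    (h : DOk k D) : EnvD D (2 * k) := by
  have hk0 : (0 : ℝ) < k := zero_lt_one.trans hb.one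
  have hsk : (s : ℝ) ≤ k := by exact_mod_cast hp.shi
  have hO : NReg k s D.O := hs ▸ h.dO
  refine ⟨h.nbd, fun x => ?_, fun x => ?_, fun x => (dO_hi hb hp.shi hO x).1, fun x => ?_, ?_, ?_⟩
  · have : ((outN D.R x).card : ℝ) ≤ k := by exact_mod_cast (h.dR x).1
    linarith
  · have e : outN D.rev.R x = inN D.R x := outN_rev _ _
    rw [e]
    have : ((inN D.R x).card : ℝ) ≤ k := by exact_mod_cast (h.dR x).2
    linarith
  · have e : outN D.rev.O x = inN D.O x := outN_rev _ _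
    rw [e]
    exact (dO_hi hb hp.shi hO x).2
  · rw [hs]; linarith
  · rw [hs]
    calc (M : ℝ) ≤ (k : ℝ) ^ (0.54 : ℝ) := hp.Mhi
      _ ≤ (k : ℝ) ^ (1 - 1 / 400 : ℝ) :=
        Real.rpow_le_rpow_of_exponent_le hb.one.le (by norm_num)
      _ ≤ s := hp.slo

lemma kap_le {n s r I : ℝ} (hs : 100 ≤ s) (hn : 9 / 10 * s ≤ n) (hr : r ≤ 5) (hI : I ≤ 3)
    (_ : 0 ≤ I) : I * |-s / (n - r)| ≤ 4 := by
  have h1 : 3 / 4 * s ≤ n - r := by linarith
  have h2 : 0 < n - r := by linarith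
  rw [abs_div, abs_neg, abs_of_nonneg (by linarith : (0 : ℝ) ≤ s), abs_of_pos h2]
  have h3 : s / (n - r) ≤ 4 / 3 := by
    rw [div_le_iff₀ h2]; linarith
  have h4 : 0 ≤ s / (n - r) := by positivity
  nlinarith

lemma DOk.std (hb : Big k K) (hp : Par k M s q) {D : Dat V M} (hs : D.s = s)
    (h : DOk k D) : Std D 4 ((M : ℝ) / s) := by
  have hsr := s_ge hb hp
  have hO : NReg k s D.O := hs ▸ h.dO
  have hI3 : (D.I.card : ℝ) ≤ 3 := by exact_mod_cast h.I3
  have hs0 : (0 : ℝ) < s := by linarith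
  refine ⟨?_, ⟨D.i1, h.I1⟩, h.disj, fun x y => ?_, fun x r hr => ?_, fun x r hr => ?_,
    by norm_num, fun x => ?_, fun x => ?_⟩
  · rw [hs]; exact_mod_cast hs0
  · have := h.β x y
    rw [abs_le]
    constructor <;> linarith [this.1, this.2]
  · unfold Dat.kap
    rw [hs]
    exact kap_le hsr (dO_lo hb hO x).1 (by exact_mod_cast hr) hI3 (by positivity)
  · unfold Dat.kap
    have e1 : D.rev.s = D.s := rfl
    have e2 : outN D.rev.O x = inN D.O x := outN_rev _ _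
    rw [e1, e2, hs]
    exact kap_le hsr (dO_lo hb hO x).2 (by exact_mod_cast hr) hI3 (by positivity)
  · rw [hs, abs_div, abs_of_pos hs0]
    exact div_le_div_of_nonneg_right (h.fp x) hs0.le
  · rw [hs, abs_div, abs_of_pos hs0]
    exact div_le_div_of_nonneg_right (h.fm x) hs0.le

omit [Fintype V] [NeZero M] in
lemma rho_ne {D : Dat V M} (h12 : D.i1 ≠ D.i2) : D.rho ≠ 0 :=
  fun e => h12 (sub_eq_zero.1 e).symm

/-- thresholds -/
def lam1 (k : ℕ) : ℝ := (k : ℝ) ^ (-0.1 : ℝ)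
def lam2 (k : ℕ) : ℝ := (k : ℝ) ^ (-1.0195 : ℝ)

/-- the constants of the three moment theorems -/
def K1 : ℝ := (mom_RF 12000 (by norm_num)).choose
def K2 : ℝ := (bon_RF 12000 (by norm_num)).choose
def K3 : ℝ := (win_RF 12000 (by norm_num)).choose

lemma K1_nonneg : 0 ≤ K1 := (mom_RF 12000 (by norm_num)).choose_spec.1
lemma K2_nonneg : 0 ≤ K2 := (bon_RF 12000 (by norm_num)).choose_spec.1
lemma K3_nonneg : 0 ≤ K3 := (win_RF 12000 (by norm_num)).choose_spec.1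

def K0 : ℝ := K1 + K2 + K3

lemma K0_nonneg : 0 ≤ K0 := add_nonneg (add_nonneg K1_nonneg K2_nonneg) K3_nonneg

/-- the number of labellings for which a quantity is large -/
def Sml (k : ℕ) (f : (V → ZMod M) → ℝ) (lam : ℝ) : Prop :=
  ((Finset.univ.filter fun h : V → ZMod M => lam ≤ |f h|).card : ℝ) ≤
    (k : ℝ) ^ (-46 : ℝ) * (M : ℝ) ^ Fintype.card V

/-- fields without P-vertex -/
lemma sml_mom (hb : Big k K0) (hp : Par k M s q) {D : Dat V M} (hs : D.s = s)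
    (hD : DOk k D) {C t : ℝ} {shs : List (List Sh)} {wt : ℕ}
    {f : (V → ZMod M) → V → ZMod M → Finset V → ℝ} (hC : 0 ≤ C) (ht : 0 ≤ t)
    (hsh : ∀ sh ∈ shs, ShOk 5 wt sh) (hf : RF D 4 C t shs f) (x : V) (a : ZMod M)
    (A : Finset V) (hA : A ⊆ outN D.O x) {lam : ℝ} (hlam : 0 < lam)
    (hml : C * t * (2 * (k : ℝ) / s) ^ 5 * rr M s ^ wt ≤ 512 * (k : ℝ) ^ (-0.002 : ℝ) * lam) :
    Sml k (fun h => f h x a A) lam := by
  have h1 := (mom_RF 12000 (by norm_num)).choose_spec.2 V M D (2 * k) (hD.envD hb hp hs) C t shs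
    5 wt f le_rfl hC ht hsh hf x a A hA
  rw [hs, rr_pow, mul_assoc, ← mul_pow] at h1
  have hr := rr_nonneg (M := M) (s := s)
  refine tail hb K0_nonneg _ (C * t * (2 * (k : ℝ) / s) ^ 5 * rr M s ^ wt) lam hlam
    (by positivity) ?_ hml
  refine h1.trans ?_
  have : (mom_RF 12000 (by norm_num)).choose ≤ K0 := by
    have a1 := K2_nonneg
    have a2 := K3_nonneg
    have a3 : (mom_RF 12000 (by norm_num)).choose = K1 := rfl
    rw [a3]; unfold K0; linarith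
  exact mul_le_mul_of_nonneg_right this (by positivity)

/-- fields with P-vertex -/
lemma sml_bon (hb : Big k K0) (hp : Par k M s q) {D : Dat V M} (hs : D.s = s)
    (hD : DOk k D) {C t : ℝ} {shs : List (List Sh)} {n0 wt : ℕ} (hn0 : n0 ≤ 5)
    {f : (V → ZMod M) → V → ZMod M → Finset V → ℝ} (hC : 0 ≤ C) (ht : 0 ≤ t)
    (hsh : ∀ sh ∈ shs, ShB n0 wt sh) (hf : RF D 4 C t shs f) (x : V) (a : ZMod M)
    (A : Finset V) (hA : A ⊆ outN D.O x) {lam : ℝ} (hlam : 0 < lam)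
    (hml : C * t * (2 * (k : ℝ) / s) ^ n0 * rr M s ^ wt * Real.sqrt ((s : ℝ)⁻¹) ≤
      512 * (k : ℝ) ^ (-0.002 : ℝ) * lam) :
    Sml k (fun h => f h x a A) lam := by
  have h1 := (bon_RF 12000 (by norm_num)).choose_spec.2 V M D (2 * k) (hD.envD hb hp hs) C t shs
    n0 wt f hn0 hC ht hsh hf x a A hA
  rw [hs, rr_pow, mul_assoc, ← mul_pow, ← mul_one_div, inv_pow_sqrt _ (by positivity),
    mul_assoc, ← mul_pow] at h1
  have hr := rr_nonneg (M := M) (s := s)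
  refine tail hb K0_nonneg _
    (C * t * (2 * (k : ℝ) / s) ^ n0 * rr M s ^ wt * Real.sqrt ((s : ℝ)⁻¹)) lam hlam
    (by positivity) ?_ hml
  refine h1.trans ?_
  have : (bon_RF 12000 (by norm_num)).choose ≤ K0 := by
    have a1 := K1_nonneg
    have a2 := K3_nonneg
    have a3 : (bon_RF 12000 (by norm_num)).choose = K2 := rfl
    rw [a3]; unfold K0; linarith
  exact mul_le_mul_of_nonneg_right this (by positivity)

lemma alg3 {K X Y S Q σ κ : ℝ} {n : ℕ} (h1 : 1 / S = σ ^ n) (h2 : 1 / Q = κ ^ n) :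
    K * X ^ n * Y ^ n / S / Q = K * (X * Y * σ * κ) ^ n := by
  rw [mul_pow, mul_pow, mul_pow, ← h1, ← h2]
  ring

/-- window average -/
lemma sml_win [Fact M.Prime] (hb : Big k K0) (hp : Par k M s q) {D : Dat V M} (hs : D.s = s)
    (hD : DOk k D) {C : ℝ}
    {f : (V → ZMod M) → V → ZMod M → Finset V → ℝ} (hC : 0 ≤ C)
    (hq1 : 1 ≤ q) (hq2 : q ≤ M) (hf : RF D 4 C 1 shg2 f) (x : V) (a : ZMod M)
    (A : Finset V) (hA : A ⊆ outN D.O x) {lam : ℝ} (hlam : 0 < lam)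
    (hml : C * (2 * (k : ℝ) / s) ^ 3 * rr M s ^ 2 * Real.sqrt ((s : ℝ)⁻¹) *
      Real.sqrt ((q : ℝ)⁻¹) ≤ 512 * (k : ℝ) ^ (-0.002 : ℝ) * lam) :
    Sml k (fun h => (q : ℝ)⁻¹ * ∑ j ∈ Finset.range q,
          f h x (a - (j : ZMod M) * D.rho) A) lam := by
  have h1 := (win_RF 12000 (by norm_num)).choose_spec.2 V M D (2 * k) (hD.envD hb hp hs)
    (rho_ne hD.I12) C q f hC hq1 hq2 hf x a A hA
  have e0 : ((M : ℝ) / s) = rr M s ^ 2 := (Real.sq_sqrt (by positivity)).symm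
  rw [hs, e0, alg3 (inv_pow_sqrt (s : ℝ) (by positivity) 12000)
    (inv_pow_sqrt (q : ℝ) (by positivity) 12000)] at h1
  have hr := rr_nonneg (M := M) (s := s)
  refine tail hb K0_nonneg _ (C * (2 * (k : ℝ) / s) ^ 3 * rr M s ^ 2 * Real.sqrt ((s : ℝ)⁻¹) *
      Real.sqrt ((q : ℝ)⁻¹)) lam hlam (by positivity) ?_ hml
  refine h1.trans ?_
  have : (win_RF 12000 (by norm_num)).choose ≤ K0 := by
    have a1 := K1_nonneg
    have a2 := K2_nonneg
    have a3 : (win_RF 12000 (by norm_num)).choose = K3 := rfl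
    rw [a3]; unfold K0; linarith
  exact mul_le_mul_of_nonneg_right this (by positivity)

end Pool.Agent.C4W
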