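import Pool.Agent.Helper53_C4W.Siz2

/-!
# SIZ: the theorem
-/

set_option autoImplicit false

open scoped BigOperators Classical

noncomputable section

namespace Pool.Agent.C4W

open Pool.Agent.C4M (mean IsNbd mkv)

section num

variable {k M s q : ℕ} {K : ℝ}

lemma fin_num (hb : Big k K) {c e f : ℝ} (hc0 : 0 ≤ c) (hc : c ≤ 512) (he : e ≤ -0.002 + f) :
    c * (k : ℝ) ^ e ≤ 512 * (k : ℝ) ^ (-0.002 : ℝ) * (k : ℝ) ^ f := by
  have hk0 : (0 : ℝ) < k := zero_lt_one.trans hb.one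
  rw [mul_assoc, ← Real.rpow_add hk0]
  have h1 : (k : ℝ) ^ e ≤ (k : ℝ) ^ (-0.002 + f) :=
    Real.rpow_le_rpow_of_exponent_le hb.one.le he
  have h2 : 0 ≤ (k : ℝ) ^ e := by positivity
  nlinarith

lemma rr_le_one (hb : Big k K) (hp : Par k M s q) : rr M s ≤ 1 := by
  refine (rr_le hb hp).trans ?_
  exact Real.rpow_le_one_of_one_le_of_nonpos hb.one.le (by norm_num)

lemma rr_sq : (M : ℝ) / s = rr M s ^ 2 := (Real.sq_sqrt (by positivity)).symm

/-- weight of the terminal times the marks -/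
lemma t_rr (w : Wd) (n : ℕ) (hn : w.hasf = true → 2 ≤ n) :
    (if w.hasf then (M : ℝ) / s else 1) * rr M s ^ wtm n w = rr M s ^ n := by
  unfold wtm
  by_cases h : w.hasf = true
  · rw [if_pos h, if_pos h, rr_sq, ← pow_add]
    congr 1
    have := hn h
    omega
  · rw [if_neg h, if_neg h, one_mul]

lemma num_own (hb : Big k K) (hp : Par k M s q) (w : Wd) (n : ℕ) (hn1 : 1 ≤ n)
    (hn : w.hasf = true → 2 ≤ n) :
    4 * (if w.hasf then (M : ℝ) / s else 1) * (2 * (k : ℝ) / s) ^ 5 * rr M s ^ wtm n w ≤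
      512 * (k : ℝ) ^ (-0.002 : ℝ) * lam1 k := by
  have hk0 : (0 : ℝ) < k := zero_lt_one.trans hb.one
  have e : 4 * (if w.hasf then (M : ℝ) / s else 1) * (2 * (k : ℝ) / s) ^ 5 * rr M s ^ wtm n w =
      4 * (2 * (k : ℝ) / s) ^ 5 * rr M s ^ n := by
    rw [← t_rr w n hn]; ring
  rw [e]
  have h1 : rr M s ^ n ≤ rr M s ^ 1 := pow_le_pow_of_le_one rr_nonneg (rr_le_one hb hp) hn1
  have h2 := dr_pow_le hb hp 5
  have h3 := rr_pow_le hb hp 1
  have hr := rr_nonneg (M := M) (s := s)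
  calc 4 * (2 * (k : ℝ) / s) ^ 5 * rr M s ^ n
      ≤ 4 * (2 ^ 5 * (k : ℝ) ^ ((5 : ℕ) / 400 : ℝ)) *
          (k : ℝ) ^ (-0.22875 * (1 : ℕ) : ℝ) := by
        have := h1.trans h3
        gcongr
    _ = 128 * (k : ℝ) ^ ((5 : ℕ) / 400 + -0.22875 * (1 : ℕ) : ℝ) := by
        rw [Real.rpow_add hk0]; ring
    _ ≤ _ := fin_num hb (by norm_num) (by norm_num) (by norm_num)

lemma num_T (hb : Big k K) (hp : Par k M s q) :
    2 * 1 * (2 * (k : ℝ) / s) ^ 5 * rr M s ^ 2 ≤ 512 * (k : ℝ) ^ (-0.002 : ℝ) * lam1 k := by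
  have hk0 : (0 : ℝ) < k := zero_lt_one.trans hb.one
  have h2 := dr_pow_le hb hp 5
  have h3 := rr_pow_le hb hp 2
  have hr := rr_nonneg (M := M) (s := s)
  calc 2 * 1 * (2 * (k : ℝ) / s) ^ 5 * rr M s ^ 2
      ≤ 2 * 1 * (2 ^ 5 * (k : ℝ) ^ ((5 : ℕ) / 400 : ℝ)) *
          (k : ℝ) ^ (-0.22875 * (2 : ℕ) : ℝ) := by gcongr
    _ = 64 * (k : ℝ) ^ ((5 : ℕ) / 400 + -0.22875 * (2 : ℕ) : ℝ) := by
        rw [Real.rpow_add hk0]; ring
    _ ≤ _ := fin_num hb (by norm_num) (by norm_num) (by norm_num)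

lemma num_Tw (hb : Big k K) (hp : Par k M s q) :
    (q * 16) * 1 * (2 * (k : ℝ) / s) ^ 5 * rr M s ^ 2 * Real.sqrt ((s : ℝ)⁻¹) ≤
      512 * (k : ℝ) ^ (-0.002 : ℝ) * lam1 k := by
  have hk0 : (0 : ℝ) < k := zero_lt_one.trans hb.one
  have h2 := dr_pow_le hb hp 5
  have h3 := rr_pow_le hb hp 2
  have h4 := ss_le hb hp
  have h5 := hp.qhi
  have hr := rr_nonneg (M := M) (s := s)
  calc (q * 16) * 1 * (2 * (k : ℝ) / s) ^ 5 * rr M s ^ 2 * Real.sqrt ((s : ℝ)⁻¹)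
      ≤ ((k : ℝ) ^ (0.1535 : ℝ) * 16) * 1 * (2 ^ 5 * (k : ℝ) ^ ((5 : ℕ) / 400 : ℝ)) *
          (k : ℝ) ^ (-0.22875 * (2 : ℕ) : ℝ) * (k : ℝ) ^ (-0.49875 : ℝ) := by gcongr
    _ = 512 * (k : ℝ) ^ (0.1535 + (5 : ℕ) / 400 + -0.22875 * (2 : ℕ) + -0.49875 : ℝ) := by
        rw [Real.rpow_add hk0, Real.rpow_add hk0, Real.rpow_add hk0]; ring
    _ ≤ _ := fin_num hb (by norm_num) (by norm_num) (by norm_num)

lemma num_W5 (hb : Big k K) (hp : Par k M s q) (w : Wd) :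
    4 * (if w.hasf then (M : ℝ) / s else 1) * (2 * (k : ℝ) / s) ^ 5 * rr M s ^ wtm 5 w ≤
      512 * (k : ℝ) ^ (-0.002 : ℝ) * lam2 k := by
  have hk0 : (0 : ℝ) < k := zero_lt_one.trans hb.one
  have e : 4 * (if w.hasf then (M : ℝ) / s else 1) * (2 * (k : ℝ) / s) ^ 5 * rr M s ^ wtm 5 w =
      4 * (2 * (k : ℝ) / s) ^ 5 * rr M s ^ 5 := by
    rw [← t_rr w 5 (fun _ => by norm_num)]; ring
  rw [e]
  have h2 := dr_pow_le hb hp 5
  have h3 := rr_pow_le hb hp 5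
  have hr := rr_nonneg (M := M) (s := s)
  calc 4 * (2 * (k : ℝ) / s) ^ 5 * rr M s ^ 5
      ≤ 4 * (2 ^ 5 * (k : ℝ) ^ ((5 : ℕ) / 400 : ℝ)) *
          (k : ℝ) ^ (-0.22875 * (5 : ℕ) : ℝ) := by gcongr
    _ = 128 * (k : ℝ) ^ ((5 : ℕ) / 400 + -0.22875 * (5 : ℕ) : ℝ) := by
        rw [Real.rpow_add hk0]; ring
    _ ≤ _ := fin_num hb (by norm_num) (by norm_num) (by norm_num)

lemma num_P (hb : Big k K) (hp : Par k M s q) (w : Wd) (n : ℕ) (hn : 3 ≤ n) :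
    4 * (if w.hasf then (M : ℝ) / s else 1) * (2 * (k : ℝ) / s) ^ 5 * rr M s ^ wtm n w *
      Real.sqrt ((s : ℝ)⁻¹) ≤ 512 * (k : ℝ) ^ (-0.002 : ℝ) * lam2 k := by
  have hk0 : (0 : ℝ) < k := zero_lt_one.trans hb.one
  have e : 4 * (if w.hasf then (M : ℝ) / s else 1) * (2 * (k : ℝ) / s) ^ 5 * rr M s ^ wtm n w *
      Real.sqrt ((s : ℝ)⁻¹) = 4 * (2 * (k : ℝ) / s) ^ 5 * rr M s ^ n *
      Real.sqrt ((s : ℝ)⁻¹) := by
    rw [← t_rr w n (fun _ => by omega)]; ring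
  rw [e]
  have h1 : rr M s ^ n ≤ rr M s ^ 3 := pow_le_pow_of_le_one rr_nonneg (rr_le_one hb hp) hn
  have h2 := dr_pow_le hb hp 5
  have h3 := rr_pow_le hb hp 3
  have h4 := ss_le hb hp
  have hr := rr_nonneg (M := M) (s := s)
  calc 4 * (2 * (k : ℝ) / s) ^ 5 * rr M s ^ n * Real.sqrt ((s : ℝ)⁻¹)
      ≤ 4 * (2 ^ 5 * (k : ℝ) ^ ((5 : ℕ) / 400 : ℝ)) *
          (k : ℝ) ^ (-0.22875 * (3 : ℕ) : ℝ) * (k : ℝ) ^ (-0.49875 : ℝ) := by
        have := h1.trans h3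
        gcongr
    _ = 128 * (k : ℝ) ^ ((5 : ℕ) / 400 + -0.22875 * (3 : ℕ) + -0.49875 : ℝ) := by
        rw [Real.rpow_add hk0, Real.rpow_add hk0]; ring
    _ ≤ _ := fin_num hb (by norm_num) (by norm_num) (by norm_num)

lemma num_W (hb : Big k K) (hp : Par k M s q) :
    16 * (2 * (k : ℝ) / s) ^ 3 * rr M s ^ 2 * Real.sqrt ((s : ℝ)⁻¹) *
      Real.sqrt ((q : ℝ)⁻¹) ≤ 512 * (k : ℝ) ^ (-0.002 : ℝ) * lam2 k := by
  have hk0 : (0 : ℝ) < k := zero_lt_one.trans hb.one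
  have h2 := dr_pow_le hb hp 3
  have h3 := rr_pow_le hb hp 2
  have h4 := ss_le hb hp
  have h5 := qq_le hb hp
  have hr := rr_nonneg (M := M) (s := s)
  calc 16 * (2 * (k : ℝ) / s) ^ 3 * rr M s ^ 2 * Real.sqrt ((s : ℝ)⁻¹) *
      Real.sqrt ((q : ℝ)⁻¹)
      ≤ 16 * (2 ^ 3 * (k : ℝ) ^ ((3 : ℕ) / 400 : ℝ)) *
          (k : ℝ) ^ (-0.22875 * (2 : ℕ) : ℝ) * (k : ℝ) ^ (-0.49875 : ℝ) *
          (k : ℝ) ^ (-0.07625 : ℝ) := by gcongr
    _ = 128 * (k : ℝ) ^ ((3 : ℕ) / 400 + -0.22875 * (2 : ℕ) + -0.49875 + -0.07625 : ℝ) := by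
        rw [Real.rpow_add hk0, Real.rpow_add hk0, Real.rpow_add hk0]; ring
    _ ≤ _ := fin_num hb (by norm_num) (by norm_num) (by norm_num)

lemma num_N (hb : Big k K) (hp : Par k M s q) :
    (2 * (q * 16)) * 1 * (2 * (k : ℝ) / s) ^ 4 * rr M s ^ 3 * Real.sqrt ((s : ℝ)⁻¹) ≤
      512 * (k : ℝ) ^ (-0.002 : ℝ) * lam2 k := by
  have hk0 : (0 : ℝ) < k := zero_lt_one.trans hb.one
  have h2 := dr_pow_le hb hp 4
  have h3 := rr_pow_le hb hp 3
  have h4 := ss_le hb hp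
  have h5 := hp.qhi
  have hr := rr_nonneg (M := M) (s := s)
  calc (2 * (q * 16)) * 1 * (2 * (k : ℝ) / s) ^ 4 * rr M s ^ 3 * Real.sqrt ((s : ℝ)⁻¹)
      ≤ (2 * ((k : ℝ) ^ (0.1535 : ℝ) * 16)) * 1 * (2 ^ 4 * (k : ℝ) ^ ((4 : ℕ) / 400 : ℝ)) *
          (k : ℝ) ^ (-0.22875 * (3 : ℕ) : ℝ) * (k : ℝ) ^ (-0.49875 : ℝ) := by gcongr
    _ = 512 * (k : ℝ) ^ (0.1535 + (4 : ℕ) / 400 + -0.22875 * (3 : ℕ) + -0.49875 : ℝ) := by
        rw [Real.rpow_add hk0, Real.rpow_add hk0, Real.rpow_add hk0]; ring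
    _ ≤ _ := fin_num hb (by norm_num) (by norm_num) (by norm_num)

end num

variable {V : Type} [Fintype V] {M : ℕ} [NeZero M] {k s q : ℕ}

lemma q_le_M (hb : Big k K0) (hp : Par k M s q) : 1 ≤ q ∧ q ≤ M := by
  have hk0 : (0 : ℝ) < k := zero_lt_one.trans hb.one
  constructor
  · have h1 : (1 : ℝ) ≤ (k : ℝ) ^ (0.1525 : ℝ) := Real.one_le_rpow hb.one.le (by norm_num)
    have := h1.trans hp.qlo
    exact_mod_cast this
  · have h1 : (k : ℝ) ^ (0.1535 : ℝ) ≤ (k : ℝ) ^ (0.53 : ℝ) :=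
      Real.rpow_le_rpow_of_exponent_le hb.one.le (by norm_num)
    have := (hp.qhi.trans h1).trans hp.Mlo
    exact_mod_cast this

/-- own words -/
lemma sml_own [Fact M.Prime] (hb : Big k K0) (hp : Par k M s q) {D : Dat V M} (hs : D.s = s)
    (hD : DOk k D) {w : Wd} (hw : w ∈ Wown) (x : V) (a : ZMod M) (A : Finset V)
    (hA : A ⊆ outN D.O x) : Sml k (fun h => fld w D h x a A) (lam1 k) := by
  have hk0 : (0 : ℝ) < k := zero_lt_one.trans hb.one
  have hlam : 0 < lam1 k := by unfold lam1; positivity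
  have hgood : w.good = true := good_all w (by simp [hw])
  have hstd := hD.std hb hp hs
  have hrf := rf_fld w hgood D hstd (rho_ne hD.I12)
  have key : ∀ n : ℕ, 1 ≤ n → (w.hasf = true → 2 ≤ n) →
      (∀ sh ∈ w.shapes, ShOk 5 (wtm n w) sh) →
      Sml k (fun h => fld w D h x a A) (lam1 k) := by
    intro n hn1 hn2 hsh
    exact sml_mom hb hp hs hD (by norm_num) (by split_ifs <;> positivity) hsh hrf x a A hA hlam
      (num_own hb hp w n hn1 hn2)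
  simp only [Wown, List.mem_append] at hw
  rcases hw with ((hw | hw) | hw) | hw
  · refine key 1 le_rfl ?_ (shp_W1 w hw)
    intro hf
    exfalso
    have : ∀ w ∈ W1, w.hasf = false := by decide
    rw [this w hw] at hf
    exact absurd hf (by decide)
  · exact key 2 (by norm_num) (fun _ => le_rfl) (shp_W2 w hw)
  · exact key 3 (by norm_num) (fun _ => by norm_num) (shp_W3 w hw)
  · exact key 4 (by norm_num) (fun _ => by norm_num) (shp_W4 w hw)

lemma sml_T [Fact M.Prime] (hb : Big k K0) (hp : Par k M s q) {D : Dat V M} (hs : D.s = s)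
    (hD : DOk k D) (x : V) (a : ZMod M) (A : Finset V)
    (hA : A ⊆ outN D.O x) : Sml k (fun h => opT gE D h x a A) (lam1 k) := by
  have hk0 : (0 : ℝ) < k := zero_lt_one.trans hb.one
  have hlam : 0 < lam1 k := by unfold lam1; positivity
  exact sml_mom hb hp hs hD (by norm_num) (by norm_num) shp_T
    (rf_T (hD.std hb hp hs) (rho_ne hD.I12)) x a A hA hlam (num_T hb hp)

lemma sml_Tw [Fact M.Prime] (hb : Big k K0) (hp : Par k M s q) {D : Dat V M} (hs : D.s = s)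
    (hD : DOk k D) (x : V) (a : ZMod M) (A : Finset V)
    (hA : A ⊆ outN D.O x) : Sml k (fun h => opTw q g2 D h x a A) (lam1 k) := by
  have hk0 : (0 : ℝ) < k := zero_lt_one.trans hb.one
  have hlam : 0 < lam1 k := by unfold lam1; positivity
  exact sml_bon hb hp hs hD le_rfl (by positivity) (by norm_num) shp_g2
    (rf_Tw (F := g2) (rf_g2 D (hD.std hb hp hs) (rho_ne hD.I12)) (by norm_num) q)
    x a A hA hlam (num_Tw hb hp)

lemma sml_W5 [Fact M.Prime] (hb : Big k K0) (hp : Par k M s q) {D : Dat V M} (hs : D.s = s)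
    (hD : DOk k D) {w : Wd} (hw : w ∈ W5) (x : V) (a : ZMod M) (A : Finset V)
    (hA : A ⊆ outN D.O x) : Sml k (fun h => fld w D h x a A) (lam2 k) := by
  have hk0 : (0 : ℝ) < k := zero_lt_one.trans hb.one
  have hlam : 0 < lam2 k := by unfold lam2; positivity
  exact sml_mom hb hp hs hD (by norm_num) (by split_ifs <;> positivity) (shp_W5 w hw)
    (rf_fld w (good_all w (by simp [hw])) D (hD.std hb hp hs) (rho_ne hD.I12)) x a A hA hlam
    (num_W5 hb hp w)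

lemma sml_P [Fact M.Prime] (hb : Big k K0) (hp : Par k M s q) {D : Dat V M} (hs : D.s = s)
    (hD : DOk k D) {w : Wd} (hw : w ∈ W3.map Wd.P ++ W4.map Wd.P) (x : V) (a : ZMod M)
    (A : Finset V) (hA : A ⊆ outN D.O x) : Sml k (fun h => fld w D h x a A) (lam2 k) := by
  have hk0 : (0 : ℝ) < k := zero_lt_one.trans hb.one
  have hlam : 0 < lam2 k := by unfold lam2; positivity
  have hg : w.good = true := by
    refine good_all w ?_
    simp only [Wown, List.map_append, List.mem_append] at hw ⊢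
    tauto
  have hrf := rf_fld w hg D (hD.std hb hp hs) (rho_ne hD.I12)
  rw [List.mem_append] at hw
  rcases hw with hw | hw
  · exact sml_bon hb hp hs hD le_rfl (by norm_num) (by split_ifs <;> positivity) (shp_P3 w hw)
      hrf x a A hA hlam (num_P hb hp w 3 le_rfl)
  · exact sml_bon hb hp hs hD le_rfl (by norm_num) (by split_ifs <;> positivity) (shp_P4 w hw)
      hrf x a A hA hlam (num_P hb hp w 4 (by norm_num))

lemma sml_W [Fact M.Prime] (hb : Big k K0) (hp : Par k M s q) {D : Dat V M} (hs : D.s = s)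
    (hD : DOk k D) (x : V) (a : ZMod M) (A : Finset V)
    (hA : A ⊆ outN D.O x) : Sml k (fun h => opW q g2 D h x a A) (lam2 k) := by
  have hk0 : (0 : ℝ) < k := zero_lt_one.trans hb.one
  have hlam : 0 < lam2 k := by unfold lam2; positivity
  obtain ⟨h1, h2⟩ := q_le_M hb hp
  exact sml_win hb hp hs hD (by norm_num) h1 h2
    (rf_g2 D (hD.std hb hp hs) (rho_ne hD.I12)) x a A hA hlam (num_W hb hp)

lemma sml_Lam [Fact M.Prime] (hb : Big k K0) (hp : Par k M s q) {D : Dat V M} (hs : D.s = s)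
    (hD : DOk k D) (x : V) (a : ZMod M) (A : Finset V)
    (hA : A ⊆ outN D.O x) : Sml k (fun h => opLam 1 (opTw q g2) D h x a A) (lam2 k) := by
  have hk0 : (0 : ℝ) < k := zero_lt_one.trans hb.one
  have hlam : 0 < lam2 k := by unfold lam2; positivity
  have hstd := hD.std hb hp hs
  exact sml_bon hb hp hs hD (by norm_num) (by positivity) (by norm_num) shp_Lg2
    (rf_Lam (T := opTw q g2) hstd
      (rf_Tw (F := g2) (rf_g2 D hstd (rho_ne hD.I12)) (by norm_num) q) (by norm_num))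
    x a A hA hlam (num_N hb hp)

lemma sml_Ups [Fact M.Prime] (hb : Big k K0) (hp : Par k M s q) {D : Dat V M} (hs : D.s = s)
    (hD : DOk k D) (x : V) (a : ZMod M) (A : Finset V)
    (hA : A ⊆ outN D.O x) : Sml k (fun h => opUps 1 (opTw q g2) D h x a A) (lam2 k) := by
  have hk0 : (0 : ℝ) < k := zero_lt_one.trans hb.one
  have hlam : 0 < lam2 k := by unfold lam2; positivity
  have hstd := hD.std hb hp hs
  exact sml_bon hb hp hs hD (by norm_num) (by positivity) (by norm_num) shp_Ug2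
    (rf_Ups (T := opTw q g2) hstd
      (rf_Tw (F := g2) (rf_g2 D.rev hstd.rev (rho_ne hD.I12)) (by norm_num) q) (by norm_num))
    x a A hA hlam (num_N hb hp)

end Pool.Agent.C4W
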