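import Pool.Agent.Helper53_C4W.ExpW
import Pool.Agent.C4M.Stmts

/-!
# Nested sums are tree polynomials
-/

set_option autoImplicit false

open scoped BigOperators Classical

noncomputable section

namespace Pool.Agent.C4W

open Pool.Agent.C4M (Kind Shape Valid ctr Poly FnOk)

variable {V : Type} [Fintype V] {M : ℕ} [NeZero M]

/-! ### shapes -/

/-- parents -/
def parOf : (sh : List Sh) → Fin sh.length → Option (Fin sh.length)
  | [], t => t.elim0
  | s :: sh, t => Fin.cases none (fun t => match parOf sh t with
      | some u => some u.succ
      | none => if s.stay then none else some 0) t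

/-- the kind of a mark -/
def Kd.toK : Kd → Kind
  | .one => .none
  | .zeta => .zeta
  | .phi => .phi

/-- the list contains a Phi mark -/
def hasPhi (sh : List Sh) : Bool := sh.any fun s => decide (s.kd = .phi)

/-- stages; `b` is true after the P-vertex -/
def stOf : Bool → (sh : List Sh) → Fin sh.length → ℕ
  | _, [], t => t.elim0
  | b, s :: sh, t => Fin.cases
      (if s.kd = .phi then 2 else if s.kd = .one then (if hasPhi sh ∧ sh.length = 1 then 2 else 1)
        else if b then 1 else 0)
      (fun t => stOf (b || decide (s.kd = .one)) sh t) t

/-- the shape of a list -/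
def mkS (sh : List Sh) : Shape sh.length where
  par := parOf sh
  kind := fun t => (sh.get t).kd.toK
  st := stOf false sh

/-- neighbourhoods along the list -/
def nbOf : Dat V M → (sh : List Sh) → Fin sh.length → V → Finset V
  | _, [], t => t.elim0
  | D, s :: sh, t => Fin.cases (if s.isR then outN D.R else outN D.O)
      (fun t => nbOf (if s.stay then D else D.rev) sh t) t

/-- coefficients of a nested sum -/
def cf (s : ℕ) (τ : V → ℝ) :
    (sh : List Sh) → List (Ltr V M) → V → Finset V → (Fin sh.length → V) → ℝ
  | [], _, x, _, _ => τ x
  | _ :: _, [], _, _, _ => 0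
  | _ :: sh, l :: w, x, A, v => if v 0 ∈ l.nb x \ A then
      (s : ℝ)⁻¹ * l.om x (v 0) * (if l.stay then cf s τ sh w x (insert (v 0) A) (Fin.tail v)
        else cf s τ sh w (v 0) {x} (Fin.tail v)) else 0

/-- functions of a nested sum -/
def fnOf (a : ZMod M) : (sh : List Sh) → List (Ltr V M) → Fin sh.length → ZMod M → ℝ
  | [], _, t => t.elim0
  | _ :: _, [], _ => fun _ => 1
  | _ :: sh, l :: w, t => Fin.cases (fun c => l.mrk.val a c) (fun t => fnOf a sh w t) t

lemma sum_cons {n : ℕ} (f : (Fin (n + 1) → V) → ℝ) :
    ∑ v, f v = ∑ y, ∑ v' : Fin n → V, f (Fin.cons y v') := by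
  rw [← Fintype.sum_prod_type']
  exact (Equiv.sum_comp (Fin.consEquiv fun _ => V) f).symm

lemma eval_eq (s : ℕ) (τ : V → ℝ) (a : ZMod M) (h : V → ZMod M) {B : ℝ} :
    ∀ (sh : List Sh) (D : Dat V M) (w : List (Ltr V M)) (_ : Fit B D w sh) (x : V)
      (A : Finset V),
    ∑ v : Fin sh.length → V, cf s τ sh w x A v * ∏ t, fnOf a sh w t (h (v t)) =
      Bas s τ w a x A h := by
  intro sh
  induction sh with
  | nil =>
    intro D w hw x A
    cases w with
    | nil => simp [cf, Bas]
    | cons l w => exact absurd hw (by simp [Fit])
  | cons s0 sh ih =>
    intro D w hw x A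
    cases w with
    | nil => exact absurd hw (by simp [Fit])
    | cons l w =>
      have hw' : Fit B (if s0.stay then D else D.rev) w sh := hw.2.2.2.2
      have e : ∀ (y : V) (v' : Fin sh.length → V),
          cf s τ (s0 :: sh) (l :: w) x A (Fin.cons y v') *
            ∏ t, fnOf a (s0 :: sh) (l :: w) t (h ((Fin.cons y v' : Fin (sh.length + 1) → V) t)) =
          if y ∈ l.nb x \ A then (s : ℝ)⁻¹ * (l.om x y * l.mrk.val a (h y) *
            ((if l.stay then cf s τ sh w x (insert y A) v' else cf s τ sh w y {x} v') *
              ∏ t, fnOf a sh w t (h (v' t)))) else 0 := by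
        intro y v'
        have e1 : ∏ t, fnOf a (s0 :: sh) (l :: w) t
            (h ((Fin.cons y v' : Fin (sh.length + 1) → V) t)) =
            l.mrk.val a (h y) * ∏ t, fnOf a sh w t (h (v' t)) := by
          refine (Fin.prod_univ_succ (n := sh.length) _).trans ?_
          simp only [Fin.cons_zero, Fin.cons_succ]
          rfl
        rw [e1]
        simp only [cf, Fin.cons_zero, Fin.tail_cons]
        by_cases hy : y ∈ l.nb x \ A
        · rw [if_pos hy, if_pos hy]; ring
        · rw [if_neg hy, if_neg hy, zero_mul]
      refine (sum_cons (n := sh.length) _).trans ?_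
      simp only [e]
      simp only [Bas]
      rw [Finset.mul_sum, ← Finset.sum_filter_add_sum_filter_not Finset.univ
        (fun y => y ∈ l.nb x \ A)]
      have z : ∑ y ∈ Finset.univ.filter (fun y => ¬ y ∈ l.nb x \ A),
          ∑ v' : Fin sh.length → V, (if y ∈ l.nb x \ A then (s : ℝ)⁻¹ *
            (l.om x y * l.mrk.val a (h y) *
            ((if l.stay then cf s τ sh w x (insert y A) v' else cf s τ sh w y {x} v') *
              ∏ t, fnOf a sh w t (h (v' t)))) else 0) = 0 := by
        refine Finset.sum_eq_zero fun y hy => Finset.sum_eq_zero fun v' _ => ?_
        rw [if_neg (Finset.mem_filter.1 hy).2]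
      rw [z, add_zero]
      have f1 : Finset.univ.filter (fun y => y ∈ l.nb x \ A) = l.nb x \ A := by
        ext y; simp
      rw [f1]
      refine Finset.sum_congr rfl fun y hy => ?_
      simp only [if_pos hy]
      rw [← Finset.mul_sum, ← Finset.mul_sum]
      congr 2
      cases l.stay with
      | true =>
        simp only [if_true]
        exact ih _ w hw' x (insert y A)
      | false =>
        simp only [Bool.false_eq_true, if_false]
        exact ih _ w hw' y {x}

lemma ctr_zero {n : ℕ} (x : V) (par : Fin n → Option (Fin n)) (v : Fin n → V) (t : Fin n)
    (h : par t = none) : ctr x par v t = x := by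
  simp [ctr, h]

lemma ctr_some {n : ℕ} (x : V) (par : Fin n → Option (Fin n)) (v : Fin n → V) (t u : Fin n)
    (h : par t = some u) : ctr x par v t = v u := by
  simp [ctr, h]

lemma parOf_zero (s0 : Sh) (sh : List Sh) : parOf (s0 :: sh) 0 = none := rfl

lemma parOf_succ (s0 : Sh) (sh : List Sh) (t : Fin sh.length) :
    parOf (s0 :: sh) t.succ = match parOf sh t with
      | some u => some u.succ
      | none => if s0.stay then none else some 0 := rfl

lemma nbOf_zero (D : Dat V M) (s0 : Sh) (sh : List Sh) :
    nbOf D (s0 :: sh) 0 = (if s0.isR then outN D.R else outN D.O) := rfl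

lemma nbOf_succ (D : Dat V M) (s0 : Sh) (sh : List Sh) (t : Fin sh.length) :
    nbOf D (s0 :: sh) t.succ = nbOf (if s0.stay then D else D.rev) sh t := rfl

/-- the center of a later index -/
lemma ctr_succ (s0 : Sh) (sh : List Sh) (x : V) (v : Fin (sh.length + 1) → V)
    (t : Fin sh.length) :
    ctr x (parOf (s0 :: sh)) v t.succ =
      ctr (if s0.stay then x else v 0) (parOf sh) (Fin.tail v) t := by
  cases hp : parOf sh t with
  | none =>
    rw [ctr_zero _ _ _ _ hp]
    by_cases hs : s0.stay
    · rw [ctr_zero _ _ _ _ (by rw [parOf_succ, hp]; simp [hs]), if_pos hs]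
    · rw [ctr_some _ _ _ _ 0 (by rw [parOf_succ, hp]; simp [hs]), if_neg hs]
  | some u =>
    rw [ctr_some _ _ _ _ u hp, ctr_some _ _ _ _ u.succ (by rw [parOf_succ, hp])]
    rfl

lemma valid_of_ne (s : ℕ) (τ : V → ℝ) {B : ℝ} :
    ∀ (sh : List Sh) (D : Dat V M) (w : List (Ltr V M)) (_ : Fit B D w sh) (x : V)
      (A : Finset V) (v : Fin sh.length → V), cf s τ sh w x A v ≠ 0 →
      Valid x (parOf sh) (nbOf D sh) v ∧ ∀ t, parOf sh t = none → v t ∉ A := by
  intro sh
  induction sh with
  | nil =>
    intro D w hw x A v _
    exact ⟨⟨fun j => j.elim0, fun j => j.elim0, fun j => j.elim0⟩, fun t => t.elim0⟩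
  | cons s0 sh ih =>
    intro D w hw x A v hv
    cases w with
    | nil => exact absurd hw (by simp [Fit])
    | cons l w =>
      have hw' : Fit B (if s0.stay then D else D.rev) w sh := hw.2.2.2.2
      have hnb : l.nb = (if s0.isR then outN D.R else outN D.O) := hw.1
      have hst : l.stay = s0.stay := hw.2.1
      simp only [cf] at hv
      have hv0 : v 0 ∈ l.nb x \ A := by
        by_contra hc
        rw [if_neg hc] at hv
        exact hv rfl
      rw [if_pos hv0] at hv
      have hv0' := Finset.mem_sdiff.1 hv0
      rw [hst] at hv
      -- the induction hypothesis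
      have key : Valid (if s0.stay then x else v 0) (parOf sh)
          (nbOf (if s0.stay then D else D.rev) sh) (Fin.tail v) ∧
          ∀ t, parOf sh t = none →
            Fin.tail v t ∉ (if s0.stay then insert (v 0) A else {x}) := by
        by_cases hs : s0.stay
        · rw [if_pos hs, if_pos hs, if_pos hs]
          rw [if_pos hs] at hv
          rw [if_pos hs] at hw'
          exact ih D w hw' x _ _ (right_ne_zero_of_mul hv)
        · rw [if_neg hs, if_neg hs, if_neg hs]
          rw [if_neg hs] at hv
          rw [if_neg hs] at hw'
          exact ih _ w hw' _ _ _ (right_ne_zero_of_mul hv)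
      obtain ⟨k1, k2⟩ := key
      refine ⟨⟨?_, ?_, ?_⟩, ?_⟩
      · intro j
        refine Fin.cases ?_ (fun t => ?_) j
        · rw [nbOf_zero, ctr_zero _ _ _ _ (parOf_zero s0 sh), ← hnb]
          exact hv0'.1
        · rw [nbOf_succ, ctr_succ]
          exact k1.mem t
      · intro j u hju
        induction j using Fin.cases with
        | zero => rw [parOf_zero] at hju; exact absurd hju (by simp)
        | succ t =>
          cases hp : parOf sh t with
          | none =>
            by_cases hs : s0.stay
            · rw [parOf_succ, hp] at hju
              simp [hs] at hju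
            · rw [parOf_succ, hp] at hju
              simp only [hs] at hju
              have hu : (0 : Fin (sh.length + 1)) = u := Option.some.inj hju
              rw [← hu, ctr_zero _ _ _ _ (parOf_zero s0 sh)]
              have := k2 t hp
              rw [if_neg hs, Finset.mem_singleton] at this
              exact this
          | some u' =>
            rw [parOf_succ, hp] at hju
            have hu : u'.succ = u := Option.some.inj hju
            rw [← hu, ctr_succ]
            exact k1.grand t u' hp
      · intro j j' hjj hpar
        have main : ∀ t : Fin sh.length, parOf (s0 :: sh) t.succ = none → v t.succ ≠ v 0 := by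
          intro t ht
          rw [parOf_succ] at ht
          cases hp : parOf sh t with
          | none =>
            rw [hp] at ht
            by_cases hs : s0.stay
            · have := k2 t hp
              rw [if_pos hs] at this
              intro e
              exact this (Finset.mem_insert.2 (Or.inl e))
            · simp [hs] at ht
          | some u => rw [hp] at ht; exact absurd ht (by simp)
        induction j using Fin.cases with
        | zero =>
          induction j' using Fin.cases with
          | zero => exact absurd rfl hjj
          | succ t' =>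
            rw [parOf_zero] at hpar
            exact fun e => main t' hpar.symm e.symm
        | succ t =>
          induction j' using Fin.cases with
          | zero =>
            rw [parOf_zero] at hpar
            exact main t hpar
          | succ t' =>
            have hne : t ≠ t' := fun e => hjj (by rw [e])
            have hp : parOf sh t = parOf sh t' := by
              rw [parOf_succ, parOf_succ] at hpar
              cases h1 : parOf sh t with
              | none =>
                cases h2 : parOf sh t' with
                | none => rfl
                | some u =>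
                  rw [h1, h2] at hpar
                  by_cases hs : s0.stay
                  · simp [hs] at hpar
                  · simp only [hs] at hpar
                    have := Option.some.inj hpar
                    exact absurd this.symm (Fin.succ_ne_zero u)
              | some u =>
                cases h2 : parOf sh t' with
                | none =>
                  rw [h1, h2] at hpar
                  by_cases hs : s0.stay
                  · simp [hs] at hpar
                  · simp only [hs] at hpar
                    have := Option.some.inj hpar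
                    exact absurd this (Fin.succ_ne_zero u)
                | some u' =>
                  rw [h1, h2] at hpar
                  have := Fin.succ_injective _ (Option.some.inj hpar)
                  rw [this]
            exact k1.sib t t' hne hp
      · intro t ht
        induction t using Fin.cases with
        | zero => exact hv0'.2
        | succ t =>
          rw [parOf_succ] at ht
          cases hp : parOf sh t with
          | none =>
            rw [hp] at ht
            by_cases hs : s0.stay
            · have := k2 t hp
              rw [if_pos hs] at this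
              exact fun e => this (Finset.mem_insert.2 (Or.inr e))
            · simp [hs] at ht
          | some u => rw [hp] at ht; exact absurd ht (by simp)

lemma cf_abs (s : ℕ) (τ : V → ℝ) {B t : ℝ} (hB : 0 ≤ B) (ht : 0 ≤ t)
    (hτ : ∀ x, |τ x| ≤ t) :
    ∀ (sh : List Sh) (D : Dat V M) (w : List (Ltr V M)) (_ : Fit B D w sh) (x : V)
      (A : Finset V) (v : Fin sh.length → V),
      |cf s τ sh w x A v| ≤ B ^ sh.length * t / (s : ℝ) ^ sh.length := by
  intro sh
  induction sh with
  | nil =>
    intro D w hw x A v
    simpa [cf] using hτ x
  | cons s0 sh ih =>
    intro D w hw x A v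
    have hpos : 0 ≤ B ^ (s0 :: sh).length * t / (s : ℝ) ^ (s0 :: sh).length := by positivity
    cases w with
    | nil => exact absurd hw (by simp [Fit])
    | cons l w =>
      have hw' : Fit B (if s0.stay then D else D.rev) w sh := hw.2.2.2.2
      have hst : l.stay = s0.stay := hw.2.1
      simp only [cf]
      by_cases hv0 : v 0 ∈ l.nb x \ A
      · rw [if_pos hv0]
        have h1 : |l.om x (v 0)| ≤ B := hw.2.2.2.1 _ _
        have h2 : |(if l.stay then cf s τ sh w x (insert (v 0) A) (Fin.tail v)
            else cf s τ sh w (v 0) {x} (Fin.tail v))| ≤
            B ^ sh.length * t / (s : ℝ) ^ sh.length := by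
          by_cases hs : l.stay
          · rw [if_pos hs]
            rw [hst] at hs
            rw [if_pos hs] at hw'
            exact ih D w hw' _ _ _
          · rw [if_neg hs]
            rw [hst] at hs
            rw [if_neg hs] at hw'
            exact ih _ w hw' _ _ _
        rw [abs_mul, abs_mul, abs_of_nonneg (by positivity : (0 : ℝ) ≤ (s : ℝ)⁻¹)]
        calc (s : ℝ)⁻¹ * |l.om x (v 0)| * |_|
            ≤ (s : ℝ)⁻¹ * B * (B ^ sh.length * t / (s : ℝ) ^ sh.length) := by gcongr
          _ = B ^ (s0 :: sh).length * t / (s : ℝ) ^ (s0 :: sh).length := by
            simp only [List.length_cons, pow_succ, div_eq_mul_inv, mul_inv]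
            ring
      · rw [if_neg hv0, abs_zero]
        exact hpos

lemma mkS_kind (sh : List Sh) (t : Fin sh.length) : (mkS sh).kind t = (sh.get t).kd.toK := rfl

lemma fn_ok {B : ℝ} (a : ZMod M) :
    ∀ (sh : List Sh) (D : Dat V M) (w : List (Ltr V M)) (_ : Fit B D w sh),
      FnOk (mkS sh).kind B (fnOf a sh w) := by
  intro sh
  induction sh with
  | nil =>
    intro D w hw
    exact ⟨fun j => j.elim0, fun j => j.elim0, fun j => j.elim0, fun j => j.elim0⟩
  | cons s0 sh ih =>
    intro D w hw
    cases w with
    | nil => exact absurd hw (by simp [Fit])
    | cons l w =>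
      have hw' : Fit B (if s0.stay then D else D.rev) w sh := hw.2.2.2.2
      have hm : MkOk B l.mrk s0.kd := hw.2.2.1
      have ih' := ih _ w hw'
      have k0 : (mkS (s0 :: sh)).kind 0 = s0.kd.toK := rfl
      have ks : ∀ t : Fin sh.length, (mkS (s0 :: sh)).kind t.succ = (mkS sh).kind t :=
        fun t => rfl
      have f0 : fnOf a (s0 :: sh) (l :: w) 0 = fun c => l.mrk.val a c := rfl
      have fs : ∀ t : Fin sh.length, fnOf a (s0 :: sh) (l :: w) t.succ = fnOf a sh w t :=
        fun t => rfl
      have hcard : (Fintype.card (ZMod M) : ℝ) = M := by rw [ZMod.card]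
      refine ⟨?_, ?_, ?_, ?_⟩
      · intro j
        refine Fin.cases ?_ (fun t => ?_) j
        · intro hk
          rw [k0] at hk
          rw [f0]
          cases hs : s0.kd with
          | one =>
            rw [hs] at hm
            cases hl : l.mrk with
            | one => intro ℓ; rfl
            | zeta ε c => rw [hl] at hm; exact absurd hm (by simp [MkOk])
            | phi f => rw [hl] at hm; exact absurd hm (by simp [MkOk])
          | zeta => rw [hs] at hk; exact absurd hk (by simp [Kd.toK])
          | phi => rw [hs] at hk; exact absurd hk (by simp [Kd.toK])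
        · intro hk
          rw [fs]
          exact ih'.none t hk
      · intro j
        refine Fin.cases ?_ (fun t => ?_) j
        · intro hk
          rw [k0] at hk
          rw [f0]
          cases hs : s0.kd with
          | one => rw [hs] at hk; exact absurd hk (by simp [Kd.toK])
          | zeta =>
            rw [hs] at hm
            cases hl : l.mrk with
            | one => rw [hl] at hm; exact absurd hm (by simp [MkOk])
            | zeta ε c =>
              refine ⟨ε * a + c, fun ℓ => ?_⟩
              simp only [Mk.val, Pool.Agent.C4M.mark, hcard]
            | phi f => rw [hl] at hm; exact absurd hm (by simp [MkOk])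
          | phi => rw [hs] at hk; exact absurd hk (by simp [Kd.toK])
        · intro hk
          rw [fs]
          exact ih'.zeta t hk
      · intro j
        refine Fin.cases ?_ (fun t => ?_) j
        · intro hk
          rw [k0] at hk
          rw [f0]
          cases hs : s0.kd with
          | one => rw [hs] at hk; exact absurd hk (by simp [Kd.toK])
          | zeta => rw [hs] at hk; exact absurd hk (by simp [Kd.toK])
          | phi =>
            rw [hs] at hm
            cases hl : l.mrk with
            | one => rw [hl] at hm; exact absurd hm (by simp [MkOk])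
            | zeta ε c => rw [hl] at hm; exact absurd hm (by simp [MkOk])
            | phi f =>
              rw [hl] at hm
              exact hm.1 a
        · intro hk
          rw [fs]
          exact ih'.phi0 t hk
      · intro j
        refine Fin.cases ?_ (fun t => ?_) j
        · intro hk
          rw [k0] at hk
          rw [f0]
          cases hs : s0.kd with
          | one => rw [hs] at hk; exact absurd hk (by simp [Kd.toK])
          | zeta => rw [hs] at hk; exact absurd hk (by simp [Kd.toK])
          | phi =>
            rw [hs] at hm
            cases hl : l.mrk with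
            | one => rw [hl] at hm; exact absurd hm (by simp [MkOk])
            | zeta ε c => rw [hl] at hm; exact absurd hm (by simp [MkOk])
            | phi f =>
              rw [hl] at hm
              intro ℓ
              rw [hcard]
              exact hm.2 a ℓ
        · intro hk
          rw [fs]
          exact ih'.phi t hk

/-- the tree polynomial of a nested sum -/
def polOf (s : ℕ) (τ : V → ℝ) (sh : List Sh) (w : List (Ltr V M)) (a : ZMod M) (x : V)
    (A : Finset V) : Poly sh.length V (ZMod M) where
  coef := cf s τ sh w x A
  fn := fnOf a sh w

theorem pol_eval (s : ℕ) (τ : V → ℝ) {B : ℝ} {sh : List Sh} {D : Dat V M}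
    {w : List (Ltr V M)} (hw : Fit B D w sh) (a : ZMod M) (x : V) (A : Finset V)
    (h : V → ZMod M) : (polOf s τ sh w a x A).eval h = Bas s τ w a x A h :=
  eval_eq s τ a h sh D w hw x A

theorem pol_adm (s : ℕ) (τ : V → ℝ) {B t : ℝ} (hB : 0 ≤ B) (ht : 0 ≤ t)
    (hτ : ∀ x, |τ x| ≤ t) {sh : List Sh} {D : Dat V M}
    {w : List (Ltr V M)} (hw : Fit B D w sh) (a : ZMod M) (x : V) (A : Finset V) :
    (polOf s τ sh w a x A).Adm (mkS sh) x (nbOf D sh) s (B ^ sh.length * t) B where
  coef_le := fun v _ => cf_abs s τ hB ht hτ sh D w hw x A v
  coef_zero := fun v hv => by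
    by_contra hc
    exact hv (valid_of_ne s τ sh D w hw x A v hc).1
  fn := fn_ok a sh D w hw

end Pool.Agent.C4W
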