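import Pool.Agent.Helper53_C4W.Mom

/-!
# Moments of window averages of `g2`
-/

set_option autoImplicit false

open scoped BigOperators Classical

noncomputable section

namespace Pool.Agent.C4W

open Pool.Agent.C4M (mean Kind Shape Valid ctr Poly FnOk IsNbd Env momT bonT winT mkv mark)

/-- shapes for the window lemma -/
def ShW (sh : List Sh) : Prop :=
  sh.length = 3 ∧ (mkS sh).Ok ∧ (∀ t, (mkS sh).kind t ≠ Kind.phi ∧ (mkS sh).st t ≤ 1) ∧
  ∃ a t1 t2, (mkS sh).Bon a ∧ t1 ≠ t2 ∧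
    (∀ t, (mkS sh).kind t = Kind.zeta ↔ t = t1 ∨ t = t2) ∧
    ((mkS sh).par t1 = (mkS sh).par t2 ∨ (mkS sh).par t2 = some t1)

section dec

attribute [-instance] Classical.propDecidable

instance (sh : List Sh) : Decidable (ShW sh) := by
  unfold ShW
  infer_instance

set_option maxRecDepth 100000 in
lemma shp_W : ∀ sh ∈ shg2, ShW sh := by decide +kernel

end dec

variable {V : Type} [Fintype V] {M : ℕ} [NeZero M]

/-- the zeta labels are `± a + c` -/
lemma fn_zeta {B : ℝ} :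
    ∀ (sh : List Sh) (D : Dat V M) (w : List (Ltr V M)) (_ : Fit B D w sh)
      (t : Fin sh.length), (mkS sh).kind t = Kind.zeta →
      ∃ ε c : ZMod M, (ε = 1 ∨ ε = -1) ∧ ∀ a ℓ, fnOf a sh w t ℓ = mark (ε * a + c) ℓ := by
  intro sh
  induction sh with
  | nil => intro D w _ t; exact t.elim0
  | cons s0 sh ih =>
    intro D w hw t
    cases w with
    | nil => exact absurd hw (by simp [Fit])
    | cons l w =>
      have hw' : Fit B (if s0.stay then D else D.rev) w sh := hw.2.2.2.2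
      have hm : MkOk B l.mrk s0.kd := hw.2.2.1
      have hcard : (Fintype.card (ZMod M) : ℝ) = M := by rw [ZMod.card]
      refine Fin.cases ?_ (fun t => ?_) t
      · intro hk
        have k0 : (mkS (s0 :: sh)).kind 0 = s0.kd.toK := rfl
        rw [k0] at hk
        cases hs : s0.kd with
        | one => rw [hs] at hk; exact absurd hk (by simp [Kd.toK])
        | zeta =>
          rw [hs] at hm
          cases hl : l.mrk with
          | one => rw [hl] at hm; exact absurd hm (by simp [MkOk])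
          | zeta ε c =>
            rw [hl] at hm
            refine ⟨ε, c, hm, fun a ℓ => ?_⟩
            have : fnOf a (s0 :: sh) (l :: w) 0 ℓ = l.mrk.val a ℓ := rfl
            rw [this, hl]
            simp only [Mk.val, mark, hcard]
          | phi f => rw [hl] at hm; exact absurd hm (by simp [MkOk])
        | phi => rw [hs] at hk; exact absurd hk (by simp [Kd.toK])
      · intro hk
        exact ih _ w hw' t hk

/-- window moments -/
theorem win_RF (p : ℕ) (hp : 1 ≤ p) : ∃ K : ℝ, 0 ≤ K ∧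
    ∀ (V : Type) [Fintype V] (M : ℕ) [NeZero M] [Fact M.Prime] (D : Dat V M) (Δ : ℝ),
    EnvD D Δ → D.rho ≠ 0 →
    ∀ (C : ℝ) (q : ℕ) (f : (V → ZMod M) → V → ZMod M → Finset V → ℝ), 0 ≤ C →
      1 ≤ q → q ≤ M → RF D 4 C 1 shg2 f → ∀ x a A, A ⊆ outN D.O x →
      mean (fun h => ((q : ℝ)⁻¹ * ∑ j ∈ Finset.range q,
          f h x (a - (j : ZMod M) * D.rho) A) ^ (2 * p)) ≤
        K * (C * (Δ / D.s) ^ 3) ^ (2 * p) * ((M : ℝ) / D.s) ^ (2 * p) /
          (D.s : ℝ) ^ p / (q : ℝ) ^ p := by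
  obtain ⟨K, hK0, hK⟩ := winT 3 p
  refine ⟨(4 ^ 3) ^ (2 * p) * K, by positivity, ?_⟩
  intro V _ M _ _ D Δ hD hρ C q f hC hq1 hq2 hf x a A hA
  obtain ⟨ι, hι, α, w, τ, h1, h2, h3, h4⟩ := hf
  have hM0 : (0 : ℝ) < M := by exact_mod_cast NeZero.pos M
  have hs0 : (0 : ℝ) < D.s := lt_of_lt_of_le hM0 hD.Ms
  have hr : 1 ≤ Δ / D.s := by rw [le_div_iff₀ hs0, one_mul]; exact hD.s1
  have hr0 : 0 ≤ Δ / D.s := zero_le_one.trans hr
  have hq0 : (0 : ℝ) < q := by exact_mod_cast hq1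
  have hb : ∀ i, mean (fun h => ((q : ℝ)⁻¹ * ∑ j ∈ Finset.range q,
      Bas D.s (τ i) (w i) (a - (j : ZMod M) * D.rho) x A h) ^ (2 * p)) ≤
      (4 ^ 3) ^ (2 * p) * K * ((Δ / D.s) ^ 3) ^ (2 * p) *
        ((M : ℝ) / D.s) ^ (2 * p) / (D.s : ℝ) ^ p / (q : ℝ) ^ p := by
    intro i
    obtain ⟨sh, hs1, hs2⟩ := h2 i
    obtain ⟨hl3, o2, o3, b, t1, t2, hB, hne, hz, hpar⟩ := shp_W sh hs1
    set P : Fin q → Poly sh.length V (ZMod M) :=
      fun j => polOf D.s (τ i) sh (w i) (a - ((j : ℕ) : ZMod M) * D.rho) x A with hP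
    have e1 : (fun h => ((q : ℝ)⁻¹ * ∑ j ∈ Finset.range q,
        Bas D.s (τ i) (w i) (a - (j : ZMod M) * D.rho) x A h) ^ (2 * p)) =
        fun h => ((∑ j, (P j).eval h) / q) ^ (2 * p) := by
      funext h
      congr 1
      rw [div_eq_inv_mul]
      congr 1
      rw [← Fin.sum_univ_eq_sum_range
        (fun j => Bas D.s (τ i) (w i) (a - (j : ZMod M) * D.rho) x A h) q]
      refine Finset.sum_congr rfl fun j _ => ?_
      rw [hP, pol_eval D.s (τ i) hs2]
    rw [e1]
    have hAdm : ∀ j, (P j).Adm (mkS sh) x (nbOf D sh) D.s (4 ^ 3) 0 := by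
      intro j
      have ha := pol_adm D.s (τ i) (B := 4) (t := 1) (by norm_num) (by norm_num) (h3 i) hs2
        (a - ((j : ℕ) : ZMod M) * D.rho) x A
      have h43 : (4 : ℝ) ^ sh.length * 1 = 4 ^ 3 := by rw [hl3, mul_one]
      refine ⟨fun v hv => ?_, ha.coef_zero, ?_⟩
      · have := ha.coef_le v hv
        rw [h43] at this
        exact this
      · exact ⟨ha.fn.none, ha.fn.zeta, fun t ht => absurd ht (o3 t).1,
          fun t ht => absurd ht (o3 t).1⟩
    have hlab : ∀ t, (mkS sh).kind t = Kind.zeta →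
        ∃ l : Fin q → ZMod M, Function.Injective l ∧ ∀ j ℓ, (P j).fn t ℓ = mark (l j) ℓ := by
      intro t ht
      obtain ⟨ε, c, hε, hfn⟩ := fn_zeta sh D (w i) hs2 t ht
      refine ⟨fun j => ε * (a - ((j : ℕ) : ZMod M) * D.rho) + c, ?_, fun j ℓ => hfn _ _⟩
      intro j j' hjj
      have hε0 : ε ≠ 0 := by
        rcases hε with rfl | rfl
        · exact one_ne_zero
        · exact neg_ne_zero.2 one_ne_zero
      have h5 : ε * (a - ((j : ℕ) : ZMod M) * D.rho) + c =
          ε * (a - ((j' : ℕ) : ZMod M) * D.rho) + c := hjj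
      have h6 := mul_left_cancel₀ hε0 (add_right_cancel h5)
      have h7 : ((j : ℕ) : ZMod M) * D.rho = ((j' : ℕ) : ZMod M) * D.rho :=
        sub_right_injective h6
      have h8 : ((j : ℕ) : ZMod M) = ((j' : ℕ) : ZMod M) := mul_right_cancel₀ hρ h7
      rw [ZMod.natCast_eq_natCast_iff'] at h8
      have b1 := j.2
      have b2 := j'.2
      rw [Nat.mod_eq_of_lt (by omega), Nat.mod_eq_of_lt (by omega)] at h8
      exact Fin.ext h8
    have hdist : ∀ v : Fin sh.length → V, Valid x (mkS sh).par (nbOf D sh) v → v t1 ≠ v t2 := by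
      intro v hv
      rcases hpar with hp' | hp'
      · exact hv.sib t1 t2 hne hp'
      · intro e
        have h5 := hv.mem t2
        have h6 : ctr x (mkS sh).par v t2 = v t1 := ctr_some x _ v t2 t1 hp'
        rw [h6, ← e] at h5
        exact hD.nbd.irr _ (nbOf_sub sh D t2 _ h5)
    have hgen : ∀ (n : ℕ) (hn : n = 3) (S : Shape n) (nb : Fin n → V → Finset V)
        (P' : Fin q → Poly n V (ZMod M)) (b t1 t2 : Fin n), S.Ok →
        (∀ t, S.kind t ≠ Kind.phi ∧ S.st t ≤ 1) → S.Bon b → t1 ≠ t2 →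
        (∀ t, S.kind t = Kind.zeta ↔ t = t1 ∨ t = t2) →
        (∀ v : Fin n → V, Valid x S.par nb v → v t1 ≠ v t2) →
        Env (Λ := ZMod M) (Nb D) nb (fun _ => Δ) D.s →
        (∀ j, (P' j).Adm S x nb D.s (4 ^ 3) 0) →
        (∀ t, S.kind t = Kind.zeta →
          ∃ l : Fin q → ZMod M, Function.Injective l ∧ ∀ j ℓ, (P' j).fn t ℓ = mark (l j) ℓ) →
        mean (fun h : V → ZMod M => ((∑ j, (P' j).eval h) / q) ^ (2 * p)) ≤
          K * (4 ^ 3 * (Δ / D.s) ^ 3) ^ (2 * p) * ((M : ℝ) / D.s) ^ (2 * p) /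
            (D.s : ℝ) ^ p / (q : ℝ) ^ p := by
      intro n hn S nb P' b t1 t2 g1 g2 g3 g4 g5 g6 g7 g8 g9
      subst hn
      have := hK V (ZMod M) S g1 g2 b g3 t1 t2 g4 g5 x (Nb D) nb g6 (fun _ => Δ) D.s (4 ^ 3) g7
        (by norm_num) q hq1 (by rw [ZMod.card]; exact hq2) P' g8 g9
      rw [ZMod.card, Finset.prod_const, Finset.card_univ, Fintype.card_fin] at this
      exact this
    have e2 := hgen sh.length hl3 (mkS sh) (nbOf D sh) P b t1 t2 o2 o3 hB hne hz hdist
      (hD.env sh) hAdm hlab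
    refine e2.trans (le_of_eq ?_)
    rw [mul_pow (4 ^ 3)]
    ring
  have h5 : (fun h => ((q : ℝ)⁻¹ * ∑ j ∈ Finset.range q,
      f h x (a - (j : ZMod M) * D.rho) A) ^ (2 * p)) =
      fun h => (∑ i, α i * ((q : ℝ)⁻¹ * ∑ j ∈ Finset.range q,
        Bas D.s (τ i) (w i) (a - (j : ZMod M) * D.rho) x A h)) ^ (2 * p) := by
    funext h
    congr 1
    simp only [h4 h x _ A hA]
    rw [Finset.sum_comm, Finset.mul_sum]
    refine Finset.sum_congr rfl fun i _ => ?_
    rw [← Finset.mul_sum]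
    ring
  rw [h5]
  refine (mean_hull α _ h1 hp (by positivity) hb).trans (le_of_eq ?_)
  rw [mul_pow C]
  ring

end Pool.Agent.C4W
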